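import Mathlib

/-!
# QL-30: a common zero in an extension gives a common zero in the algebraically closed field

PROOF. The kernel `I` of `aeval x : MvPolynomial σ k →ₐ[k] κ` is a proper ideal (`1 ↦ 1 ≠ 0`) which contains `S`. It is contained in a maximal ideal `M`; by the Nullstellensatz `MvPolynomial.isMaximal_iff_eq_vanishingIdeal_singleton`
(`σ` finite, `k` algebraically closed) `M` is the vanishing ideal of a point `y`.
-/

set_option autoImplicit false

namespace Pool.Agent.Helper66.QL

theorem descend {k κ σ : Type*} [Field k] [IsAlgClosed k] [Field κ] [Algebra k κ] [Finite σ]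
    (S : Set (MvPolynomial σ k)) (x : σ → κ) (hx : ∀ f ∈ S, MvPolynomial.aeval x f = 0) :
    ∃ y : σ → k, ∀ f ∈ S, MvPolynomial.eval y f = 0 := by
  have hne : RingHom.ker (MvPolynomial.aeval (R := k) x : MvPolynomial σ k →ₐ[k] κ) ≠ ⊤ :=
    RingHom.ker_ne_top _
  obtain ⟨M, hM, hle⟩ := Ideal.exists_le_maximal _ hne
  obtain ⟨y, hy⟩ := MvPolynomial.isMaximal_iff_eq_vanishingIdeal_singleton.1 hM
  refine ⟨y, fun f hf => ?_⟩
  have h1 : f ∈ M := hle (by rw [RingHom.mem_ker]; exact hx f hf)
  rw [hy] at h1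
  exact MvPolynomial.mem_vanishingIdeal_singleton_iff _ _ |>.1 h1

end Pool.Agent.Helper66.QL
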