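import Pool.Agent.Helper66.QL.Defs
import Pool.Agent.Helper72.QT.Main

/-!
# QL-21: the base curve of a cone section and a point of it which is no flex

PROOF of `cone_pol`: for `u, v, w` in `ker (phi x0 x0 x0 ·)` also `u + v + w`, `u + v`, ... are in it; the cubic form `v ↦ phi x0 v v v` vanishes on it, its polarization is
`6 phi x0 u v w = c(u+v+w) - c(u+v) - c(u+w) - c(v+w) + c(u) + c(v) + c(w)` (`2, 3 ≠ 0`).
PROOF of `cone_pt`: let `H = ker (phi x0 x0 x0 ·)` (dimension 4 by `Smo`), `x0 ∈ H`, `u0, u1, u2` a basis of a complement of `x0` in `H`. Let `T3 : Ten k 3`, `T3 a b c d = phi T (u a) (u b) (u c) (u d)`, symmetric; `phi T3 x y z w = phi T x̂ ŷ ẑ ŵ` for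
`x̂ = ∑ x_i u_i` (`phi_add1`.., `phi_smul1`.., or `phi_eq_sum`). `Smo T3`: let `v ∈ k^3`, `v ≠ 0`, and suppose `phi T3 v v v v' = 0` for all `v'`. By `cone_pol` `phi v̂ v̂ v̂ h = 0` for all `h ∈ H`, and for `z = μ x0 + v̂` also
`phi z z z h = 0` for all `h ∈ H` (all terms with `x0` vanish by `cone_pol` as `x0 ∈ H`). Let `e` with `phi x0 x0 x0 e ≠ 0`. `phi z z z e = μ³ phi x0 x0 x0 e + 3 μ² phi x0 x0 v̂ e + 3 μ phi x0 v̂ v̂ e + phi v̂ v̂ v̂ e` is a polynomial of degree `3` in `μ`,
it has a root `μ`; for this `μ`: `phi z z z · = 0` on `H + k e = k^5`, `z ≠ 0` (independence), contradiction to `Smo T`. So `nd_point` (`QT/Main.lean`, `N = 3`) gives `p ∈ k^3`, `p ≠ 0`, `phi T3 p p p p = 0`, `ND T3 p`. `ND` for `r = p`: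
some `p'` with `phi T3 p p p p' ≠ 0`. The kernel of `phi T3 p p p ·` has dimension `2` and contains `p`; take `w` in it, not a multiple of `p`. If `phi T3 p p w w = 0`: the two linear forms `phi T3 p p p ·` and
`phi T3 p p w ·` vanish on `p` and `w` (`phi p p w p = phi p p p w = 0`), so on a plane of `k^3`, hence they are dependent: `α phi p p p · + β phi p p w · = 0`, `(α, β) ≠ 0`, `r = α p + β w ≠ 0` contradicts `ND`.
-/

set_option autoImplicit false

namespace Pool.Agent.Helper66.QL

open Pool.Agent.Helper72.QT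

variable {k : Type*} [Field k] {T : Ten k 5}

theorem cone_pol (h2 : (2 : k) ≠ 0) (h3 : (3 : k) ≠ 0) (hT : SymT T) (x0 : Fin 5 → k)
    (hc : ∀ v, phi T x0 x0 x0 v = 0 → phi T x0 v v v = 0) (u v w : Fin 5 → k)
    (hu : phi T x0 x0 x0 u = 0) (hv : phi T x0 x0 x0 v = 0) (hw : phi T x0 x0 x0 w = 0) :
    phi T x0 u v w = 0 := by
  have e1 := hc _ (show phi T x0 x0 x0 (u + v + w) = 0 by
    rw [phi_add4, phi_add4, hu, hv, hw, add_zero, add_zero])
  have e2 := hc _ (show phi T x0 x0 x0 (u + v) = 0 by rw [phi_add4, hu, hv, add_zero])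
  have e3 := hc _ (show phi T x0 x0 x0 (u + w) = 0 by rw [phi_add4, hu, hw, add_zero])
  have e4 := hc _ (show phi T x0 x0 x0 (v + w) = 0 by rw [phi_add4, hv, hw, add_zero])
  have e5 := hc _ hu
  have e6 := hc _ hv
  have e7 := hc _ hw
  have h6 : (6 : k) ≠ 0 := by
    have h : (6 : k) = 2 * 3 := by norm_num
    rw [h]
    exact mul_ne_zero h2 h3
  have f1 : phi T x0 u w v = phi T x0 u v w := phi_s34 hT _ _ _ _
  have f2 : phi T x0 v u w = phi T x0 u v w := phi_s23 hT _ _ _ _
  have f3 : phi T x0 v w u = phi T x0 u v w := by rw [phi_s34 hT, f2]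
  have f4 : phi T x0 w u v = phi T x0 u v w := by rw [phi_s23 hT, f1]
  have f5 : phi T x0 w v u = phi T x0 u v w := by rw [phi_s34 hT, f4]
  simp only [phi_add2, phi_add3, phi_add4] at e1 e2 e3 e4
  have h : 6 * phi T x0 u v w = 0 := by
    linear_combination e1 - e2 - e3 - e4 + e5 + e6 + e7 - f1 - f2 - f3 - f4 - f5
  exact (mul_eq_zero.1 h).resolve_left h6

/-- an independent family in the kernel of a linear form can be enlarged -/
private theorem snoc_ex {N m : ℕ} (ψ : (Fin N → k) →ₗ[k] k) (u : Fin m → Fin N → k)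
    (li : LinearIndependent k u) (hm : m + 1 < N) :
    ∃ x : Fin N → k, ψ x = 0 ∧ LinearIndependent k (Fin.snoc (α := fun _ => Fin N → k) u x) := by
  by_contra hcon
  have hle : LinearMap.ker ψ ≤ Submodule.span k (Set.range u) := by
    intro x hx
    by_contra hno
    exact hcon ⟨x, hx, linearIndependent_finSnoc.2 ⟨li, hno⟩⟩
  have h1 := Submodule.finrank_mono hle
  rw [finrank_span_eq_card li, Fintype.card_fin] at h1
  have hr : Module.finrank k (LinearMap.range ψ) ≤ 1 := by
    have := Submodule.finrank_le (LinearMap.range ψ)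
    rwa [Module.finrank_self] at this
  have := ψ.finrank_range_add_finrank_ker
  rw [Module.finrank_fin_fun] at this
  omega

/-- two linear forms which vanish on the same independent family of the right size -/
private theorem two_forms {n : ℕ} (ψ φ : (Fin (n + 1) → k) →ₗ[k] k) (u : Fin n → Fin (n + 1) → k)
    (li : LinearIndependent k u) (hψ : ∀ i, ψ (u i) = 0) (hφ : ∀ i, φ (u i) = 0)
    (e : Fin (n + 1) → k) (he : ψ e ≠ 0) (w : Fin (n + 1) → k) : ψ e * φ w = φ e * ψ w := by
  have hno : e ∉ Submodule.span k (Set.range u) := by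
    intro h
    apply he
    have hle : Submodule.span k (Set.range u) ≤ LinearMap.ker ψ := by
      rw [Submodule.span_le]
      rintro _ ⟨i, rfl⟩
      exact hψ i
    exact hle h
  have li2 : LinearIndependent k (Fin.snoc (α := fun _ => Fin (n + 1) → k) u e) :=
    linearIndependent_finSnoc.2 ⟨li, hno⟩
  have hsp := li2.span_eq_top_of_card_eq_finrank' (by rw [Fintype.card_fin, Module.finrank_fin_fun])
  have hz : ψ e • φ = φ e • ψ := by
    refine LinearMap.ext_on_range hsp ?_
    intro i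
    refine Fin.lastCases ?_ (fun j => ?_) i
    · rw [Fin.snoc_last]
      simp only [LinearMap.smul_apply, smul_eq_mul]
      ring
    · rw [Fin.snoc_castSucc]
      simp only [LinearMap.smul_apply, smul_eq_mul, hψ, hφ, mul_zero]
  have := LinearMap.congr_fun hz w
  simpa only [LinearMap.smul_apply, smul_eq_mul] using this

/-- the linear form of three vectors -/
private def lf {N : ℕ} (T : Ten k N) (x y z : Fin N → k) : (Fin N → k) →ₗ[k] k where
  toFun v := phi T x y z v
  map_add' u w := phi_add4 T x y z u w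
  map_smul' c u := phi_smul4 T c x y z u

private theorem lf_apply {N : ℕ} (T : Ten k N) (x y z v : Fin N → k) :
    lf T x y z v = phi T x y z v := rfl

/-- the combination of the three vectors -/
private def hat (u : Fin 3 → Fin 5 → k) (x : Fin 3 → k) : Fin 5 → k := ∑ i, x i • u i

/-- the restricted tensor -/
private def rT (T : Ten k 5) (u : Fin 3 → Fin 5 → k) : Ten k 3 :=
  fun a b c d => phi T (u a) (u b) (u c) (u d)

private theorem sum4 (u : Fin 3 → Fin 5 → k) (x y z : Fin 5 → k) (v : Fin 3 → k) :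
    phi T x y z (hat u v) = ∑ i, phi T x y z (u i) * v i := by
  have h := map_sum (lf T x y z) (fun i => v i • u i) Finset.univ
  simp only [map_smul, lf_apply, smul_eq_mul] at h
  unfold hat
  rw [h]
  exact Finset.sum_congr rfl fun i _ => mul_comm _ _

private theorem sum3 (hT : SymT T) (u : Fin 3 → Fin 5 → k) (x y z : Fin 5 → k) (v : Fin 3 → k) :
    phi T x y (hat u v) z = ∑ i, phi T x y (u i) z * v i := by
  rw [phi_s34 hT, sum4]
  exact Finset.sum_congr rfl fun i _ => by rw [phi_s34 hT]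

private theorem sum2 (hT : SymT T) (u : Fin 3 → Fin 5 → k) (x y z : Fin 5 → k) (v : Fin 3 → k) :
    phi T x (hat u v) y z = ∑ i, phi T x (u i) y z * v i := by
  rw [phi_s23 hT, sum3 hT]
  exact Finset.sum_congr rfl fun i _ => by rw [phi_s23 hT]

private theorem sum1 (hT : SymT T) (u : Fin 3 → Fin 5 → k) (x y z : Fin 5 → k) (v : Fin 3 → k) :
    phi T (hat u v) x y z = ∑ i, phi T (u i) x y z * v i := by
  rw [phi_s12 hT, sum2 hT]
  exact Finset.sum_congr rfl fun i _ => by rw [phi_s12 hT]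

private theorem phi_rT (hT : SymT T) (u : Fin 3 → Fin 5 → k) (x y z w : Fin 3 → k) :
    phi (rT T u) x y z w = phi T (hat u x) (hat u y) (hat u z) (hat u w) := by
  rw [sum1 hT]
  simp only [sum2 hT]
  simp only [sum3 hT]
  simp only [sum4]
  have h : phi (rT T u) x y z w = ∑ a, ∑ b, ∑ c, ∑ d,
      algebraMap k k (phi T (u a) (u b) (u c) (u d)) * x a * y b * z c * w d := rfl
  rw [h]
  simp only [Algebra.algebraMap_self, RingHom.id_apply, Finset.sum_mul]
  refine Finset.sum_congr rfl fun a _ => Finset.sum_congr rfl fun b _ =>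
    Finset.sum_congr rfl fun c _ => Finset.sum_congr rfl fun d _ => ?_
  ring

private theorem symT_rT (hT : SymT T) (u : Fin 3 → Fin 5 → k) : SymT (rT T u) :=
  ⟨fun _ _ _ _ => phi_s12 hT _ _ _ _, fun _ _ _ _ => phi_s23 hT _ _ _ _,
    fun _ _ _ _ => phi_s34 hT _ _ _ _⟩

/-- a basis of the kernel of a linear form which starts with a given vector -/
private theorem fam_ex (ψ : (Fin 5 → k) →ₗ[k] k) (x0 : Fin 5 → k) (hx : x0 ≠ 0) :
    ∃ u : Fin 3 → Fin 5 → k, (∀ i, ψ (u i) = 0) ∧ LinearIndependent k ![x0, u 0, u 1, u 2] := by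
  have l1 : LinearIndependent k ![x0] := by
    rw [linearIndependent_unique_iff]
    exact hx
  obtain ⟨a, ha, la⟩ := snoc_ex ψ ![x0] l1 (by norm_num)
  obtain ⟨b, hb, lb⟩ := snoc_ex ψ _ la (by norm_num)
  obtain ⟨c, hc, lc⟩ := snoc_ex ψ _ lb (by norm_num)
  refine ⟨![a, b, c], ?_, ?_⟩
  · intro i
    fin_cases i
    · exact ha
    · exact hb
    · exact hc
  · convert lc using 1
    funext i
    fin_cases i <;> rfl

/-- the zero of a cubic polynomial -/
private theorem root3 [IsAlgClosed k] (a b c d : k) (ha : a ≠ 0) :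
    ∃ μ : k, a * μ ^ 3 + b * μ ^ 2 + c * μ + d = 0 := by
  obtain ⟨μ, hμ⟩ := IsAlgClosed.exists_root (Polynomial.C a * Polynomial.X ^ 3 +
    Polynomial.C b * Polynomial.X ^ 2 + Polynomial.C c * Polynomial.X + Polynomial.C d)
    (by rw [Polynomial.degree_cubic ha]; norm_num)
  refine ⟨μ, ?_⟩
  simpa [Polynomial.IsRoot] using hμ

private theorem smo_rT [IsAlgClosed k] (h2 : (2 : k) ≠ 0) (h3 : (3 : k) ≠ 0) (hT : SymT T)
    (hS : Smo T) (x0 : Fin 5 → k) (hf : phi T x0 x0 x0 x0 = 0)
    (hc : ∀ v, phi T x0 x0 x0 v = 0 → phi T x0 v v v = 0) (e : Fin 5 → k)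
    (he : phi T x0 x0 x0 e ≠ 0) (u : Fin 3 → Fin 5 → k) (hu : ∀ i, phi T x0 x0 x0 (u i) = 0)
    (li : LinearIndependent k ![x0, u 0, u 1, u 2]) : Smo (rT T u) := by
  intro v hv
  by_contra hcon
  push Not at hcon
  have hV0 : phi T x0 x0 x0 (hat u v) = 0 := by
    rw [sum4]
    exact Finset.sum_eq_zero fun i _ => by rw [hu, zero_mul]
  obtain ⟨V, hV⟩ : ∃ V, V = hat u v := ⟨_, rfl⟩
  rw [← hV] at hV0
  obtain ⟨μ, hμ⟩ := root3 (phi T x0 x0 x0 e) (3 * phi T x0 x0 V e) (3 * phi T x0 V V e)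
    (phi T V V V e) he
  obtain ⟨z, hz⟩ : ∃ z, z = μ • x0 + V := ⟨_, rfl⟩
  have hexp : ∀ h, phi T z z z h = phi T x0 x0 x0 h * μ ^ 3 + 3 * phi T x0 x0 V h * μ ^ 2 +
      3 * phi T x0 V V h * μ + phi T V V V h := by
    intro h
    have g1 : phi T x0 V x0 h = phi T x0 x0 V h := phi_s23 hT _ _ _ _
    have g2 : phi T V x0 x0 h = phi T x0 x0 V h := by rw [phi_s12 hT, g1]
    have g3 : phi T V x0 V h = phi T x0 V V h := phi_s12 hT _ _ _ _
    have g4 : phi T V V x0 h = phi T x0 V V h := by rw [phi_s23 hT, g3]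
    rw [hz]
    simp only [phi_add1, phi_add2, phi_add3, phi_smul1, phi_smul2, phi_smul3, g1, g2, g3, g4]
    ring
  have hz0 : z ≠ 0 := by
    intro h0
    apply hv
    rw [Fintype.linearIndependent_iff] at li
    have h := li ![μ, v 0, v 1, v 2] (by
      rw [Fin.sum_univ_four]
      simp only [Matrix.cons_val]
      rw [hz, hV, hat, Fin.sum_univ_three] at h0
      rw [← h0]
      abel)
    funext i
    fin_cases i
    · exact h 1
    · exact h 2
    · exact h 3
  obtain ⟨w, hw⟩ := hS z hz0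
  apply hw
  have hke : phi T z z z e = 0 := by
    rw [hexp]
    exact hμ
  have hkH : ∀ h, phi T x0 x0 x0 h = 0 → phi T V V V h = 0 → phi T z z z h = 0 := by
    intro h hh hVh
    have k1 := cone_pol h2 h3 hT x0 hc x0 V h hf hV0 hh
    have k2 := cone_pol h2 h3 hT x0 hc V V h hV0 hV0 hh
    rw [hexp, hh, k1, k2, hVh]
    ring
  have hku : ∀ i, phi T z z z (u i) = 0 := by
    intro i
    refine hkH _ (hu i) ?_
    have h := hcon (Pi.single i 1)
    rw [phi_rT hT, ← hV] at h
    have hs : hat u (Pi.single i 1) = u i := by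
      unfold hat
      rw [Finset.sum_eq_single i]
      · rw [Pi.single_eq_same, one_smul]
      · intro j _ hj
        rw [Pi.single_eq_of_ne hj, zero_smul]
      · intro hi
        exact absurd (Finset.mem_univ i) hi
    rwa [hs] at h
  have hkx : phi T z z z x0 = 0 := by
    refine hkH _ hf ?_
    rw [phi_s34 hT, phi_s23 hT, phi_s12 hT]
    exact hc V hV0
  have hfin := two_forms (lf T x0 x0 x0) (lf T z z z) ![x0, u 0, u 1, u 2] li
    (by
      intro i
      fin_cases i
      · exact hf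
      · exact hu 0
      · exact hu 1
      · exact hu 2)
    (by
      intro i
      fin_cases i
      · exact hkx
      · exact hku 0
      · exact hku 1
      · exact hku 2) e he w
  rw [lf_apply, lf_apply, lf_apply, lf_apply, hke, zero_mul] at hfin
  exact (mul_eq_zero.1 hfin).resolve_left he

theorem cone_pt [IsAlgClosed k] (h2 : (2 : k) ≠ 0) (h3 : (3 : k) ≠ 0) (hT : SymT T) (hS : Smo T)
    (x0 : Fin 5 → k) (hx : x0 ≠ 0) (hf : phi T x0 x0 x0 x0 = 0)
    (hc : ∀ v, phi T x0 x0 x0 v = 0 → phi T x0 v v v = 0) :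
    ∃ p w p' : Fin 5 → k, phi T x0 x0 x0 p = 0 ∧ phi T x0 x0 x0 w = 0 ∧ phi T x0 x0 x0 p' = 0 ∧
      phi T p p p p = 0 ∧ phi T p p p w = 0 ∧ phi T p p w w ≠ 0 ∧ phi T p p p p' ≠ 0 := by
  obtain ⟨e, he⟩ := hS x0 hx
  obtain ⟨u, hu, li⟩ := fam_ex (lf T x0 x0 x0) x0 hx
  have hS3 := smo_rT h2 h3 hT hS x0 hf hc e he u hu li
  have hT3 := symT_rT hT u
  obtain ⟨p, hp0, hp, hnd⟩ := nd_point h2 hT3 hS3 (le_refl 3)
  obtain ⟨p', hp'⟩ : ∃ p', phi (rT T u) p p p p' ≠ 0 := by
    by_contra hno
    push Not at hno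
    exact hp0 (hnd p hno)
  have l1 : LinearIndependent k ![p] := by
    rw [linearIndependent_unique_iff]
    exact hp0
  obtain ⟨w, hw, lw⟩ := snoc_ex (lf (rT T u) p p p) ![p] l1 (by norm_num)
  rw [lf_apply] at hw
  have lw' : LinearIndependent k ![p, w] := by
    convert lw using 1
    funext i
    fin_cases i <;> rfl
  have hww : phi (rT T u) p p w w ≠ 0 := by
    intro hcon
    have hwp : phi (rT T u) p p w p = 0 := by
      rw [phi_s34 hT3]
      exact hw
    have hfin := two_forms (lf (rT T u) p p p) (lf (rT T u) p p w) ![p, w] lw'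
      (by
        intro i
        fin_cases i
        · exact hp
        · exact hw)
      (by
        intro i
        fin_cases i
        · exact hwp
        · exact hcon) p' hp'
    simp only [lf_apply] at hfin
    have hr : phi (rT T u) p p p p' • w - phi (rT T u) p p w p' • p = 0 := by
      refine hnd _ fun y => ?_
      rw [phi_sub3, phi_smul3, phi_smul3, hfin, sub_self]
    rw [LinearIndependent.pair_iff] at lw'
    have h := lw' (-phi (rT T u) p p w p') (phi (rT T u) p p p p') (by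
      rw [← hr, neg_smul]
      abel)
    exact hp' h.2
  have hH : ∀ v, phi T x0 x0 x0 (hat u v) = 0 := by
    intro v
    rw [sum4]
    exact Finset.sum_eq_zero fun i _ => by
      have := hu i
      rw [lf_apply] at this
      rw [this, zero_mul]
  rw [phi_rT hT] at hp hp' hw hww
  exact ⟨hat u p, hat u w, hat u p', hH p, hH w, hH p', hp, hw, hww, hp'⟩

end Pool.Agent.Helper66.QL
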