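import Pool.Agent.Helper66.QL.Defs

/-!
# QL-14: STEP 2, lines of the second type, definitions and rules

`w` is a vector with `lam_i(w) = 0` for all `i`, `a, b, w, e1, e2` is a basis of `k^5`, `G_j = Gp T a b e_j = l(e_j) ∈ k[t]`, `P = G_2 e1 - G_1 e2`, `Q = w`, `Wr = G_2 G_1' - G_1 G_2'`.

PROOFS. `Gp_eq` is `l_eq` with `lam_cst` (`algebraMap k k[X] = C`). `dG`: differentiate `Gp_eq`, compare with `g_eq`; `ddG`: differentiate `g_eq`-form once more, compare with `m_eq`. `lPP`, `gPP`, `mPP`: `phi_sub4`, `phi_smul4`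
and `dG`, `ddG` (`derivative (Wr) = G_2 G_1'' - G_1 G_2''`). `lw'`, `gw`, `mw`: `l_eq`, `g_eq`, `m_eq`, `lam_cst`, `lw`. `toR`-versions: `phi_algebraMap T (R := k[X]) (S := RatFunc k)`,
`pt_map`, `cst_map` for `IsScalarTower.toAlgHom k k[X] (RatFunc k)` (`RatFunc.algebraMap_X`).
-/

set_option autoImplicit false

namespace Pool.Agent.Helper66.QL

open Pool.Agent.Helper72.QT Polynomial

variable {k : Type*} [Field k]

/-- the polynomial `l(e)` -/
noncomputable def Gp (T : Ten k 5) (a b e : Fin 5 → k) : k[X] :=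
  phi T (pt a b X) (pt a b X) (pt a b X) (cst k[X] e)

/-- the vector `G_2 e1 - G_1 e2` -/
noncomputable def PP (T : Ten k 5) (a b e1 e2 : Fin 5 → k) : Fin 5 → k[X] :=
  Gp T a b e2 • cst k[X] e1 - Gp T a b e1 • cst k[X] e2

/-- the Wronskian -/
noncomputable def Wr (T : Ten k 5) (a b e1 e2 : Fin 5 → k) : k[X] :=
  Gp T a b e2 * derivative (Gp T a b e1) - Gp T a b e1 * derivative (Gp T a b e2)

/-- the data of STEP 2 -/
structure Two (T : Ten k 5) (a b w e1 e2 : Fin 5 → k) : Prop where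
  line : Line T a b
  lw : ∀ i, lam T a b i w = 0
  ind : LinearIndependent k ![a, b, w, e1, e2]

variable {T : Ten k 5}

theorem Gp_eq (hT : SymT T) (a b e : Fin 5 → k) :
    Gp T a b e = C (lam T a b 0 e) + 3 * X * C (lam T a b 1 e) + 3 * X ^ 2 * C (lam T a b 2 e) +
      X ^ 3 * C (lam T a b 3 e) := by
  rw [Gp, l_eq hT, lam_cst, lam_cst, lam_cst, lam_cst]
  rfl

theorem natDegree_Gp (hT : SymT T) (a b e : Fin 5 → k) : (Gp T a b e).natDegree ≤ 3 := by
  rw [Gp_eq hT]
  compute_degree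

theorem coeff_Gp (hT : SymT T) (a b e : Fin 5 → k) : (Gp T a b e).coeff 3 = lam T a b 3 e := by
  have h : Gp T a b e = C (lam T a b 0 e) + C (3 * lam T a b 1 e) * X ^ 1 +
      C (3 * lam T a b 2 e) * X ^ 2 + C (lam T a b 3 e) * X ^ 3 := by
    rw [Gp_eq hT, C_mul, C_mul, show (C (3 : k) : k[X]) = 3 from rfl]
    ring
  rw [h]
  simp only [coeff_add, coeff_C_mul_X_pow, coeff_C]
  norm_num

theorem eval_Gp (a b e : Fin 5 → k) (t : k) :
    (Gp T a b e).eval t = phi T (a + t • b) (a + t • b) (a + t • b) e := by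
  have h := phi_map T (aeval t : k[X] →ₐ[k] k) (pt a b X) (pt a b X) (pt a b X) (cst k[X] e)
  rw [pt_map, cst_map, aeval_X] at h
  exact h.symm

theorem dG (hT : SymT T) (a b e : Fin 5 → k) :
    derivative (Gp T a b e) = 3 * phi T (pt a b X) (pt a b X) (cst k[X] b) (cst k[X] e) := by
  rw [Gp_eq hT, g_eq hT, lam_cst, lam_cst, lam_cst, algebraMap_eq]
  simp only [derivative_add, derivative_mul, derivative_C, derivative_X, derivative_X_pow,
    derivative_ofNat]
  have c2 : (C (2 : k) : k[X]) = 2 := rfl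
  have c3 : (C (3 : k) : k[X]) = 3 := rfl
  norm_num
  simp only [c2, c3]
  ring

theorem ddG (hT : SymT T) (a b e : Fin 5 → k) : derivative (derivative (Gp T a b e)) =
    6 * phi T (pt a b X) (cst k[X] b) (cst k[X] b) (cst k[X] e) := by
  rw [dG hT, g_eq hT, m_eq, lam_cst, lam_cst, lam_cst, algebraMap_eq]
  simp only [derivative_add, derivative_mul, derivative_C, derivative_X, derivative_X_pow,
    derivative_ofNat]
  have c2 : (C (2 : k) : k[X]) = 2 := rfl
  norm_num
  simp only [c2]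
  ring

theorem lPP (a b e1 e2 : Fin 5 → k) :
    phi T (pt a b X) (pt a b X) (pt a b X) (PP T a b e1 e2) = 0 := by
  rw [PP, phi_sub4, phi_smul4, phi_smul4]
  change Gp T a b e2 * Gp T a b e1 - Gp T a b e1 * Gp T a b e2 = 0
  ring

theorem gPP (hT : SymT T) (a b e1 e2 : Fin 5 → k) :
    3 * phi T (pt a b X) (pt a b X) (cst k[X] b) (PP T a b e1 e2) = Wr T a b e1 e2 := by
  rw [PP, phi_sub4, phi_smul4, phi_smul4, Wr, dG hT, dG hT]
  ring

theorem mPP (hT : SymT T) (a b e1 e2 : Fin 5 → k) :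
    6 * phi T (pt a b X) (cst k[X] b) (cst k[X] b) (PP T a b e1 e2) =
      derivative (Wr T a b e1 e2) := by
  rw [Wr, derivative_sub, derivative_mul, derivative_mul, ddG hT, ddG hT, PP, phi_sub4, phi_smul4,
    phi_smul4]
  ring

theorem lw' {R : Type*} [CommRing R] [Algebra k R] (hT : SymT T) {a b w : Fin 5 → k}
    (hw : ∀ i, lam T a b i w = 0) (t : R) :
    phi T (pt a b t) (pt a b t) (pt a b t) (cst R w) = 0 := by
  simp only [l_eq hT, lam_cst, hw, map_zero]
  ring

theorem gw' {R : Type*} [CommRing R] [Algebra k R] (hT : SymT T) {a b w : Fin 5 → k}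
    (hw : ∀ i, lam T a b i w = 0) (t : R) :
    phi T (pt a b t) (pt a b t) (cst R b) (cst R w) = 0 := by
  simp only [g_eq hT, lam_cst, hw, map_zero]
  ring

theorem mw' {R : Type*} [CommRing R] [Algebra k R] {a b w : Fin 5 → k}
    (hw : ∀ i, lam T a b i w = 0) (t : R) :
    phi T (pt a b t) (cst R b) (cst R b) (cst R w) = 0 := by
  simp only [m_eq, lam_cst, hw, map_zero]
  ring

/-- `l(P) = 0` over `k(t)` -/
theorem lPR (a b e1 e2 : Fin 5 → k) :
    phi T (xR a b) (xR a b) (xR a b) (toR (PP T a b e1 e2)) = 0 := by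
  have e : (fun i => algebraMap k[X] (RatFunc k) (pt a b X i)) = xR a b := by
    have h := pt_map (IsScalarTower.toAlgHom k k[X] (RatFunc k)) a b X
    have h2 : IsScalarTower.toAlgHom k k[X] (RatFunc k) X = RatFunc.X := RatFunc.algebraMap_X
    rw [h2] at h
    exact h
  have h := phi_algebraMap T (R := k[X]) (S := RatFunc k) (pt a b X) (pt a b X) (pt a b X)
    (PP T a b e1 e2)
  rw [lPP, map_zero, e] at h
  exact h

end Pool.Agent.Helper66.QL
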