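import Pool.Agent.Helper66.QL.ConePt
import Pool.Agent.Helper66.QL.Two

/-!
# QL-22: the line through the vertex of the cone is of the second type

All vectors `x0, p, w, p'` are in `H = ker (phi x0 x0 x0 ·)`, so by `cone_pol` every `phi` with one argument `x0` and the other three among them is `0`. `x = pt x0 p X = x0 + X p` over `k[X]`.
PROOF. `line`: `phi x0 x0 x0 p = 0`, `phi x0 x0 p p = 0`, `phi x0 p p p = 0`, `phi p p p p = 0`. `lw`: `phi x0 x0 x0 w = phi x0 x0 p w = phi x0 p p w = 0`, `phi p p p w = 0`.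
`ind`: let `α x0 + β p + γ w + δ p' + ε e = 0`. Apply `phi x0 x0 x0 ·`: `ε phi x0 x0 x0 e = 0`, `ε = 0`. Apply `phi p p p ·`: `phi p p p x0 = 0`, so `δ = 0`. Apply `phi p p w ·`: `phi p p w x0 = 0`, `phi p p w p = 0`, so `γ = 0`.
Apply `phi p p p' ·` to `α x0 + β p = 0`: `phi p p p' x0 = 0`, so `β phi p p p' p = 0`, `β = 0`; `α = 0`.
`Gp p'`: `l_eq` with `lam_0(p') = lam_1(p') = lam_2(p') = 0` (`cone_pol`, `phi_s34`...), `lam_3(p') = phi p p p p'`. `(Gp e).eval 0 = phi x0 x0 x0 e` (`eval_Gp`). The last two: expand `x = x0 + X p`, all terms with `x0` vanish.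
-/

set_option autoImplicit false

namespace Pool.Agent.Helper66.QL

open Pool.Agent.Helper72.QT Polynomial

variable {k : Type*} [Field k] {T : Ten k 5}

private theorem rot (hT : SymT T) (a b c d : Fin 5 → k) : phi T a b c d = phi T d a b c := by
  rw [phi_s34 hT, phi_s23 hT, phi_s12 hT]

theorem cone_two (h2 : (2 : k) ≠ 0) (h3 : (3 : k) ≠ 0) (hT : SymT T) (x0 : Fin 5 → k)
    (hx : x0 ≠ 0) (hf : phi T x0 x0 x0 x0 = 0)
    (hc : ∀ v, phi T x0 x0 x0 v = 0 → phi T x0 v v v = 0) (p w p' e : Fin 5 → k)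
    (lp : phi T x0 x0 x0 p = 0) (lw : phi T x0 x0 x0 w = 0) (lp' : phi T x0 x0 x0 p' = 0)
    (fp : phi T p p p p = 0) (pw : phi T p p p w = 0) (ww : phi T p p w w ≠ 0)
    (pp : phi T p p p p' ≠ 0) (he : phi T x0 x0 x0 e ≠ 0) :
    Two T x0 p w p' e ∧ Gp T x0 p p' = C (phi T p p p p') * X ^ 3 ∧
      (Gp T x0 p e).eval 0 = phi T x0 x0 x0 e ∧
      phi T (pt x0 p X) (pt x0 p X) (cst k[X] w) (cst k[X] w) = C (phi T p p w w) * X ^ 2 ∧
      phi T (pt x0 p X) (cst k[X] p) (cst k[X] w) (cst k[X] w) = C (phi T p p w w) * X := by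
  have pol := cone_pol h2 h3 hT x0 hc
  have q0pp : phi T x0 x0 p p = 0 := pol x0 p p hf lp lp
  have q0w : phi T x0 x0 p w = 0 := pol x0 p w hf lp lw
  have q0p' : phi T x0 x0 p p' = 0 := pol x0 p p' hf lp lp'
  have qppp : phi T x0 p p p = 0 := pol p p p lp lp lp
  have qppw : phi T x0 p p w = 0 := pol p p w lp lp lw
  have qppp' : phi T x0 p p p' = 0 := pol p p p' lp lp lp'
  have qww0 : phi T x0 x0 w w = 0 := pol x0 w w hf lw lw
  have qpww : phi T x0 p w w = 0 := pol p w w lp lw lw
  have hline : Line T x0 p := ⟨hf, lp, q0pp, qppp, fp⟩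
  refine ⟨⟨hline, ?_, ?_⟩, ?_, ?_, ?_, ?_⟩
  · intro i
    fin_cases i
    · exact lw
    · exact q0w
    · exact qppw
    · exact pw
  · rw [Fintype.linearIndependent_iff]
    intro g hg
    rw [Fin.sum_univ_five] at hg
    have hg' : g 0 • x0 + g 1 • p + g 2 • w + g 3 • p' + g 4 • e = 0 := hg
    have hA : ∀ a b c : Fin 5 → k, g 0 * phi T a b c x0 + g 1 * phi T a b c p + g 2 * phi T a b c w +
        g 3 * phi T a b c p' + g 4 * phi T a b c e = 0 := by
      intro a b c
      have h := congrArg (fun v => phi T a b c v) hg'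
      simp only [phi_add4, phi_smul4, phi_zero4] at h
      exact h
    have g4 : g 4 = 0 := by
      have h := hA x0 x0 x0
      rw [hf, lp, lw, lp', mul_zero, mul_zero, mul_zero, mul_zero, zero_add, zero_add, zero_add, zero_add] at h
      exact (mul_eq_zero.1 h).resolve_right he
    have g3 : g 3 = 0 := by
      have h := hA p p p
      rw [rot hT p p p x0, qppp, fp, pw, g4, mul_zero, mul_zero, mul_zero, zero_mul, zero_add, zero_add,
        zero_add, add_zero] at h
      exact (mul_eq_zero.1 h).resolve_right pp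
    have g2 : g 2 = 0 := by
      have h := hA p p w
      rw [rot hT p p w x0, qppw, phi_s34 hT p p w p, pw, g3, g4, mul_zero, mul_zero, zero_mul, zero_mul,
        zero_add, zero_add, add_zero, add_zero] at h
      exact (mul_eq_zero.1 h).resolve_right ww
    have g1 : g 1 = 0 := by
      have h := hA p p p'
      rw [rot hT p p p' x0, qppp', phi_s34 hT p p p' p, g2, g3, g4, mul_zero, zero_mul, zero_mul, zero_mul,
        zero_add, add_zero, add_zero, add_zero] at h
      exact (mul_eq_zero.1 h).resolve_right pp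
    have g0 : g 0 = 0 := by
      rw [g1, g2, g3, g4, zero_smul, zero_smul, zero_smul, zero_smul, add_zero, add_zero, add_zero,
        add_zero] at hg'
      exact (smul_eq_zero.1 hg').resolve_right hx
    intro i
    fin_cases i
    · exact g0
    · exact g1
    · exact g2
    · exact g3
    · exact g4
  · rw [Gp_eq hT]
    have l0 : lam T x0 p 0 p' = 0 := lp'
    have l1 : lam T x0 p 1 p' = 0 := q0p'
    have l2 : lam T x0 p 2 p' = 0 := qppp'
    have l3 : lam T x0 p 3 p' = phi T p p p p' := rfl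
    rw [l0, l1, l2, l3, C_0]
    ring
  · rw [eval_Gp, zero_smul, add_zero]
  · have e1 : phi T (cst k[X] x0) (cst k[X] x0) (cst k[X] w) (cst k[X] w) = 0 := by
      rw [phi_cst, qww0, map_zero]
    have e2 : phi T (cst k[X] x0) (cst k[X] p) (cst k[X] w) (cst k[X] w) = 0 := by
      rw [phi_cst, qpww, map_zero]
    have e3 : phi T (cst k[X] p) (cst k[X] x0) (cst k[X] w) (cst k[X] w) = 0 := by
      rw [phi_s12 hT, e2]
    have e4 : phi T (cst k[X] p) (cst k[X] p) (cst k[X] w) (cst k[X] w) = C (phi T p p w w) := by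
      rw [phi_cst]
      rfl
    simp only [pt, phi_add1, phi_add2, phi_smul1, phi_smul2, e1, e2, e3, e4]
    ring
  · have e2 : phi T (cst k[X] x0) (cst k[X] p) (cst k[X] w) (cst k[X] w) = 0 := by
      rw [phi_cst, qpww, map_zero]
    have e4 : phi T (cst k[X] p) (cst k[X] p) (cst k[X] w) (cst k[X] w) = C (phi T p p w w) := by
      rw [phi_cst]
      rfl
    simp only [pt, phi_add1, phi_smul1, e2, e4]
    ring

end Pool.Agent.Helper66.QL
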