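import Pool.Agent.Helper72.QT.Pencil
import Pool.Agent.Helper72.QT.Ratio

/-!
# Project QL (MP_1a304d_ag): rational surfaces in quartic threefolds which contain a line, definitions

On top of project QT (`phi`, `InW`, `resid`, `stereo`). `a`, `b` span a line on the quartic, `x = a + t b`.
-/

set_option autoImplicit false

namespace Pool.Agent.Helper66.QL

open Pool.Agent.Helper72.QT Polynomial

variable {k : Type*} [Field k] {N : ℕ}

/-- the line through `a` and `b` lies on the quartic -/
structure Line (T : Ten k N) (a b : Fin N → k) : Prop where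
  e0 : phi T a a a a = 0
  e1 : phi T a a a b = 0
  e2 : phi T a a b b = 0
  e3 : phi T a b b b = 0
  e4 : phi T b b b b = 0

/-- a vector with coordinates in `k` over the algebra `R` -/
def cst (R : Type*) [CommRing R] [Algebra k R] (a : Fin N → k) : Fin N → R :=
  fun i => algebraMap k R (a i)

/-- the point `a + t b` over the algebra `R` -/
def pt {R : Type*} [CommRing R] [Algebra k R] (a b : Fin N → k) (t : R) : Fin N → R :=
  cst R a + t • cst R b

/-- the value of the linear form with the coefficients `d` -/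
def dot {R : Type*} [CommRing R] [Algebra k R] (d : Fin N → k) (w : Fin N → R) : R :=
  ∑ j, algebraMap k R (d j) * w j

/-- the linear forms `phi a a a u`, `phi a a b u`, `phi a b b u`, `phi b b b u` -/
def lam {R : Type*} [CommRing R] [Algebra k R] (T : Ten k N) (a b : Fin N → k) (i : Fin 4)
    (u : Fin N → R) : R :=
  ![phi T (cst R a) (cst R a) (cst R a) u, phi T (cst R a) (cst R a) (cst R b) u,
    phi T (cst R a) (cst R b) (cst R b) u, phi T (cst R b) (cst R b) (cst R b) u] i

/-- the point `a + t b` over `k(t)` -/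
noncomputable abbrev xR (a b : Fin N → k) : Fin N → RatFunc k := pt a b RatFunc.X

/-- the point `a + t b` over `k(t)(s)` -/
noncomputable abbrev xK (a b : Fin N → k) : Fin N → KK k := pt a b (tt k)

/-- the vector `P + s Q` -/
noncomputable def uu (P Q : Fin 5 → RatFunc k) : Fin 5 → KK k := toK P + ss k • toK Q

/-- the isotropic vector `v = h(u) b - 2 g(u) u` -/
noncomputable def vv (T : Ten k 5) (a b : Fin 5 → k) (P Q : Fin 5 → RatFunc k) : Fin 5 → KK k :=
  stereo T (xK a b) (cst (KK k) b) (uu P Q)

/-- `Om = 3 h² m - 6 h g phi(x b u u) + 4 g² phi(x u u u)` -/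
def Om {R : Type*} [CommRing R] [Algebra k R] (T : Ten k N) (x b u : Fin N → R) : R :=
  3 * phi T x x u u ^ 2 * phi T x b b u - 6 * phi T x x u u * phi T x x b u * phi T x b u u +
    4 * phi T x x b u ^ 2 * phi T x u u u

section basic

variable {R S : Type*} [CommRing R] [Algebra k R] [CommRing S] [Algebra k S]

theorem cst_self (a : Fin N → k) : cst k a = a := rfl

theorem cst_map (g : R →ₐ[k] S) (a : Fin N → k) : (fun i => g (cst R a i)) = cst S a := by
  funext i
  exact g.commutes _

theorem pt_map (g : R →ₐ[k] S) (a b : Fin N → k) (t : R) :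
    (fun i => g (pt a b t i)) = pt a b (g t) := by
  funext i
  simp only [pt, cst, Pi.add_apply, Pi.smul_apply, smul_eq_mul, map_add, map_mul]
  rw [g.commutes, g.commutes]

theorem phi_cst (T : Ten k N) (x y z w : Fin N → k) :
    phi T (cst R x) (cst R y) (cst R z) (cst R w) = algebraMap k R (phi T x y z w) :=
  phi_algebraMap T (R := k) (S := R) x y z w

theorem dot_add (d : Fin N → k) (u w : Fin N → R) : dot d (u + w) = dot d u + dot d w := by
  simp only [dot, Pi.add_apply, mul_add, Finset.sum_add_distrib]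

theorem dot_smul (d : Fin N → k) (c : R) (w : Fin N → R) : dot d (c • w) = c * dot d w := by
  simp only [dot, Pi.smul_apply, smul_eq_mul, Finset.mul_sum]
  refine Finset.sum_congr rfl fun j _ => ?_
  ring

theorem dot_cst (d w : Fin N → k) : dot d (cst R w) = algebraMap k R (dot d w) := by
  simp only [dot, cst, map_sum, map_mul, Algebra.algebraMap_self, RingHom.id_apply]

theorem dot_map (g : R →ₐ[k] S) (d : Fin N → k) (w : Fin N → R) :
    dot d (fun i => g (w i)) = g (dot d w) := by
  simp only [dot, map_sum, map_mul]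
  refine Finset.sum_congr rfl fun j _ => ?_
  rw [g.commutes]

/-- `l = lam_0 + 3 t lam_1 + 3 t² lam_2 + t³ lam_3` -/
theorem l_eq {T : Ten k N} (hT : SymT T) (a b : Fin N → k) (t : R) (u : Fin N → R) :
    phi T (pt a b t) (pt a b t) (pt a b t) u =
      lam T a b 0 u + 3 * t * lam T a b 1 u + 3 * t ^ 2 * lam T a b 2 u + t ^ 3 * lam T a b 3 u := by
  simp only [pt, phi_add1, phi_add2, phi_add3, phi_smul1, phi_smul2, phi_smul3]
  have e1 : phi T (cst R a) (cst R b) (cst R a) u = phi T (cst R a) (cst R a) (cst R b) u :=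
    phi_s23 hT _ _ _ _
  have e2 : phi T (cst R b) (cst R a) (cst R a) u = phi T (cst R a) (cst R a) (cst R b) u := by
    rw [phi_s12 hT, e1]
  have e3 : phi T (cst R b) (cst R a) (cst R b) u = phi T (cst R a) (cst R b) (cst R b) u :=
    phi_s12 hT _ _ _ _
  have e4 : phi T (cst R b) (cst R b) (cst R a) u = phi T (cst R a) (cst R b) (cst R b) u := by
    rw [phi_s23 hT, e3]
  rw [e1, e2, e3, e4]
  show _ = phi T (cst R a) (cst R a) (cst R a) u + 3 * t * phi T (cst R a) (cst R a) (cst R b) u +
    3 * t ^ 2 * phi T (cst R a) (cst R b) (cst R b) u + t ^ 3 * phi T (cst R b) (cst R b) (cst R b) u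
  ring

/-- `g = lam_1 + 2 t lam_2 + t² lam_3` -/
theorem g_eq {T : Ten k N} (hT : SymT T) (a b : Fin N → k) (t : R) (u : Fin N → R) :
    phi T (pt a b t) (pt a b t) (cst R b) u =
      lam T a b 1 u + 2 * t * lam T a b 2 u + t ^ 2 * lam T a b 3 u := by
  simp only [pt, phi_add1, phi_add2, phi_smul1, phi_smul2]
  have e3 : phi T (cst R b) (cst R a) (cst R b) u = phi T (cst R a) (cst R b) (cst R b) u :=
    phi_s12 hT _ _ _ _
  rw [e3]
  show _ = phi T (cst R a) (cst R a) (cst R b) u + 2 * t * phi T (cst R a) (cst R b) (cst R b) u +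
    t ^ 2 * phi T (cst R b) (cst R b) (cst R b) u
  ring

/-- `m = lam_2 + t lam_3` -/
theorem m_eq {T : Ten k N} (a b : Fin N → k) (t : R) (u : Fin N → R) :
    phi T (pt a b t) (cst R b) (cst R b) u = lam T a b 2 u + t * lam T a b 3 u := by
  simp only [pt, phi_add1, phi_smul1]
  rfl

theorem lam_add (T : Ten k N) (a b : Fin N → k) (i : Fin 4) (u w : Fin N → R) :
    lam T a b i (u + w) = lam T a b i u + lam T a b i w := by
  fin_cases i <;> exact phi_add4 T _ _ _ _ _

theorem lam_smul (T : Ten k N) (a b : Fin N → k) (i : Fin 4) (c : R) (u : Fin N → R) :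
    lam T a b i (c • u) = c * lam T a b i u := by
  fin_cases i <;> exact phi_smul4 T _ _ _ _ _

theorem lam_cst (T : Ten k N) (a b : Fin N → k) (i : Fin 4) (u : Fin N → k) :
    lam T a b i (cst R u) = algebraMap k R (lam T a b i u) := by
  fin_cases i <;> exact phi_cst T _ _ _ _

theorem lam_map (g : R →ₐ[k] S) (T : Ten k N) (a b : Fin N → k) (i : Fin 4) (u : Fin N → R) :
    lam T a b i (fun j => g (u j)) = g (lam T a b i u) := by
  fin_cases i
  · show phi T (cst S a) (cst S a) (cst S a) _ = g (phi T (cst R a) (cst R a) (cst R a) u)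
    rw [← phi_map, cst_map]
  · show phi T (cst S a) (cst S a) (cst S b) _ = g (phi T (cst R a) (cst R a) (cst R b) u)
    rw [← phi_map, cst_map, cst_map]
  · show phi T (cst S a) (cst S b) (cst S b) _ = g (phi T (cst R a) (cst R b) (cst R b) u)
    rw [← phi_map, cst_map, cst_map]
  · show phi T (cst S b) (cst S b) (cst S b) _ = g (phi T (cst R b) (cst R b) (cst R b) u)
    rw [← phi_map, cst_map]

/-- the forms `lam_i` vanish on the line -/
theorem lam_a {T : Ten k N} (hT : SymT T) {a b : Fin N → k} (hL : Line T a b) (i : Fin 4) :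
    lam T a b i (cst R a) = 0 := by
  rw [lam_cst]
  have h : lam T a b i a = 0 := by
    fin_cases i
    · exact hL.e0
    · show phi T a a b a = 0
      rw [phi_s34 hT, hL.e1]
    · show phi T a b b a = 0
      rw [phi_s34 hT, phi_s23 hT, hL.e2]
    · show phi T b b b a = 0
      rw [phi_s34 hT, phi_s23 hT, phi_s12 hT, hL.e3]
  rw [h, map_zero]

theorem lam_b {T : Ten k N} {a b : Fin N → k} (hL : Line T a b) (i : Fin 4) :
    lam T a b i (cst R b) = 0 := by
  rw [lam_cst]
  have h : lam T a b i b = 0 := by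
    fin_cases i
    · exact hL.e1
    · exact hL.e2
    · exact hL.e3
    · exact hL.e4
  rw [h, map_zero]

/-- `c_x(v) = - 2 g(u) Om(u)` for `v = h(u) b - 2 g(u) u` -/
theorem c_eq {T : Ten k N} (hT : SymT T) (x b u : Fin N → R) (h : phi T x b b b = 0) :
    phi T x (stereo T x b u) (stereo T x b u) (stereo T x b u) =
      -(2 * phi T x x b u * Om T x b u) := by
  have e1 : phi T x b u b = phi T x b b u := phi_s34 hT _ _ _ _
  have e2 : phi T x u b b = phi T x b b u := by rw [phi_s23 hT, e1]
  have e3 : phi T x u b u = phi T x b u u := phi_s23 hT _ _ _ _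
  have e4 : phi T x u u b = phi T x b u u := by rw [phi_s34 hT, e3]
  simp only [stereo, phi_sub2, phi_sub3, phi_sub4, phi_smul2, phi_smul3, phi_smul4, h, e1, e2, e3,
    e4, Om]
  ring

end basic

/-- coordinates over `k(t)` as elements of `k(t)(s)` -/
noncomputable def jR (k : Type*) [Field k] : RatFunc k →ₐ[k] KK k :=
  IsScalarTower.toAlgHom k (RatFunc k) (KK k)

theorem toK_eq (x : Fin 5 → RatFunc k) : toK x = fun i => jR k (x i) := rfl

theorem jR_X : jR k RatFunc.X = tt k := rfl

theorem toK_pt (a b : Fin 5 → k) : toK (xR a b) = xK a b := by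
  rw [toK_eq, pt_map, jR_X]

theorem toK_cst (a : Fin 5 → k) : toK (cst (RatFunc k) a) = cst (KK k) a := by
  rw [toK_eq, cst_map]

/-- the point on the line and the vector `v` have contact at least three -/
theorem inW_vv {T : Ten k 5} (hT : SymT T) {a b : Fin 5 → k} (hL : Line T a b)
    {P Q : Fin 5 → RatFunc k} (hP : phi T (xR a b) (xR a b) (xR a b) P = 0)
    (hQ : phi T (xR a b) (xR a b) (xR a b) Q = 0) : InW T (xK a b) (vv T a b P Q) := by
  have hb : phi T (xK a b) (xK a b) (xK a b) (cst (KK k) b) = 0 := by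
    rw [l_eq hT, lam_b hL, lam_b hL, lam_b hL, lam_b hL]
    ring
  have ha : phi T (xK a b) (xK a b) (xK a b) (cst (KK k) a) = 0 := by
    rw [l_eq hT, lam_a hT hL, lam_a hT hL, lam_a hT hL, lam_a hT hL]
    ring
  have hbb : phi T (xK a b) (xK a b) (cst (KK k) b) (cst (KK k) b) = 0 := by
    rw [g_eq hT, lam_b hL, lam_b hL, lam_b hL]
    ring
  have cast : ∀ P : Fin 5 → RatFunc k, phi T (xK a b) (xK a b) (xK a b) (toK P) =
      jR k (phi T (xR a b) (xR a b) (xR a b) P) := by
    intro P
    rw [← toK_pt, toK_eq, toK_eq, phi_map]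
  have hu : phi T (xK a b) (xK a b) (xK a b) (uu P Q) = 0 := by
    rw [uu, phi_add4, phi_smul4, cast, cast, hP, hQ, map_zero]
    ring
  refine ⟨?_, stereo_l hb hu, stereo_q hT hbb⟩
  nth_rewrite 4 [xK]
  rw [pt, phi_add4, phi_smul4, ha, hb]
  ring

theorem phi_toK (T : Ten k 5) (x y z w : Fin 5 → RatFunc k) :
    phi T (toK x) (toK y) (toK z) (toK w) = jR k (phi T x y z w) := by
  simp only [toK_eq]
  rw [phi_map]

theorem dot_toK (d : Fin 5 → k) (w : Fin 5 → RatFunc k) : dot d (toK w) = jR k (dot d w) := by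
  rw [toK_eq, dot_map]

theorem lam_toK (T : Ten k 5) (a b : Fin 5 → k) (i : Fin 4) (w : Fin 5 → RatFunc k) :
    lam T a b i (toK w) = jR k (lam T a b i w) := by
  rw [toK_eq, lam_map]

/-- `lam_i` as a linear form with coefficients in `k` -/
theorem lam_eq_dot {R : Type*} [CommRing R] [Algebra k R] (T : Ten k N) (a b : Fin N → k)
    (i : Fin 4) (w : Fin N → R) :
    lam T a b i w = dot (fun j => lam T a b i (Pi.single j (1 : k))) w := by
  have h : ∀ j : Fin N, (Pi.single j (1 : R) : Fin N → R) = cst R (Pi.single j (1 : k)) := by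
    intro j
    funext l
    simp only [cst, Pi.single_apply]
    split_ifs
    · exact (map_one _).symm
    · exact (map_zero _).symm
  have h1 : ∀ x y z : Fin N → k, phi T (cst R x) (cst R y) (cst R z) w =
      ∑ j, algebraMap k R (phi T x y z (Pi.single j 1)) * w j := by
    intro x y z
    rw [phi_eq_sum]
    refine Finset.sum_congr rfl fun j _ => ?_
    rw [h, phi_cst]
  fin_cases i
  · exact h1 a a a
  · exact h1 a a b
  · exact h1 a b b
  · exact h1 b b b

/-- a polynomial expression in `s` over `k(t)` vanishes only if its coefficients vanish -/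
theorem s_poly (n : ℕ) (c : ℕ → RatFunc k)
    (h : ∑ i ∈ Finset.range n, jR k (c i) * ss k ^ i = 0) : ∀ i < n, c i = 0 := by
  have h1 : algebraMap (RatFunc k)[X] (KK k) (∑ i ∈ Finset.range n, C (c i) * X ^ i) = 0 := by
    rw [map_sum, ← h]
    refine Finset.sum_congr rfl fun i _ => ?_
    rw [map_mul, map_pow, RatFunc.algebraMap_X, RatFunc.algebraMap_C]
    rfl
  have h2 := (map_eq_zero_iff _ (RatFunc.algebraMap_injective (RatFunc k))).1 h1
  intro i hi
  have h3 := congrArg (fun p => coeff p i) h2
  simp only [finsetSum_coeff, coeff_C_mul_X_pow, coeff_zero] at h3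
  rw [Finset.sum_eq_single i] at h3
  · simpa using h3
  · intro j _ hj
    rw [if_neg (Ne.symm hj)]
  · intro hj
    exact absurd (Finset.mem_range.2 hi) hj

/-- polynomials in `t` and `s` (outer variable `s`) as elements of `k(t)(s)` -/
noncomputable def iota (k : Type*) [Field k] : k[X][X] →ₐ[k] KK k :=
  (IsScalarTower.toAlgHom k (RatFunc k)[X] (KK k)).comp
    (Polynomial.mapAlgHom (IsScalarTower.toAlgHom k k[X] (RatFunc k)))

theorem iota_C (p : k[X]) : iota k (C p) = jR k (algebraMap k[X] (RatFunc k) p) := by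
  show algebraMap (RatFunc k)[X] (KK k) (Polynomial.map (algebraMap k[X] (RatFunc k)) (C p)) = _
  rw [Polynomial.map_C, RatFunc.algebraMap_C]
  rfl

theorem iota_X : iota k X = ss k := by
  show algebraMap (RatFunc k)[X] (KK k) (Polynomial.map (algebraMap k[X] (RatFunc k)) X) = _
  rw [Polynomial.map_X, RatFunc.algebraMap_X]
  rfl

theorem iota_CX : iota k (C X) = tt k := by
  rw [iota_C, RatFunc.algebraMap_X, jR_X]

theorem iota_injective : Function.Injective (iota k) := by
  show Function.Injective (algebraMap (RatFunc k)[X] (KK k) ∘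
    Polynomial.map (algebraMap k[X] (RatFunc k)))
  exact (RatFunc.algebraMap_injective _).comp
    (Polynomial.map_injective _ (RatFunc.algebraMap_injective k))

end Pool.Agent.Helper66.QL
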