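import Mathlib

/-!
# QL-01: intermediate fields in an extension of degree at most three

PROOF. `K` is generated over `L` by `t` (`htop`), which is a root of a nonzero polynomial of degree at most `3`, so `Module.finrank L K = natDegree (minpoly L t) ≤ 3`
(`IntermediateField.adjoin.finrank`, `minpoly.natDegree_le_of_ne_zero` or `minpoly.min`; `(L⟮t⟯ : IntermediateField L K) = ⊤`: restrict scalars to `k` and use `htop`).
With `E' = IntermediateField.extendScalars hLE : IntermediateField L K`: `finrank L E' * finrank E' K = finrank L K ∈ {1, 2, 3}`, so one factor is `1`, `E' = ⊥` or `E' = ⊤`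
(`IntermediateField.finrank_eq_one_iff`, `IntermediateField.finrank_eq_one_iff_eq_top`).
-/

set_option autoImplicit false

namespace Pool.Agent.Helper66.QL

open Polynomial

theorem eq_or_eq {k K : Type*} [Field k] [Field K] [Algebra k K] (L E : IntermediateField k K)
    (hLE : L ≤ E) (t : K) (p : L[X]) (hp : p ≠ 0) (hd : p.natDegree ≤ 3) (ht : aeval t p = 0)
    (htop : ∀ M : IntermediateField k K, L ≤ M → t ∈ M → M = ⊤) : E = L ∨ E = ⊤ := by
  have hint : IsIntegral L t := isAlgebraic_iff_isIntegral.1 ⟨p, hp, ht⟩
  have htop' : IntermediateField.adjoin L {t} = ⊤ := by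
    have h1 : (IntermediateField.adjoin L {t}).restrictScalars k = ⊤ := by
      apply htop
      · intro x hx
        exact (IntermediateField.adjoin L {t}).algebraMap_mem (⟨x, hx⟩ : L)
      · exact IntermediateField.mem_adjoin_simple_self L t
    rw [eq_top_iff]
    intro x _
    have hx : x ∈ (IntermediateField.adjoin L {t}).restrictScalars k := by
      rw [h1]
      trivial
    exact hx
  have hfr : Module.finrank L K = (minpoly L t).natDegree := by
    rw [← IntermediateField.adjoin.finrank hint, htop', IntermediateField.finrank_top']
  have hle : (minpoly L t).natDegree ≤ 3 :=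
    (Polynomial.natDegree_le_of_dvd (minpoly.dvd L t ht) hp).trans hd
  have hpos : 0 < (minpoly L t).natDegree := minpoly.natDegree_pos hint
  have hmul := Module.finrank_mul_finrank L (IntermediateField.extendScalars hLE) K
  rw [hfr] at hmul
  have hcase : Module.finrank L (IntermediateField.extendScalars hLE) = 1 ∨
      Module.finrank (IntermediateField.extendScalars hLE) K = 1 := by
    generalize Module.finrank L (IntermediateField.extendScalars hLE) = a at *
    generalize Module.finrank (IntermediateField.extendScalars hLE) K = b at *
    by_contra hc
    push Not at hc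
    rcases Nat.eq_zero_or_pos a with ha | ha
    · subst ha
      omega
    rcases Nat.eq_zero_or_pos b with hb | hb
    · subst hb
      omega
    have ha2 : 2 ≤ a := by omega
    have hb2 : 2 ≤ b := by omega
    nlinarith
  rcases hcase with h | h
  · left
    have h2 := IntermediateField.finrank_eq_one_iff.1 h
    apply le_antisymm _ hLE
    intro x hx
    have hx' : x ∈ IntermediateField.extendScalars hLE := hx
    rw [h2, IntermediateField.mem_bot] at hx'
    obtain ⟨y, hy⟩ := hx'
    rw [← hy]
    exact y.2
  · right
    have h2 := IntermediateField.finrank_eq_one_iff_eq_top.1 h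
    rw [eq_top_iff]
    intro x _
    have hx : x ∈ IntermediateField.extendScalars hLE := by
      rw [h2]
      trivial
    exact hx

end Pool.Agent.Helper66.QL
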