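import Pool.Agent.Helper66.QL.FixPt

/-!
# QL-25: a line on a deformation, over power series

PROOF. `R = PowerSeries k`, `T = PowerSeries.X`. For `Z : Fin 5 → R` let `a(Z) = ![1, 0, Z 0, Z 3, 0]`, `b(Z) = ![0, 1, Z 1, Z 4, Z 2]` and `N_G(Z) = aeval (fun l => C (a l) + X * C (b l)) G ∈ R[X]`. Direct computation:
`N_{F1} = (Z 0 + X Z 1) 1³ + (Z 3 + X Z 4) X³ + (0 + X Z 2) 1² X = C (Z 0) + X C (Z 1) + X² C (Z 2) + X³ C (Z 3) + X⁴ C (Z 4)`. `F` is homogeneous of degree 4, so `N_F` has degree at most `4` (`IsHomogeneous`: `natDegree` of `aeval` of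
degree-one polynomials; for instance `MvPolynomial.aeval_natDegree_le`, `totalDegree`). Let `Ψ Z i = - (N_F(Z)).coeff i`, `i : Fin 5`. Congruence: if `Z ≡ Z'` modulo `T^n` then `N_F(Z) ≡ N_F(Z')` coefficientwise: apply the ring homomorphism
`R → R/(T^n)` to the coefficients (`Polynomial.mapRingHom`, `Ideal.Quotient.mk`, `MvPolynomial.aeval`/`map_aeval`), or: `C (T^n)` divides the difference of the values of `F` at congruent arguments
(`MvPolynomial` induction). `fix` gives `Z` with `Z i = - T (N_F(Z)).coeff i`; so all coefficients of `N_{F1} + C T * N_F` vanish.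
-/

set_option autoImplicit false

namespace Pool.Agent.Helper66.QL

open Polynomial

variable {k : Type*} [Field k]

/-- a quartic form which contains the line `x2 = x3 = x4 = 0` as a smooth point of its Fano scheme -/
noncomputable def F1 (k : Type*) [Field k] : MvPolynomial (Fin 5) k :=
  MvPolynomial.X 2 * MvPolynomial.X 0 ^ 3 + MvPolynomial.X 3 * MvPolynomial.X 1 ^ 3 +
    MvPolynomial.X 4 * MvPolynomial.X 0 ^ 2 * MvPolynomial.X 1

private noncomputable def lnA (Z : Fin 5 → PowerSeries k) : Fin 5 → PowerSeries k :=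
  ![1, 0, Z 0, Z 3, 0]

private noncomputable def lnB (Z : Fin 5 → PowerSeries k) : Fin 5 → PowerSeries k :=
  ![0, 1, Z 1, Z 4, Z 2]

private noncomputable def lnN (G : MvPolynomial (Fin 5) k) (Z : Fin 5 → PowerSeries k) :
    (PowerSeries k)[X] :=
  MvPolynomial.aeval (fun l => (C (lnA Z l) + X * C (lnB Z l) : (PowerSeries k)[X])) G

private theorem lnLin_dvd (t : PowerSeries k) (Z Z' : Fin 5 → PowerSeries k)
    (h : ∀ i, t ∣ Z i - Z' i) (l : Fin 5) :
    (C t : (PowerSeries k)[X]) ∣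
      (C (lnA Z l) + X * C (lnB Z l)) - (C (lnA Z' l) + X * C (lnB Z' l)) := by
  have h1 : (C (lnA Z l) + X * C (lnB Z l)) - (C (lnA Z' l) + X * C (lnB Z' l)) =
      (C (lnA Z l - lnA Z' l) + X * C (lnB Z l - lnB Z' l) : (PowerSeries k)[X]) := by
    rw [C_sub, C_sub]
    ring
  rw [h1]
  have h2 : t ∣ lnA Z l - lnA Z' l := by
    fin_cases l <;> simp [lnA, h]
  have h3 : t ∣ lnB Z l - lnB Z' l := by
    fin_cases l <;> simp [lnB, h]
  exact dvd_add (map_dvd C h2) (Dvd.dvd.mul_left (map_dvd C h3) _)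

private theorem lnN_dvd (t : PowerSeries k) (Z Z' : Fin 5 → PowerSeries k)
    (h : ∀ i, t ∣ Z i - Z' i) (G : MvPolynomial (Fin 5) k) :
    (C t : (PowerSeries k)[X]) ∣ lnN G Z - lnN G Z' := by
  induction G using MvPolynomial.induction_on with
  | C c => simp [lnN]
  | add p q hp hq =>
    have : lnN (p + q) Z - lnN (p + q) Z' = (lnN p Z - lnN p Z') + (lnN q Z - lnN q Z') := by
      simp only [lnN, map_add]
      ring
    rw [this]
    exact dvd_add hp hq
  | mul_X p l hp =>
    have : lnN (p * MvPolynomial.X l) Z - lnN (p * MvPolynomial.X l) Z' =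
        (lnN p Z - lnN p Z') * (C (lnA Z l) + X * C (lnB Z l)) +
          lnN p Z' * ((C (lnA Z l) + X * C (lnB Z l)) - (C (lnA Z' l) + X * C (lnB Z' l))) := by
      simp only [lnN, map_mul, MvPolynomial.aeval_X]
      ring
    rw [this]
    exact dvd_add (Dvd.dvd.mul_right hp _) (Dvd.dvd.mul_left (lnLin_dvd t Z Z' h l) _)

private theorem lnN_F1 (Z : Fin 5 → PowerSeries k) :
    lnN (F1 k) Z = C (Z 0) + X * C (Z 1) + X ^ 2 * C (Z 2) + X ^ 3 * C (Z 3) + X ^ 4 * C (Z 4) := by
  simp only [lnN, F1, map_add, map_mul, map_pow, MvPolynomial.aeval_X]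
  have h0 : (C (lnA Z 0) + X * C (lnB Z 0) : (PowerSeries k)[X]) = 1 := by simp [lnA, lnB]
  have h1 : (C (lnA Z 1) + X * C (lnB Z 1) : (PowerSeries k)[X]) = X := by simp [lnA, lnB]
  have h2 : (C (lnA Z 2) + X * C (lnB Z 2) : (PowerSeries k)[X]) = C (Z 0) + X * C (Z 1) := by
    simp [lnA, lnB]
  have h3 : (C (lnA Z 3) + X * C (lnB Z 3) : (PowerSeries k)[X]) = C (Z 3) + X * C (Z 4) := by
    simp [lnA, lnB]
  have h4 : (C (lnA Z 4) + X * C (lnB Z 4) : (PowerSeries k)[X]) = X * C (Z 2) := by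
    simp [lnA, lnB]
  rw [h0, h1, h2, h3, h4]
  ring

private theorem lnN_deg (F : MvPolynomial (Fin 5) k) (hF : F.IsHomogeneous 4)
    (Z : Fin 5 → PowerSeries k) : (lnN F Z).natDegree ≤ 4 := by
  have h1 : lnN F Z = MvPolynomial.aeval
      (fun l => (C (lnA Z l) + X * C (lnB Z l) : (PowerSeries k)[X]))
      (MvPolynomial.map (algebraMap k (PowerSeries k)) F) := by
    rw [MvPolynomial.aeval_map_algebraMap]
    rfl
  rw [h1]
  refine (MvPolynomial.aeval_natDegree_le (m := 4) (n := 1) _ ?_ _ ?_).trans (by norm_num)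
  · exact (hF.map _).totalDegree_le
  · intro l
    refine (natDegree_add_le _ _).trans (max_le ?_ ?_)
    · rw [natDegree_C]
      exact Nat.zero_le _
    · refine natDegree_mul_le.trans ?_
      rw [natDegree_C, add_zero]
      exact natDegree_X_le

theorem fix_line (F : MvPolynomial (Fin 5) k) (hF : F.IsHomogeneous 4) :
    ∃ a b : Fin 5 → PowerSeries k, a 0 = 1 ∧ a 1 = 0 ∧ b 0 = 0 ∧ b 1 = 1 ∧
      MvPolynomial.aeval (fun l => (C (a l) + X * C (b l) : (PowerSeries k)[X])) (F1 k) +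
        C PowerSeries.X *
          MvPolynomial.aeval (fun l => (C (a l) + X * C (b l) : (PowerSeries k)[X])) F = 0 := by
  obtain ⟨Z, hZ⟩ := fix (fun Z i => - (lnN F Z).coeff i) (by
    intro n Z Z' h i
    have h1 := (C_dvd_iff_dvd_coeff _ _).1 (lnN_dvd _ Z Z' h F) i
    have h2 : - (lnN F Z).coeff i - - (lnN F Z').coeff i = - (lnN F Z - lnN F Z').coeff i := by
      rw [coeff_sub]
      ring
    rw [h2]
    exact (dvd_neg).2 h1)
  refine ⟨lnA Z, lnB Z, rfl, rfl, rfl, rfl, ?_⟩
  change lnN (F1 k) Z + C PowerSeries.X * lnN F Z = 0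
  rw [lnN_F1]
  ext1 n
  simp only [coeff_add, coeff_C_mul, coeff_zero]
  have hX : ∀ (j : ℕ) (r : PowerSeries k), (X ^ j * C r : (PowerSeries k)[X]).coeff n =
      if n = j then r else 0 := by
    intro j r
    rw [mul_comm, coeff_C_mul_X_pow]
  have hX1 : ∀ (r : PowerSeries k), (X * C r : (PowerSeries k)[X]).coeff n =
      if n = 1 then r else 0 := by
    intro r
    have := hX 1 r
    rwa [pow_one] at this
  rw [hX 2, hX 3, hX 4, hX1, coeff_C]
  by_cases hn : 4 < n
  · rw [coeff_eq_zero_of_natDegree_lt (lt_of_le_of_lt (lnN_deg F hF Z) hn)]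
    rw [if_neg (by omega), if_neg (by omega), if_neg (by omega), if_neg (by omega), if_neg (by omega)]
    simp
  · have hn' : n = 0 ∨ n = 1 ∨ n = 2 ∨ n = 3 ∨ n = 4 := by omega
    rcases hn' with rfl | rfl | rfl | rfl | rfl
    · have := hZ 0
      simp only [Fin.val_zero] at this
      simp [this]
    · have := hZ 1
      simp only [Fin.val_one] at this
      simp [this]
    · have := hZ 2
      simp only [Fin.val_two] at this
      simp [this]
    · have := hZ 3
      simp only [show ((3 : Fin 5) : ℕ) = 3 from rfl] at this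
      simp [this]
    · have := hZ 4
      simp only [show ((4 : Fin 5) : ℕ) = 4 from rfl] at this
      simp [this]

end Pool.Agent.Helper66.QL
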