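import Mathlib

/-!
# QL-24: a fixed point equation over power series

PROOF. `Z_0 = 0`, `Z_{m+1} i = X * Ψ Z_m i`. By induction `X^(m+1) ∣ Z_{m+1} i - Z_m i` for all `i` (for `m = 0` clear; `X * (Ψ Z_{m+1} i - Ψ Z_m i)` is divisible by `X * X^(m+1)` by `h`), so
`X^(m+1) ∣ Z_{m'} i - Z_m i` for `m' ≥ m`. Let `Z i = PowerSeries.mk (fun n => coeff n (Z_(n+1) i))`; then `X^(m+1) ∣ Z i - Z_{m+1} i` (`PowerSeries.X_pow_dvd_iff`; the coefficient of index `n ≤ m` of `Z_{m+1} i` is the one of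
`Z_(n+1) i`). So modulo `X^(m+1)`: `Z i ≡ Z_{m+2} i = X Ψ Z_{m+1} i ≡ X Ψ Z i` (`h`), for all `m`, hence equality (`PowerSeries.ext`, `X_pow_dvd_iff`).
-/

set_option autoImplicit false

namespace Pool.Agent.Helper66.QL

variable {k : Type*} [Field k]

theorem fix (Ψ : (Fin 5 → PowerSeries k) → Fin 5 → PowerSeries k)
    (h : ∀ (n : ℕ) (Z Z' : Fin 5 → PowerSeries k),
      (∀ i, (PowerSeries.X : PowerSeries k) ^ n ∣ Z i - Z' i) →
      ∀ i, (PowerSeries.X : PowerSeries k) ^ n ∣ Ψ Z i - Ψ Z' i) :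
    ∃ Z, ∀ i, Z i = PowerSeries.X * Ψ Z i := by
  classical
  let S : ℕ → Fin 5 → PowerSeries k :=
    fun m => Nat.rec (0 : Fin 5 → PowerSeries k) (fun _ Z i => PowerSeries.X * Ψ Z i) m
  have hS : ∀ m i, S (m + 1) i = PowerSeries.X * Ψ (S m) i := fun m i => rfl
  have hd : ∀ m i, (PowerSeries.X : PowerSeries k) ^ m ∣ S (m + 1) i - S m i := by
    intro m
    induction m with
    | zero => intro i; simp
    | succ m ih =>
      intro i
      rw [hS (m + 1) i, hS m i, ← mul_sub, pow_succ']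
      exact mul_dvd_mul_left _ (h m _ _ ih i)
  have hd2 : ∀ m j i, (PowerSeries.X : PowerSeries k) ^ m ∣ S (m + j) i - S m i := by
    intro m j i
    induction j with
    | zero => simp
    | succ j ih =>
      have h1 : (PowerSeries.X : PowerSeries k) ^ m ∣ S (m + j + 1) i - S (m + j) i :=
        (pow_dvd_pow _ (Nat.le_add_right m j)).trans (hd (m + j) i)
      have h2 := dvd_add h1 ih
      rw [← add_assoc]
      simpa using h2
  refine ⟨fun i => PowerSeries.mk (fun n => PowerSeries.coeff n (S (n + 1) i)), ?_⟩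
  set Z : Fin 5 → PowerSeries k :=
    fun i => PowerSeries.mk (fun n => PowerSeries.coeff n (S (n + 1) i)) with hZ
  have hZS : ∀ m i, (PowerSeries.X : PowerSeries k) ^ m ∣ Z i - S m i := by
    intro m i
    rw [PowerSeries.X_pow_dvd_iff]
    intro n hn
    have h1 := hd2 (n + 1) (m - (n + 1)) i
    rw [PowerSeries.X_pow_dvd_iff] at h1
    have h2 := h1 n (Nat.lt_succ_self n)
    rw [Nat.add_sub_cancel' hn] at h2
    rw [map_sub, sub_eq_zero] at h2
    rw [map_sub, sub_eq_zero, h2]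
    simp [hZ]
  have hfin : ∀ i m, (PowerSeries.X : PowerSeries k) ^ (m + 1) ∣ Z i - PowerSeries.X * Ψ Z i := by
    intro i m
    have h1 := hZS (m + 1) i
    have h2 : (PowerSeries.X : PowerSeries k) ^ (m + 1) ∣
        PowerSeries.X * Ψ Z i - S (m + 1) i := by
      rw [hS m i, ← mul_sub, pow_succ']
      exact mul_dvd_mul_left _ (h m _ _ (hZS m) i)
    have h3 := dvd_sub h1 h2
    simpa using h3
  intro i
  refine PowerSeries.ext fun n => ?_
  have h1 := hfin i n
  rw [PowerSeries.X_pow_dvd_iff] at h1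
  have h2 := h1 n (Nat.lt_succ_self n)
  rwa [map_sub, sub_eq_zero] at h2

end Pool.Agent.Helper66.QL
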