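import Pool.Agent.Helper66.QL.Defs

/-!
# QL-04: coordinates modulo the line

`exists_frm`: extend `a, b` to a basis `a, b, f0, f1, f2` of `k^5` (`LinearIndependent.extend`, or `Basis.extend`, or add standard basis vectors one by one); `za, zb, z` is the dual basis (for instance the rows of the inverse of the matrix
with the columns `a, b, f0, f1, f2`, or `Basis.coord` written in coordinates: `dot d w = φ w` for `d j = φ (Pi.single j 1)`).
`decR`: both sides are additive and homogeneous in `w`; write `w = ∑ j, w j • cst R (Pi.single j 1)` and use `dec`, `dot_cst`, `dot_smul`; or compare coordinates: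
`dec` for `Pi.single l 1` says `δ_{il} = za l * a i + zb l * b i + ∑ j, z j l * f j i`, multiply by `w l` and sum over `l`.
`exists_frm_ne`: take `exists_frm`; by `decR` some `dot (z j) u ≠ 0` (otherwise `u` is in the span of `a, b`); replace `z, f` by `z ∘ Equiv.swap 0 j`, `f ∘ Equiv.swap 0 j`
(`Equiv.sum_comp` for `dec`).
-/

set_option autoImplicit false

namespace Pool.Agent.Helper66.QL

open Pool.Agent.Helper72.QT

variable {k : Type*} [Field k]

/-- a basis `a, b, f 0, f 1, f 2` of `k^5` with the dual basis `za, zb, z 0, z 1, z 2` -/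
structure Frm (a b za zb : Fin 5 → k) (z f : Fin 3 → Fin 5 → k) : Prop where
  aa : dot za a = 1
  ab : dot za b = 0
  af : ∀ j, dot za (f j) = 0
  ba : dot zb a = 0
  bb : dot zb b = 1
  bf : ∀ j, dot zb (f j) = 0
  fa : ∀ i, dot (z i) a = 0
  fb : ∀ i, dot (z i) b = 0
  ff : ∀ i j, dot (z i) (f j) = if i = j then 1 else 0
  dec : ∀ w : Fin 5 → k, w = dot za w • a + dot zb w • b + ∑ j, dot (z j) w • f j

private theorem dot_lin (φ : (Fin 5 → k) →ₗ[k] k) (w : Fin 5 → k) :
    dot (fun j => φ (Pi.single j 1)) w = φ w := by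
  have h : w = ∑ j, w j • (Pi.single j (1 : k) : Fin 5 → k) := by
    funext i
    simp [Finset.sum_apply, Pi.single_apply]
  conv_rhs => rw [h]
  simp only [dot, map_sum, map_smul, smul_eq_mul, Algebra.algebraMap_self, RingHom.id_apply]
  exact Finset.sum_congr rfl fun j _ => mul_comm _ _

theorem exists_frm (a b : Fin 5 → k) (hab : LinearIndependent k ![a, b]) :
    ∃ (za zb : Fin 5 → k) (z f : Fin 3 → Fin 5 → k), Frm a b za zb z f := by
  classical
  let B0 := Module.Basis.sumExtend hab
  have hfin : Finite (Fin 2 ⊕ Module.Basis.sumExtendIndex hab) := Module.Finite.finite_basis B0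
  have : Finite (Module.Basis.sumExtendIndex hab) := Finite.of_injective
    (Sum.inr : _ → Fin 2 ⊕ Module.Basis.sumExtendIndex hab) Sum.inr_injective
  have : Fintype (Module.Basis.sumExtendIndex hab) := Fintype.ofFinite _
  have hcard : Fintype.card (Module.Basis.sumExtendIndex hab) = 3 := by
    have h1 := Module.finrank_eq_card_basis B0
    rw [Module.finrank_fin_fun, Fintype.card_sum, Fintype.card_fin] at h1
    omega
  let e : Module.Basis.sumExtendIndex hab ≃ Fin 3 := Fintype.equivFinOfCardEq hcard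
  let B : Module.Basis (Fin 2 ⊕ Fin 3) k (Fin 5 → k) := B0.reindex (Equiv.sumCongr (Equiv.refl _) e)
  have hB0 : ∀ i, B (Sum.inl i) = ![a, b] i := by
    intro i
    show B0.reindex (Equiv.sumCongr (Equiv.refl _) e) (Sum.inl i) = _
    rw [Module.Basis.reindex_apply]
    show Module.Basis.sumExtend hab (Sum.inl i) = _
    simp only [Module.Basis.sumExtend, Module.Basis.reindex_apply, Module.Basis.coe_extend]
    rfl
  have ha : B (Sum.inl 0) = a := hB0 0
  have hb : B (Sum.inl 1) = b := hB0 1
  have hc : ∀ i j, B.coord i (B j) = if i = j then 1 else 0 := by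
    intro i j
    rw [Module.Basis.coord_apply, Module.Basis.repr_self, Finsupp.single_apply]
    by_cases h : i = j
    · rw [if_pos h, if_pos h.symm]
    · rw [if_neg h, if_neg (fun h' => h h'.symm)]
  refine ⟨fun j => B.coord (Sum.inl 0) (Pi.single j 1), fun j => B.coord (Sum.inl 1) (Pi.single j 1),
    fun i j => B.coord (Sum.inr i) (Pi.single j 1), fun i => B (Sum.inr i), ?_⟩
  refine ⟨?_, ?_, ?_, ?_, ?_, ?_, ?_, ?_, ?_, ?_⟩
  · rw [dot_lin, ← ha, hc]; simp
  · rw [dot_lin, ← hb, hc]; simp
  · intro j; rw [dot_lin, hc]; simp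
  · rw [dot_lin, ← ha, hc]; simp
  · rw [dot_lin, ← hb, hc]; simp
  · intro j; rw [dot_lin, hc]; simp
  · intro i; rw [dot_lin, ← ha, hc]; simp
  · intro i; rw [dot_lin, ← hb, hc]; simp
  · intro i j; rw [dot_lin, hc]; simp
  · intro w
    have h1 := B.sum_repr w
    rw [Fintype.sum_sum_type, Fin.sum_univ_two, ha, hb] at h1
    simp only [dot_lin]
    exact h1.symm

theorem Frm.decR {a b za zb : Fin 5 → k} {z f : Fin 3 → Fin 5 → k} (h : Frm a b za zb z f)
    {R : Type*} [CommRing R] [Algebra k R] (w : Fin 5 → R) :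
    w = dot za w • cst R a + dot zb w • cst R b + ∑ j, dot (z j) w • cst R (f j) := by
  have hd : ∀ i l : Fin 5, (if i = l then (1 : k) else 0) =
      za l * a i + zb l * b i + ∑ j, z j l * f j i := by
    intro i l
    have h1 := congrFun (h.dec (Pi.single l 1)) i
    have h2 : ∀ d : Fin 5 → k, dot d (Pi.single l (1 : k)) = d l := by
      intro d
      simp [dot, Pi.single_apply]
    simp only [h2, Pi.add_apply, Pi.smul_apply, Finset.sum_apply, smul_eq_mul, Pi.single_apply] at h1
    exact h1
  funext i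
  have h3 : w i = ∑ l, algebraMap k R (if i = l then (1 : k) else 0) * w l := by
    simp [apply_ite]
  rw [h3]
  simp only [hd, map_add, map_mul, map_sum, add_mul, Finset.sum_add_distrib, Pi.add_apply,
    Pi.smul_apply, Finset.sum_apply, smul_eq_mul, dot, cst, Finset.sum_mul]
  refine congrArg₂ (· + ·) (congrArg₂ (· + ·) ?_ ?_) ?_
  · exact Finset.sum_congr rfl fun l _ => by ring
  · exact Finset.sum_congr rfl fun l _ => by ring
  · rw [Finset.sum_comm]
    exact Finset.sum_congr rfl fun j _ => Finset.sum_congr rfl fun l _ => by ring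

theorem exists_frm_ne (a b : Fin 5 → k) (hab : LinearIndependent k ![a, b]) (u : Fin 5 → KK k)
    (hu : ∀ α β : KK k, u ≠ α • cst (KK k) a + β • cst (KK k) b) :
    ∃ (za zb : Fin 5 → k) (z f : Fin 3 → Fin 5 → k), Frm a b za zb z f ∧ dot (z 0) u ≠ 0 := by
  obtain ⟨za, zb, z, f, h⟩ := exists_frm a b hab
  have hj : ∃ j, dot (z j) u ≠ 0 := by
    by_contra hcon
    push Not at hcon
    refine hu (dot za u) (dot zb u) ?_
    have h1 := h.decR u
    simp only [hcon, zero_smul, Finset.sum_const_zero, add_zero] at h1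
    exact h1
  obtain ⟨j, hj⟩ := hj
  refine ⟨za, zb, fun i => z (Equiv.swap 0 j i), fun i => f (Equiv.swap 0 j i),
    ⟨h.aa, h.ab, fun i => h.af _, h.ba, h.bb, fun i => h.bf _, fun i => h.fa _, fun i => h.fb _,
      fun i l => ?_, fun w => ?_⟩, ?_⟩
  · rw [h.ff]
    simp only [EmbeddingLike.apply_eq_iff_eq]
  · have h1 := h.dec w
    rw [← Equiv.sum_comp (Equiv.swap 0 j) (fun i => dot (z i) w • f i)] at h1
    exact h1
  · simpa using hj

end Pool.Agent.Helper66.QL
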