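import Pool.Agent.Helper66.QL.Frame

/-!
# QL-06: the ratios of the coordinates of `P + s Q` and `t` generate

PROOF. Write `Z_i = dot (z i)`. Step 1: there are `i, j` with `D = Z_i P * Z_j Q - Z_j P * Z_i Q ≠ 0`. Otherwise the vectors `(Z_i P)_i`, `(Z_i Q)_i` in `(RatFunc k)^3` are proportional: there is `(α, β) ≠ 0` with
`Z_i (α P + β Q) = 0` for all `i` (if some `Z_i P ≠ 0` or `Z_i Q ≠ 0` take `(α, β) = (Z_i Q, - Z_i P)`, otherwise `(1, 0)`); by `Frm.decR` over `RatFunc k` the vector `α P + β Q` is in the span of `a, b`, contradiction to `hind`.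
Step 2: with `ρ_i = Z_i u / Z_0 u ∈ L` and `c = Z_0 u ≠ 0`: `Z_i P + s Z_i Q = ρ_i c` (`dot_add`, `dot_smul`, `toK_eq`, `dot_map`), so `ρ_j (Z_i P + s Z_i Q) = ρ_i (Z_j P + s Z_j Q)` and
`s (ρ_j Z_i Q - ρ_i Z_j Q) = ρ_i Z_j P - ρ_j Z_i P`, everything except `s` in `L`, because `L` contains `jR (RatFunc k)` (from `tt k ∈ L`: as in the proof of `QT.gen_top`). If
`ρ_j Z_i Q - ρ_i Z_j Q = 0` then also `ρ_i Z_j P - ρ_j Z_i P = 0` and `D ≠ 0` gives `ρ_i = ρ_j = 0`, so `Z_i P + s Z_i Q = 0`, `Z_j P + s Z_j Q = 0`, and as `s` is transcendental over `RatFunc k`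
all four values are `0`, contradiction to `D ≠ 0`. So `s ∈ L`, and `QT.gen_top`.
-/

set_option autoImplicit false

namespace Pool.Agent.Helper66.QL

open Pool.Agent.Helper72.QT

variable {k : Type*} [Field k]

private theorem jR_mem (L : IntermediateField k (KK k)) (ht : tt k ∈ L) (a : RatFunc k) :
    jR k a ∈ L := by
  have h1 : ∀ p : Polynomial k, algebraMap (RatFunc k) (KK k)
      (algebraMap (Polynomial k) (RatFunc k) p) ∈ L := by
    intro p
    induction p using Polynomial.induction_on' with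
    | add p q hp hq =>
      rw [map_add, map_add]
      exact add_mem hp hq
    | monomial n a =>
      rw [← Polynomial.C_mul_X_pow_eq_monomial, map_mul, map_mul, map_pow, map_pow]
      refine mul_mem ?_ (pow_mem ?_ n)
      · have e1 : algebraMap (RatFunc k) (KK k)
            (algebraMap (Polynomial k) (RatFunc k) (Polynomial.C a)) =
            algebraMap k (KK k) a := by
          rw [IsScalarTower.algebraMap_apply k (RatFunc k) (KK k)]
          rfl
        rw [e1]
        exact L.algebraMap_mem a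
      · have e1 : algebraMap (RatFunc k) (KK k)
            (algebraMap (Polynomial k) (RatFunc k) Polynomial.X) = tt k := by
          rw [RatFunc.algebraMap_X]
          rfl
        rw [e1]
        exact ht
  show algebraMap (RatFunc k) (KK k) a ∈ L
  rw [← RatFunc.num_div_denom a, map_div₀]
  exact div_mem (h1 _) (h1 _)

private theorem dot_uu (d : Fin 5 → k) (P Q : Fin 5 → RatFunc k) :
    dot d (uu P Q) = jR k (dot d P) + ss k * jR k (dot d Q) := by
  rw [uu, dot_add, dot_smul, dot_toK, dot_toK]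

private theorem lin_zero (p q : RatFunc k) (h : jR k p + ss k * jR k q = 0) : p = 0 ∧ q = 0 := by
  have h1 : ∀ i < 2, (fun n : ℕ => if n = 0 then p else q) i = 0 := by
    apply s_poly 2
    rw [Finset.sum_range_succ, Finset.sum_range_one]
    simp only [if_true, one_ne_zero, if_false, pow_zero, pow_one, mul_one]
    rw [mul_comm (jR k q), h]
  exact ⟨by simpa using h1 0 (by norm_num), by simpa using h1 1 (by norm_num)⟩

private theorem no_rel {a b P Q : Fin 5 → RatFunc k}
    (hind : LinearIndependent (RatFunc k) ![a, b, P, Q]) (α β γ δ : RatFunc k)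
    (h : α • P + β • Q = γ • a + δ • b) : α = 0 ∧ β = 0 := by
  have h1 := Fintype.linearIndependent_iff.1 hind ![-γ, -δ, α, β] (by
    rw [Fin.sum_univ_four]
    show -γ • a + -δ • b + α • P + β • Q = 0
    have e : -γ • a + -δ • b + α • P + β • Q = (α • P + β • Q) - (γ • a + δ • b) := by
      rw [neg_smul, neg_smul]
      abel
    rw [e, h, sub_self])
  exact ⟨h1 2, h1 3⟩

private theorem exists_minor {a b za zb : Fin 5 → k} {z f : Fin 3 → Fin 5 → k}
    (hF : Frm a b za zb z f) (P Q : Fin 5 → RatFunc k)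
    (hind : LinearIndependent (RatFunc k) ![cst (RatFunc k) a, cst (RatFunc k) b, P, Q]) :
    ∃ i j, dot (z i) P * dot (z j) Q - dot (z j) P * dot (z i) Q ≠ 0 := by
  by_contra hcon
  push Not at hcon
  have key : ∀ α β : RatFunc k, (∀ i, α * dot (z i) P + β * dot (z i) Q = 0) →
      α = 0 ∧ β = 0 := by
    intro α β h
    have h1 := hF.decR (R := RatFunc k) (α • P + β • Q)
    refine no_rel hind α β (dot za (α • P + β • Q)) (dot zb (α • P + β • Q)) ?_
    have h2 : (∑ j, dot (z j) (α • P + β • Q) • cst (RatFunc k) (f j)) = 0 := by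
      refine Finset.sum_eq_zero fun j _ => ?_
      rw [dot_add, dot_smul, dot_smul, h j, zero_smul]
    rw [h2, add_zero] at h1
    exact h1
  have hz : ∀ i, dot (z i) P = 0 ∧ dot (z i) Q = 0 := by
    intro i
    have h1 := key (dot (z i) Q) (-dot (z i) P) (fun j => by
      have := hcon j i
      linear_combination this)
    exact ⟨neg_eq_zero.1 h1.2, h1.1⟩
  have h1 := key 1 0 (fun i => by rw [(hz i).1, (hz i).2]; ring)
  exact one_ne_zero h1.1

theorem gens {a b za zb : Fin 5 → k} {z f : Fin 3 → Fin 5 → k} (hF : Frm a b za zb z f)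
    (P Q : Fin 5 → RatFunc k)
    (hind : LinearIndependent (RatFunc k) ![cst (RatFunc k) a, cst (RatFunc k) b, P, Q])
    (h0 : dot (z 0) (uu P Q) ≠ 0) (L : IntermediateField k (KK k)) (ht : tt k ∈ L)
    (hz : ∀ j, dot (z j) (uu P Q) / dot (z 0) (uu P Q) ∈ L) : L = ⊤ := by
  obtain ⟨i, j, hD⟩ := exists_minor hF P Q hind
  refine gen_top L ?_ ht
  obtain ⟨c, hc⟩ : ∃ c, c = dot (z 0) (uu P Q) := ⟨_, rfl⟩
  rw [← hc] at h0
  have hρ : ∀ l, ∃ r ∈ L, jR k (dot (z l) P) + ss k * jR k (dot (z l) Q) = r * c := by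
    intro l
    refine ⟨_, hz l, ?_⟩
    rw [← hc, div_mul_cancel₀ _ h0, dot_uu]
  obtain ⟨r1, hr1, e1⟩ := hρ i
  obtain ⟨r2, hr2, e2⟩ := hρ j
  obtain ⟨p1, hp1⟩ : ∃ p, p = dot (z i) P := ⟨_, rfl⟩
  obtain ⟨q1, hq1⟩ : ∃ p, p = dot (z i) Q := ⟨_, rfl⟩
  obtain ⟨p2, hp2⟩ : ∃ p, p = dot (z j) P := ⟨_, rfl⟩
  obtain ⟨q2, hq2⟩ : ∃ p, p = dot (z j) Q := ⟨_, rfl⟩
  rw [← hp1, ← hq1, ← hp2, ← hq2] at hD
  rw [← hp1, ← hq1] at e1
  rw [← hp2, ← hq2] at e2
  have hDj : jR k p1 * jR k q2 - jR k p2 * jR k q1 ≠ 0 := by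
    rw [← map_mul, ← map_mul, ← map_sub]
    exact fun h => hD ((map_eq_zero_iff _ (jR k).toRingHom.injective).1 h)
  have hE : ss k * (r2 * jR k q1 - r1 * jR k q2) = r1 * jR k p2 - r2 * jR k p1 := by
    linear_combination r2 * e1 - r1 * e2
  by_cases h : r2 * jR k q1 - r1 * jR k q2 = 0
  · exfalso
    rw [h, mul_zero] at hE
    have z1 : r1 = 0 := by
      have : r1 * (jR k p1 * jR k q2 - jR k p2 * jR k q1) = 0 := by
        linear_combination (-jR k p1) * h + jR k q1 * hE
      exact (mul_eq_zero.1 this).resolve_right hDj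
    have z2 : r2 = 0 := by
      have : r2 * (jR k p1 * jR k q2 - jR k p2 * jR k q1) = 0 := by
        linear_combination (-jR k p2) * h + jR k q2 * hE
      exact (mul_eq_zero.1 this).resolve_right hDj
    rw [z1, zero_mul] at e1
    obtain ⟨y1, y2⟩ := lin_zero _ _ e1
    apply hD
    rw [y1, y2]
    ring
  · have hs : ss k = (r1 * jR k p2 - r2 * jR k p1) / (r2 * jR k q1 - r1 * jR k q2) := by
      rw [eq_div_iff h, hE]
    rw [hs]
    exact div_mem (sub_mem (mul_mem hr1 (jR_mem L ht _)) (mul_mem hr2 (jR_mem L ht _)))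
      (sub_mem (mul_mem hr2 (jR_mem L ht _)) (mul_mem hr1 (jR_mem L ht _)))

end Pool.Agent.Helper66.QL
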