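import Mathlib

/-!
# QL-26: from the affine to the projective equation of a line

PROOF. `s ≠ 0`: `s • a + t • b = s • (a + (t/s) • b)`, `eval (s • v) G = s^4 * eval v G` (`IsHomogeneous.eval₂` or `MvPolynomial.IsHomogeneous.eval_smul`-type lemma), and `eval (a + c • b) G` is the value at `c` of the
polynomial in `h` (`Polynomial.eval`-`aeval` exchange: `Polynomial.aeval c` is an algebra homomorphism), so `0`. `s = 0`: consider the polynomial `q = aeval (fun l => X * C (a l) + C (t * b l)) G ∈ K[X]`; its value at every `s ≠ 0` is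
`eval (s • a + t • b) G = 0`, `K` is infinite, so `q = 0` (infinitely many roots, `Polynomial.eq_zero_of_infinite_isRoot`), and its value at `0` is `eval (t • b) G`.
-/

set_option autoImplicit false

namespace Pool.Agent.Helper66.QL

open Polynomial

private theorem HomLine_ex {K : Type*} [Field K] (G : MvPolynomial (Fin 5) K)
    (f : Fin 5 → K[X]) (c : K) :
    (MvPolynomial.aeval f G).eval c = MvPolynomial.eval (fun l => (f l).eval c) G := by
  induction G using MvPolynomial.induction_on with
  | C a => simp
  | add p q hp hq => simp [hp, hq]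
  | mul_X p i hp => simp [hp]

private theorem HomLine_smul {K : Type*} [Field K] (G : MvPolynomial (Fin 5) K)
    (hG : G.IsHomogeneous 4) (s : K) (v : Fin 5 → K) :
    MvPolynomial.eval (s • v) G = s ^ 4 * MvPolynomial.eval v G := by
  rw [MvPolynomial.eval_eq', MvPolynomial.eval_eq', Finset.mul_sum]
  refine Finset.sum_congr rfl fun d hd => ?_
  have h1 := hG (MvPolynomial.mem_support_iff.1 hd)
  change (Finsupp.weight (fun _ => 1)) d = 4 at h1
  rw [← Finsupp.degree_eq_weight_one] at h1
  have h2 : ∑ i, d i = 4 := by
    rw [← h1]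
    exact (Finsupp.degree_eq_sum d).symm
  have h3 : ∏ i, (s • v) i ^ d i = s ^ 4 * ∏ i, v i ^ d i := by
    rw [← h2, ← Finset.prod_pow_eq_pow_sum, ← Finset.prod_mul_distrib]
    refine Finset.prod_congr rfl fun i _ => ?_
    rw [Pi.smul_apply, smul_eq_mul, mul_pow]
  rw [h3]
  ring

theorem hom_line {K : Type*} [Field K] [Infinite K] (G : MvPolynomial (Fin 5) K)
    (hG : G.IsHomogeneous 4) (a b : Fin 5 → K)
    (h : MvPolynomial.aeval (fun l => (C (a l) + X * C (b l) : K[X])) G = 0) (s t : K) :
    MvPolynomial.eval (s • a + t • b) G = 0 := by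
  have key : ∀ s : K, s ≠ 0 → MvPolynomial.eval (s • a + t • b) G = 0 := by
    intro s hs
    have h1 : s • a + t • b = s • (a + (t / s) • b) := by
      rw [smul_add, smul_smul, mul_div_cancel₀ t hs]
    rw [h1, HomLine_smul G hG]
    have h2 := HomLine_ex G (fun l => (C (a l) + X * C (b l) : K[X])) (t / s)
    rw [h, eval_zero] at h2
    have h3 : (fun l => (C (a l) + X * C (b l) : K[X]).eval (t / s)) = a + (t / s) • b := by
      funext l
      simp only [eval_add, eval_C, eval_mul, eval_X, Pi.add_apply, Pi.smul_apply, smul_eq_mul]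
    rw [h3] at h2
    rw [← h2, mul_zero]
  have hq : MvPolynomial.aeval (fun l => (X * C (a l) + C (t * b l) : K[X])) G = 0 := by
    refine Polynomial.eq_zero_of_infinite_isRoot _ ?_
    have hinf : ({0}ᶜ : Set K).Infinite := (Set.finite_singleton (0 : K)).infinite_compl
    refine hinf.mono ?_
    intro c hc
    have hc' : c ≠ 0 := by simpa using hc
    show (MvPolynomial.aeval (fun l => (X * C (a l) + C (t * b l) : K[X])) G).eval c = 0
    have e : (fun l => (X * C (a l) + C (t * b l) : K[X]).eval c) = c • a + t • b := by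
      funext l
      simp only [eval_add, eval_C, eval_mul, eval_X, Pi.add_apply, Pi.smul_apply, smul_eq_mul]
    rw [HomLine_ex, e]
    exact key c hc'
  by_cases hs : s = 0
  · have h2 := HomLine_ex G (fun l => (X * C (a l) + C (t * b l) : K[X])) 0
    have e : (fun l => (X * C (a l) + C (t * b l) : K[X]).eval 0) = s • a + t • b := by
      funext l
      simp only [eval_add, eval_C, eval_mul, eval_X, Pi.add_apply, Pi.smul_apply, smul_eq_mul, hs]
    rw [hq, eval_zero, e] at h2
    exact h2.symm
  · exact key s hs

end Pool.Agent.Helper66.QL
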