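import Pool.Agent.Helper66.QL.Frame

/-!
# QL-10: STEP 3, the common kernel of `l, g, m` over `k(t)`

PROOF. Over `R1 = RatFunc k`, `t = RatFunc.X`: from `m = lam_2 + t lam_3 = 0`, `g = lam_1 + 2 t lam_2 + t² lam_3 = 0`, `l = lam_0 + 3 t lam_1 + 3 t² lam_2 + t³ lam_3 = 0` (`m_eq`, `g_eq`, `l_eq`):
`lam_2 = - t lam_3`, `lam_1 = t² lam_3`, `lam_0 = - t³ lam_3` at `w`. Let `Frm a b za zb z f` (`exists_frm`). The four vectors `(lam_i (f j))_j ∈ k^3`, `i : Fin 4`, are linearly dependent (more vectors than the dimension):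
`∑_i c_i lam_i(f j) = 0` for all `j`, `c : Fin 4 → k` not `0`. By `Frm.decR`, `lam_add`, `lam_smul`, `lam_a`, `lam_b`, `lam_cst`: `∑ c_i lam_i(w) = 0`, so
`lam_3(w) (- c_0 t³ + c_1 t² - c_2 t + c_3) = 0`, the second factor is the image of a nonzero polynomial, so `lam_3(w) = 0` and all `lam_i(w) = 0`.
Now `lam_i(w) = ∑_j Z_j(w) lam_i(f j) = 0` for all `i`. By `hr` the vectors `(lam_i (f j))_i ∈ k^4`, `j : Fin 3`, are linearly independent over `k` (if `∑ d_j lam_i(f j) = 0` for all `i` then `∑ d_j f_j` is in the span of `a, b`,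
apply `dot (z j)`: `d_j = 0`), hence over `R1` (`LinearIndependent` is preserved by field extension; or choose three indices `i` with nonzero `3 x 3` determinant), so `Z_j(w) = 0` for all `j`, and `decR` gives the claim.
-/

set_option autoImplicit false

namespace Pool.Agent.Helper66.QL

open Pool.Agent.Helper72.QT

variable {k : Type*} [Field k] {T : Ten k 5}

private lemma k3_lam {R : Type*} [CommRing R] [Algebra k R] (hT : SymT T) {a b za zb : Fin 5 → k}
    {z f : Fin 3 → Fin 5 → k} (h : Frm a b za zb z f) (hL : Line T a b) (i : Fin 4)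
    (w : Fin 5 → R) :
    lam T a b i w = ∑ j, dot (z j) w * algebraMap k R (lam T a b i (f j)) := by
  have e := congrArg (lam T a b i) (h.decR w)
  rw [Fin.sum_univ_three, lam_add, lam_add, lam_add, lam_add, lam_smul, lam_smul, lam_smul,
    lam_smul, lam_smul, lam_a hT hL, lam_b hL, lam_cst, lam_cst, lam_cst, mul_zero, mul_zero,
    zero_add, zero_add] at e
  rw [Fin.sum_univ_three]
  exact e

private lemma k3_rel (Λ : Fin 4 → Fin 3 → k) :
    ∃ c : Fin 4 → k, c ≠ 0 ∧ ∀ j, ∑ i, c i * Λ i j = 0 := by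
  have hk := LinearMap.ker_ne_bot_of_finrank_lt
    (f := (Fintype.linearCombination k Λ : (Fin 4 → k) →ₗ[k] (Fin 3 → k)))
    (by simp)
  obtain ⟨c, hc, hne⟩ := Submodule.exists_mem_ne_zero_of_ne_bot hk
  refine ⟨c, hne, fun j => ?_⟩
  have h1 : (Fintype.linearCombination k Λ : (Fin 4 → k) →ₗ[k] (Fin 3 → k)) c = 0 := hc
  rw [Fintype.linearCombination_apply] at h1
  have h2 := congrFun h1 j
  simpa [Finset.sum_apply] using h2

private lemma k3_left (Λ : Fin 4 → Fin 3 → k)
    (h : ∀ d : Fin 3 → k, (∀ i, ∑ j, d j * Λ i j = 0) → d = 0) (j : Fin 3) :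
    ∃ ν : Fin 4 → k, ∀ j', ∑ i, ν i * Λ i j' = if j' = j then 1 else 0 := by
  have hk : LinearMap.ker (Fintype.linearCombination k (fun j i => Λ i j) :
      (Fin 3 → k) →ₗ[k] (Fin 4 → k)) = ⊥ := by
    rw [LinearMap.ker_eq_bot']
    intro d hd
    apply h d
    intro i
    rw [Fintype.linearCombination_apply] at hd
    have h2 := congrFun hd i
    simpa [Finset.sum_apply] using h2
  obtain ⟨g, hg⟩ := LinearMap.exists_leftInverse_of_injective _ hk
  refine ⟨fun i => g (Pi.single i 1) j, fun j' => ?_⟩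
  have h3 : g (fun i => Λ i j') = Pi.single j' 1 := by
    have h4 := LinearMap.congr_fun hg (Pi.single j' 1)
    rw [LinearMap.comp_apply, Fintype.linearCombination_apply_single, one_smul] at h4
    exact h4
  have h5 : (fun i => Λ i j') = ∑ i, Λ i j' • (Pi.single i (1 : k) : Fin 4 → k) := by
    funext i
    simp [Finset.sum_apply, Pi.single_apply]
  rw [h5, map_sum] at h3
  have h6 := congrFun h3 j
  rw [Finset.sum_apply, Pi.single_apply] at h6
  rw [show (if j' = j then (1 : k) else 0) = if j = j' then 1 else 0 by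
    by_cases hh : j' = j
    · rw [if_pos hh, if_pos hh.symm]
    · rw [if_neg hh, if_neg (Ne.symm hh)]]
  rw [← h6]
  refine Finset.sum_congr rfl fun i _ => ?_
  rw [map_smul, Pi.smul_apply, smul_eq_mul, mul_comm]

private lemma k3_poly (c : Fin 4 → k) (hc : c ≠ 0) :
    -(algebraMap k (RatFunc k) (c 0)) * RatFunc.X ^ 3 + algebraMap k (RatFunc k) (c 1) * RatFunc.X ^ 2
      - algebraMap k (RatFunc k) (c 2) * RatFunc.X + algebraMap k (RatFunc k) (c 3) ≠ 0 := by
  intro h0
  have h1 : algebraMap (Polynomial k) (RatFunc k)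
      (-(Polynomial.C (c 0)) * Polynomial.X ^ 3 + Polynomial.C (c 1) * Polynomial.X ^ 2
        - Polynomial.C (c 2) * Polynomial.X + Polynomial.C (c 3)) = 0 := by
    rw [← h0]
    simp only [map_add, map_sub, map_mul, map_neg, map_pow, RatFunc.algebraMap_X,
      RatFunc.algebraMap_C, RatFunc.algebraMap_eq_C]
  have h2 := (map_eq_zero_iff _ (RatFunc.algebraMap_injective k)).1 h1
  apply hc
  funext i
  have e0 := congrArg (fun p => Polynomial.coeff p 0) h2
  have e1 := congrArg (fun p => Polynomial.coeff p 1) h2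
  have e2 := congrArg (fun p => Polynomial.coeff p 2) h2
  have e3 := congrArg (fun p => Polynomial.coeff p 3) h2
  simp only [Polynomial.coeff_add, Polynomial.coeff_sub, Polynomial.coeff_C_mul,
    Polynomial.coeff_X_pow, Polynomial.coeff_X, Polynomial.coeff_C, neg_mul,
    Polynomial.coeff_neg, Polynomial.coeff_zero] at e0 e1 e2 e3
  norm_num at e0 e1 e2 e3
  fin_cases i
  · simpa using e3
  · simpa using e2
  · simpa using e1
  · simpa using e0

theorem ker3 (hT : SymT T) (a b : Fin 5 → k) (hab : LinearIndependent k ![a, b])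
    (hL : Line T a b)
    (hr : ∀ w : Fin 5 → k, (∀ i, lam T a b i w = 0) → ∃ α β : k, w = α • a + β • b)
    (w : Fin 5 → RatFunc k) (hl : phi T (xR a b) (xR a b) (xR a b) w = 0)
    (hg : phi T (xR a b) (xR a b) (cst (RatFunc k) b) w = 0)
    (hm : phi T (xR a b) (cst (RatFunc k) b) (cst (RatFunc k) b) w = 0) :
    ∃ α β : RatFunc k, w = α • cst (RatFunc k) a + β • cst (RatFunc k) b := by
  obtain ⟨za, zb, z, f, h⟩ := exists_frm a b hab
  have e1 := l_eq hT a b RatFunc.X w
  have e2 := g_eq hT a b RatFunc.X w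
  have e3 := m_eq (T := T) a b RatFunc.X w
  rw [show phi T (pt a b RatFunc.X) (pt a b RatFunc.X) (pt a b RatFunc.X) w = 0 from hl] at e1
  rw [show phi T (pt a b RatFunc.X) (pt a b RatFunc.X) (cst (RatFunc k) b) w = 0 from hg] at e2
  rw [show phi T (pt a b RatFunc.X) (cst (RatFunc k) b) (cst (RatFunc k) b) w = 0 from hm] at e3
  have f2 : lam T a b 2 w = -(RatFunc.X * lam T a b 3 w) := by linear_combination -e3
  have f1 : lam T a b 1 w = RatFunc.X ^ 2 * lam T a b 3 w := by
    linear_combination -e2 - 2 * RatFunc.X * f2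
  have f0 : lam T a b 0 w = -(RatFunc.X ^ 3 * lam T a b 3 w) := by
    linear_combination -e1 - 3 * RatFunc.X * f1 - 3 * RatFunc.X ^ 2 * f2
  obtain ⟨c, hc, hrel⟩ := k3_rel (fun i j => lam T a b i (f j))
  have hsum : ∑ i, algebraMap k (RatFunc k) (c i) * lam T a b i w = 0 := by
    have h1 : ∀ i, algebraMap k (RatFunc k) (c i) * lam T a b i w =
        ∑ j, dot (z j) w * algebraMap k (RatFunc k) (c i * lam T a b i (f j)) := by
      intro i
      rw [k3_lam hT h hL i w, Finset.mul_sum]
      refine Finset.sum_congr rfl fun j _ => ?_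
      rw [map_mul]
      ring
    rw [Finset.sum_congr rfl (fun i _ => h1 i), Finset.sum_comm]
    apply Finset.sum_eq_zero
    intro j _
    rw [← Finset.mul_sum, ← map_sum, hrel j, map_zero, mul_zero]
  have h3 : lam T a b 3 w = 0 := by
    rw [Fin.sum_univ_four, f0, f1, f2] at hsum
    have h4 : lam T a b 3 w * (-(algebraMap k (RatFunc k) (c 0)) * RatFunc.X ^ 3
        + algebraMap k (RatFunc k) (c 1) * RatFunc.X ^ 2
        - algebraMap k (RatFunc k) (c 2) * RatFunc.X + algebraMap k (RatFunc k) (c 3)) = 0 := by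
      linear_combination hsum
    rcases mul_eq_zero.1 h4 with h5 | h5
    · exact h5
    · exact absurd h5 (k3_poly c hc)
  have hall : ∀ i, lam T a b i w = 0 := by
    rw [h3, mul_zero] at f1
    rw [h3, mul_zero, neg_zero] at f0 f2
    intro i
    fin_cases i
    · exact f0
    · exact f1
    · exact f2
    · exact h3
  have hind : ∀ d : Fin 3 → k, (∀ i, ∑ j, d j * lam T a b i (f j) = 0) → d = 0 := by
    intro d hd
    have h1 : ∀ j, dot (z j) (∑ j, d j • f j) = d j := by
      intro j
      rw [Fin.sum_univ_three, dot_add, dot_add, dot_smul, dot_smul, dot_smul, h.ff, h.ff, h.ff]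
      fin_cases j <;> simp
    have h2 : ∀ i, lam T a b i (∑ j, d j • f j) = 0 := by
      intro i
      rw [Fin.sum_univ_three, lam_add, lam_add, lam_smul, lam_smul, lam_smul, ← hd i,
        Fin.sum_univ_three]
    obtain ⟨α, β, hαβ⟩ := hr _ h2
    funext j
    rw [← h1 j, hαβ, dot_add, dot_smul, dot_smul, h.fa, h.fb, mul_zero, mul_zero, add_zero]
    rfl
  have hZ : ∀ j, dot (z j) w = 0 := by
    intro j
    obtain ⟨ν, hν⟩ := k3_left (fun i j => lam T a b i (f j)) hind j
    have h1 : ∑ i, algebraMap k (RatFunc k) (ν i) * lam T a b i w = 0 := by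
      apply Finset.sum_eq_zero
      intro i _
      rw [hall i, mul_zero]
    have h2 : ∀ i, algebraMap k (RatFunc k) (ν i) * lam T a b i w =
        ∑ j, dot (z j) w * algebraMap k (RatFunc k) (ν i * lam T a b i (f j)) := by
      intro i
      rw [k3_lam hT h hL i w, Finset.mul_sum]
      refine Finset.sum_congr rfl fun j _ => ?_
      rw [map_mul]
      ring
    rw [Finset.sum_congr rfl (fun i _ => h2 i), Finset.sum_comm] at h1
    have h3 : ∀ j', ∑ i, dot (z j') w * algebraMap k (RatFunc k) (ν i * lam T a b i (f j')) =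
        dot (z j') w * algebraMap k (RatFunc k) (if j' = j then 1 else 0) := by
      intro j'
      rw [← Finset.mul_sum, ← map_sum, hν j']
    rw [Finset.sum_congr rfl (fun j' _ => h3 j'), Finset.sum_eq_single j] at h1
    · rw [if_pos rfl, map_one, mul_one] at h1
      exact h1
    · intro j' _ hj
      rw [if_neg hj, map_zero, mul_zero]
    · intro hj
      exact absurd (Finset.mem_univ j) hj
  refine ⟨dot za w, dot zb w, ?_⟩
  have h7 := h.decR w
  rw [Fin.sum_univ_three, hZ, hZ, hZ, zero_smul, zero_smul, zero_smul, add_zero, add_zero,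
    add_zero] at h7
  exact h7

end Pool.Agent.Helper66.QL
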