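import Pool.Agent.Helper66.QL.Defs

/-!
# QL-05: the cubic equation of `t` is not zero

PROOF. Suppose all `lam_i(u) = 0`, `u = P + s Q`. `lam_i(toK P) = jR (lam_i P)` (`lam_map`, `toK_eq`), so `jR (lam_i P) + s jR (lam_i Q) = 0`, and as `s = RatFunc.X` is transcendental over
`RatFunc k` (`RatFunc.algebraMap_injective` for the polynomial `C (lam_i P) + X * C (lam_i Q)`, or `RatFunc.transcendental_X`), `lam_i P = lam_i Q = 0`. So all `lam_i` vanish (over `RatFunc k`) on the
four linearly independent vectors `a, b, P, Q` (`lam_a`, `lam_b`). These span a hyperplane `V` of `(RatFunc k)^5`; choose a standard basis vector `e` (the image of `e' : Fin 5 → k`) outside `V`; for `w' : Fin 5 → k` there is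
`c ∈ RatFunc k` with `cst w' - c e ∈ V`, so `lam_i(w') = c lam_i(e')` in `RatFunc k` for all `i` (`lam_cst`). The cubic form
`S³ lam_0(e') + 3 S² R lam_1(e') + 3 S R² lam_2(e') + R³ lam_3(e')` has a zero `(S, R) ≠ 0` in `k` (algebraically closed: if `lam_3(e') = 0` take `(0, 1)`, otherwise a root of
`lam_3(e') X³ + 3 lam_2(e') X² + ...` with `S = 1`). Let `x0 = S a + R b ≠ 0`. For all `w'`: `phi T x0 x0 x0 w' = S³ lam_0(w') + 3 S² R lam_1(w') + 3 S R² lam_2(w') + R³ lam_3(w')` is `c` times zero, so `0`
(in `RatFunc k`, so in `k`). Contradiction to `Smo`. (`l_eq` for `S = 1`; expand with `phi_add1`, `phi_smul1`, ... in general.)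
-/

set_option autoImplicit false

namespace Pool.Agent.Helper66.QL

open Pool.Agent.Helper72.QT

variable {k : Type*} [Field k] [IsAlgClosed k] {T : Ten k 5}

/-- a zero of a cubic form over an algebraically closed field -/
private lemma h86_cubic (l0 l1 l2 l3 : k) : ∃ S R : k, (S ≠ 0 ∨ R ≠ 0) ∧
    S ^ 3 * l0 + 3 * S ^ 2 * R * l1 + 3 * S * R ^ 2 * l2 + R ^ 3 * l3 = 0 := by
  by_cases h3 : l3 = 0
  · refine ⟨0, 1, Or.inr one_ne_zero, ?_⟩
    rw [h3]
    ring
  · let p : Polynomial k := Polynomial.C l3 * Polynomial.X ^ 3 + Polynomial.C (3 * l2) * Polynomial.X ^ 2 +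
      Polynomial.C (3 * l1) * Polynomial.X + Polynomial.C l0
    have hd : p.degree = 3 := Polynomial.degree_cubic h3
    obtain ⟨r, hr⟩ := IsAlgClosed.exists_root p (by rw [hd]; norm_num)
    refine ⟨1, r, Or.inl one_ne_zero, ?_⟩
    have h := hr
    simp only [p, Polynomial.IsRoot.def, Polynomial.eval_add, Polynomial.eval_mul,
      Polynomial.eval_pow, Polynomial.eval_C, Polynomial.eval_X] at h
    linear_combination h

/-- the form `phi x x x w` for `x = S a + R b` -/
private lemma h86_comb (hT : SymT T) (a b : Fin 5 → k) (S R : k) (w : Fin 5 → k) :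
    phi T (S • a + R • b) (S • a + R • b) (S • a + R • b) w =
      S ^ 3 * lam T a b 0 w + 3 * S ^ 2 * R * lam T a b 1 w + 3 * S * R ^ 2 * lam T a b 2 w +
        R ^ 3 * lam T a b 3 w := by
  simp only [phi_add1, phi_add2, phi_add3, phi_smul1, phi_smul2, phi_smul3]
  have e1 : phi T a b a w = phi T a a b w := phi_s23 hT _ _ _ _
  have e2 : phi T b a a w = phi T a a b w := by
    rw [phi_s12 hT, e1]
  have e3 : phi T b a b w = phi T a b b w := phi_s12 hT _ _ _ _
  have e4 : phi T b b a w = phi T a b b w := by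
    rw [phi_s23 hT, e3]
  rw [e1, e2, e3, e4]
  show _ = S ^ 3 * phi T a a a w + 3 * S ^ 2 * R * phi T a a b w +
    3 * S * R ^ 2 * phi T a b b w + R ^ 3 * phi T b b b w
  ring

/-- a standard basis vector outside the span of four vectors, and the remainder of the space -/
private lemma h86_span (v : Fin 4 → Fin 5 → RatFunc k) (hv : LinearIndependent (RatFunc k) v) :
    ∃ j : Fin 5, ∀ w : Fin 5 → RatFunc k, ∃ c : RatFunc k,
      w - c • (Pi.single j (1 : RatFunc k) : Fin 5 → RatFunc k) ∈
        Submodule.span (RatFunc k) (Set.range v) := by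
  set V := Submodule.span (RatFunc k) (Set.range v) with hV
  have hf : Module.finrank (RatFunc k) V = 4 := by
    rw [hV, finrank_span_eq_card hv, Fintype.card_fin]
  have hq : Module.finrank (RatFunc k) ((Fin 5 → RatFunc k) ⧸ V) = 1 := by
    have h := Submodule.finrank_quotient_add_finrank V
    rw [hf, Module.finrank_fin_fun] at h
    omega
  have hj : ∃ j : Fin 5, (Pi.single j (1 : RatFunc k) : Fin 5 → RatFunc k) ∉ V := by
    by_contra hcon
    push Not at hcon
    have htop : V = ⊤ := by
      rw [eq_top_iff]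
      intro w _
      have hw : w = ∑ j, w j • (Pi.single j 1 : Fin 5 → RatFunc k) := by
        funext i
        simp [Finset.sum_apply, Pi.single_apply]
      rw [hw]
      exact Submodule.sum_mem _ fun j _ => Submodule.smul_mem _ _ (hcon j)
    rw [htop, finrank_top, Module.finrank_fin_fun] at hf
    omega
  obtain ⟨j, hj⟩ := hj
  refine ⟨j, fun w => ?_⟩
  have hne : V.mkQ (Pi.single j (1 : RatFunc k) : Fin 5 → RatFunc k) ≠ 0 := by
    intro h0
    apply hj
    rwa [Submodule.mkQ_apply, Submodule.Quotient.mk_eq_zero] at h0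
  obtain ⟨c, hc⟩ := exists_smul_eq_of_finrank_eq_one hq hne (V.mkQ w)
  refine ⟨c, ?_⟩
  rw [← Submodule.Quotient.mk_eq_zero, Submodule.Quotient.mk_sub, Submodule.Quotient.mk_smul,
    sub_eq_zero]
  exact hc.symm

theorem lam_ne (hT : SymT T) (hS : Smo T) (a b : Fin 5 → k) (hab : LinearIndependent k ![a, b])
    (hL : Line T a b) (P Q : Fin 5 → RatFunc k)
    (hind : LinearIndependent (RatFunc k) ![cst (RatFunc k) a, cst (RatFunc k) b, P, Q]) :
    ∃ i : Fin 4, lam T a b i (uu P Q) ≠ 0 := by
  by_contra hcon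
  push Not at hcon
  have hPQ : ∀ i, lam T a b i P = 0 ∧ lam T a b i Q = 0 := by
    intro i
    have h := hcon i
    rw [uu, lam_add, lam_smul, lam_toK, lam_toK] at h
    have h2 := s_poly (k := k) 2 (fun n => if n = 0 then lam T a b i P else lam T a b i Q) (by
      rw [Finset.sum_range_succ, Finset.sum_range_one]
      simp only [if_true, one_ne_zero, if_false, pow_zero, pow_one]
      linear_combination h)
    exact ⟨by simpa using h2 0 (by norm_num), by simpa using h2 1 (by norm_num)⟩
  obtain ⟨j, hj⟩ := h86_span _ hind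
  have hV : ∀ i, ∀ w ∈ Submodule.span (RatFunc k)
      (Set.range ![cst (RatFunc k) a, cst (RatFunc k) b, P, Q]), lam T a b i w = 0 := by
    intro i w hw
    induction hw using Submodule.span_induction with
    | mem x hx =>
      obtain ⟨n, rfl⟩ := hx
      fin_cases n
      · exact lam_a hT hL i
      · exact lam_b hL i
      · exact (hPQ i).1
      · exact (hPQ i).2
    | zero =>
      have h := lam_smul T a b i (0 : RatFunc k) (0 : Fin 5 → RatFunc k)
      rwa [zero_smul, zero_mul] at h
    | add x y _ _ hx hy => rw [lam_add, hx, hy, add_zero]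
    | smul c x _ hx => rw [lam_smul, hx, mul_zero]
  have hsing : (Pi.single j (1 : RatFunc k) : Fin 5 → RatFunc k) =
      cst (RatFunc k) (Pi.single j (1 : k)) := by
    funext l
    simp only [cst, Pi.single_apply]
    split_ifs
    · exact (map_one _).symm
    · exact (map_zero _).symm
  obtain ⟨S, R, hSR, h0⟩ := h86_cubic (lam T a b 0 (Pi.single j (1 : k)))
    (lam T a b 1 (Pi.single j (1 : k))) (lam T a b 2 (Pi.single j (1 : k)))
    (lam T a b 3 (Pi.single j (1 : k)))
  have hx : S • a + R • b ≠ 0 := by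
    intro hz
    have h := LinearIndependent.pair_iff.1 hab S R hz
    rcases hSR with h1 | h1
    · exact h1 h.1
    · exact h1 h.2
  obtain ⟨w, hw⟩ := hS _ hx
  apply hw
  rw [h86_comb hT]
  obtain ⟨c, hc⟩ := hj (cst (RatFunc k) w)
  have hi : ∀ i, algebraMap k (RatFunc k) (lam T a b i w) =
      c * algebraMap k (RatFunc k) (lam T a b i (Pi.single j (1 : k))) := by
    intro i
    have h := hV i _ hc
    rw [hsing, sub_eq_add_neg, ← neg_smul, lam_add, lam_smul, lam_cst, lam_cst] at h
    linear_combination h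
  apply (algebraMap k (RatFunc k)).injective
  have h0' := congrArg (algebraMap k (RatFunc k)) h0
  simp only [map_add, map_mul, map_pow, map_zero] at h0' ⊢
  rw [hi 0, hi 1, hi 2, hi 3]
  linear_combination c * h0'

end Pool.Agent.Helper66.QL
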