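import Pool.Agent.Helper66.QL.ResLine
import Pool.Agent.Helper66.QL.Descend
import Pool.Agent.Helper66.QL.Defs

/-!
# QL-31: every quartic threefold contains a line

PROOF of `exists_line`. `res_line` and `descend` for `σ = Fin 5 ⊕ Fin 5` (or `Fin 2 × Fin 5`), variables `A l`, `B l`, and the set of the polynomials `A i - 1`, `A j`, `B i`, `B j - 1` and
`aeval (fun l => C s * A l + C t * B l) F` for all `s t : k`. `a i = 1, a j = 0, b i = 0, b j = 1` give linear independence (`LinearIndependent.pair_iff`; look at the coordinates `i`, `j`).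
PROOF of `line_of`. `fP T` is homogeneous of degree 4 (`MvPolynomial.IsHomogeneous`: sum of products of four variables with constants), `aeval_fP`: `phi T (s a + t b)^4 = 0` for all `s, t ∈ k`; by `phi_comb` the polynomial
`C p0 + 4 X C p1 + 6 X² C p2 + 4 X³ C p3 + X⁴ C p4` (`s = 1`, `p0 = phi a a a a`, ...) has all `t ∈ k` as roots, `k` is infinite, so it is `0`; `4 = 2², 6 = 2 * 3` are not zero.
-/

set_option autoImplicit false

namespace Pool.Agent.Helper66.QL

open Pool.Agent.Helper72.QT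

theorem exists_line {k : Type*} [Field k] [IsAlgClosed k] (F : MvPolynomial (Fin 5) k)
    (hF : F.IsHomogeneous 4) :
    ∃ a b : Fin 5 → k, LinearIndependent k ![a, b] ∧
      ∀ s t : k, MvPolynomial.eval (s • a + t • b) F = 0 := by
  have : Infinite k := IsAlgClosed.instInfinite
  obtain ⟨κ, _, _, i, j, a, b, hai, haj, hbi, hbj, hab⟩ := res_line F hF
  let g : k → k → Fin 5 → MvPolynomial (Fin 5 ⊕ Fin 5) k := fun s t l =>
    MvPolynomial.C s * MvPolynomial.X (Sum.inl l) + MvPolynomial.C t * MvPolynomial.X (Sum.inr l)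
  let S : Set (MvPolynomial (Fin 5 ⊕ Fin 5) k) :=
    {MvPolynomial.X (Sum.inl i) - 1, MvPolynomial.X (Sum.inl j), MvPolynomial.X (Sum.inr i),
      MvPolynomial.X (Sum.inr j) - 1} ∪
      Set.range (fun st : k × k => MvPolynomial.bind₁ (g st.1 st.2) F)
  obtain ⟨y, hy⟩ := descend S (Sum.elim a b : Fin 5 ⊕ Fin 5 → κ) (by
    rintro f (hf | ⟨⟨s, t⟩, rfl⟩)
    · simp only [Set.mem_insert_iff, Set.mem_singleton_iff] at hf
      rcases hf with rfl | rfl | rfl | rfl
      · simp [hai]
      · simp [haj]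
      · simp [hbi]
      · simp [hbj]
    · rw [MvPolynomial.aeval_bind₁, ← hab s t]
      congr 1
      congr 1
      funext l
      simp [g])
  have h1 : MvPolynomial.eval y (MvPolynomial.X (Sum.inl i) - 1) = 0 := hy _ (Or.inl (by simp))
  have h2 : MvPolynomial.eval y (MvPolynomial.X (Sum.inl j)) = 0 := hy _ (Or.inl (by simp))
  have h3 : MvPolynomial.eval y (MvPolynomial.X (Sum.inr i)) = 0 := hy _ (Or.inl (by simp))
  have h4 : MvPolynomial.eval y (MvPolynomial.X (Sum.inr j) - 1) = 0 := hy _ (Or.inl (by simp))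
  rw [map_sub, MvPolynomial.eval_X, map_one, sub_eq_zero] at h1 h4
  rw [MvPolynomial.eval_X] at h2 h3
  refine ⟨fun l => y (Sum.inl l), fun l => y (Sum.inr l), ?_, ?_⟩
  · rw [LinearIndependent.pair_iff]
    intro s t hst
    have e1 := congrFun hst i
    have e2 := congrFun hst j
    simp only [Pi.add_apply, Pi.smul_apply, smul_eq_mul, Pi.zero_apply, h1, h2, h3, h4] at e1 e2
    constructor
    · simpa using e1
    · simpa using e2
  · intro s t
    have h5 := hy _ (Or.inr ⟨(s, t), rfl⟩)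
    have h6 : MvPolynomial.eval y (MvPolynomial.bind₁ (g s t) F) =
        MvPolynomial.eval (fun l => MvPolynomial.eval y (g s t l)) F := by
      show MvPolynomial.eval₂Hom (RingHom.id k) y (MvPolynomial.bind₁ (g s t) F) = _
      rw [MvPolynomial.eval₂Hom_bind₁]
      rfl
    rw [← h5]
    show _ = MvPolynomial.eval y (MvPolynomial.bind₁ (g s t) F)
    rw [h6]
    congr 1
    congr 1
    funext l
    simp [g]

private theorem coeffs_zero {k : Type*} [Field k] [Infinite k] (p0 p1 p2 p3 p4 : k)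
    (h : ∀ t : k, p0 + p1 * t + p2 * t ^ 2 + p3 * t ^ 3 + p4 * t ^ 4 = 0) :
    p0 = 0 ∧ p1 = 0 ∧ p2 = 0 ∧ p3 = 0 ∧ p4 = 0 := by
  let P : Polynomial k := Polynomial.C p0 + Polynomial.C p1 *
    Polynomial.X + Polynomial.C p2 * Polynomial.X ^ 2 +
    Polynomial.C p3 * Polynomial.X ^ 3 +
    Polynomial.C p4 * Polynomial.X ^ 4
  have hP : P = 0 := by
    refine Polynomial.funext fun t => ?_
    rw [Polynomial.eval_zero, ← h t]
    simp [P]
  have c : ∀ n, P.coeff n = 0 := fun n => by rw [hP]; simp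
  have c0 := c 0
  have c1 := c 1
  have c2 := c 2
  have c3 := c 3
  have c4 := c 4
  simp [P, Polynomial.coeff_C, Polynomial.coeff_X, Polynomial.coeff_X_pow] at c0 c1 c2 c3 c4
  exact ⟨c0, c1, c2, c3, c4⟩

theorem line_of {k : Type*} [Field k] [IsAlgClosed k] (h2 : (2 : k) ≠ 0) (h3 : (3 : k) ≠ 0)
    {T : Ten k 5} (hT : SymT T) :
    ∃ a b : Fin 5 → k, LinearIndependent k ![a, b] ∧ Line T a b := by
  have : Infinite k := IsAlgClosed.instInfinite
  have hF : (fP T).IsHomogeneous 4 := by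
    unfold fP phi
    refine MvPolynomial.IsHomogeneous.sum _ _ _ fun a _ => MvPolynomial.IsHomogeneous.sum _ _ _
      fun b _ => MvPolynomial.IsHomogeneous.sum _ _ _ fun c _ => MvPolynomial.IsHomogeneous.sum _ _ _
      fun d _ => ?_
    exact ((((MvPolynomial.isHomogeneous_C _ _).mul (MvPolynomial.isHomogeneous_X _ a)).mul
      (MvPolynomial.isHomogeneous_X _ b)).mul (MvPolynomial.isHomogeneous_X _ c)).mul
      (MvPolynomial.isHomogeneous_X _ d)
  obtain ⟨a, b, hab, h⟩ := exists_line (fP T) hF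
  refine ⟨a, b, hab, ?_⟩
  have key : ∀ t : k, phi T a a a a + 4 * t * phi T a a a b + 6 * t ^ 2 * phi T a a b b +
      4 * t ^ 3 * phi T a b b b + t ^ 4 * phi T b b b b = 0 := by
    intro t
    have e1 := h 1 t
    have e2 : MvPolynomial.aeval ((1 : k) • a + t • b) (fP T) = 0 := e1
    rw [aeval_fP, phi_comb hT] at e2
    rw [← e2]
    ring
  have h4 : (4 : k) ≠ 0 := by
    have : (4 : k) = 2 * 2 := by norm_num
    rw [this]
    exact mul_ne_zero h2 h2
  have h6 : (6 : k) ≠ 0 := by
    have : (6 : k) = 2 * 3 := by norm_num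
    rw [this]
    exact mul_ne_zero h2 h3
  obtain ⟨c0, c1, c2, c3, c4⟩ := coeffs_zero (phi T a a a a) (4 * phi T a a a b)
    (6 * phi T a a b b) (4 * phi T a b b b) (phi T b b b b) (fun t => by rw [← key t]; ring)
  exact ⟨c0, (mul_eq_zero.1 c1).resolve_left h4, (mul_eq_zero.1 c2).resolve_left h6,
    (mul_eq_zero.1 c3).resolve_left h4, c4⟩

end Pool.Agent.Helper66.QL
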