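import Pool.Agent.Helper66.QL.Defs

/-!
# QL-20: a monoid section gives a rational surface

PROOF. `T0 = ker (phi x0 x0 x0 ·)` has dimension `4` (`Smo` is not needed: `hS0` says that the form is not `0`) and contains `x0`. `c(v) = phi x0 v v v` depends on `v ∈ T0` only modulo `x0` (expand `c(v + μ x0)`: `phi x0 x0 v v = 0`, `phi x0 x0 x0 v = 0`).
Choose `v1 ∈ T0` with `c(v1) ≠ 0` (`hc`); `x0, v1` are linearly independent (`c(μ x0) = 0`). Complete to a basis `x0, v1, v2, v3` of `T0`. Over `KK k`, `t = tt k`, `s = ss k`: `v = cst v1 + t cst v2 + s cst v3`, `x = cst x0`. `InW T x v`: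
`l(v) = 0`; `q(v) = 0` (polarize `hq`: `phi x0 x0 u w = 0` for `u, w ∈ T0`, `2 ≠ 0`). `c = phi x v v v ≠ 0`: it is the `iota`-image of the same expression over `k[X][X]` (`iota_CX`, `iota_X`, `phi_map`), whose value at `t = s = 0` is
`c(v1) ≠ 0` (evaluate the outer and the inner variable at `0`). `y = resid T x v = f(v) x - 4 c v`, `phi T y y y y = 0` (`phi_resid`). By `QT.exists_dual` for `![x0, v1, v2, v3]` the last three coordinates of `y` are `-4c, -4ct, -4cs`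
(`2 ≠ 0`), so some `y i ≠ 0` and `t, s` are in `adjoin k (range (y_j / y_i))` (`ratio_mem`), which is `⊤` by `gen_top`. See `QT/SurfA.lean`, `QT/SurfB.lean` for the same kind of argument.
-/

set_option autoImplicit false

namespace Pool.Agent.Helper66.QL

open Pool.Agent.Helper72.QT Polynomial

variable {k : Type*} [Field k] {T : Ten k 5}

section aux

variable {R S : Type*} [CommRing R] [Algebra k R] [CommRing S] [Algebra k S]

private def mv (v1 v2 v3 : Fin 5 → k) (t s : R) : Fin 5 → R :=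
  cst R v1 + t • cst R v2 + s • cst R v3

private def mc (T : Ten k 5) (x0 v1 v2 v3 : Fin 5 → k) (t s : R) : R :=
  phi T (cst R x0) (mv v1 v2 v3 t s) (mv v1 v2 v3 t s) (mv v1 v2 v3 t s)

private theorem mv_map (g : R →ₐ[k] S) (v1 v2 v3 : Fin 5 → k) (t s : R) :
    (fun i => g (mv v1 v2 v3 t s i)) = mv v1 v2 v3 (g t) (g s) := by
  funext i
  simp only [mv, cst, Pi.add_apply, Pi.smul_apply, smul_eq_mul, map_add, map_mul]
  rw [g.commutes, g.commutes, g.commutes]

private theorem mc_map (T : Ten k 5) (g : R →ₐ[k] S) (x0 v1 v2 v3 : Fin 5 → k) (t s : R) :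
    g (mc T x0 v1 v2 v3 t s) = mc T x0 v1 v2 v3 (g t) (g s) := by
  unfold mc
  rw [← phi_map, mv_map, cst_map]

private theorem mc_zero (T : Ten k 5) (x0 v1 v2 v3 : Fin 5 → k) :
    mc T x0 v1 v2 v3 (0 : k) (0 : k) = phi T x0 v1 v1 v1 := by
  have h : mv v1 v2 v3 (0 : k) (0 : k) = v1 := by
    unfold mv
    rw [zero_smul, zero_smul, add_zero, add_zero, cst_self]
  unfold mc
  rw [h, cst_self]

end aux

/-- evaluation at `(0, 0)` -/
private noncomputable def ev0 (k : Type*) [Field k] : k[X][X] →ₐ[k] k :=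
  (Polynomial.aeval (0 : k)).comp ((Polynomial.aeval (0 : k[X])).restrictScalars k)

private theorem ev0_t : ev0 k (C X) = 0 := by
  simp [ev0]

private theorem ev0_s : ev0 k X = 0 := by
  simp [ev0]

private theorem mc_ne (x0 v1 v2 v3 : Fin 5 → k) (hc : phi T x0 v1 v1 v1 ≠ 0) :
    mc T x0 v1 v2 v3 (tt k) (ss k) ≠ 0 := by
  intro h
  have h1 : iota k (mc T x0 v1 v2 v3 (C X) X) = iota k 0 := by
    rw [mc_map, iota_CX, iota_X, h, map_zero]
  have h2 := iota_injective h1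
  have h3 := congrArg (ev0 k) h2
  rw [mc_map, ev0_t, ev0_s, map_zero, mc_zero] at h3
  exact hc h3

private theorem exists_fam (ψ : (Fin 5 → k) →ₗ[k] k) (x0 v1 : Fin 5 → k)
    (li : LinearIndependent k ![x0, v1]) (h0 : ψ x0 = 0) (h1 : ψ v1 = 0) :
    ∃ v2 v3, ψ v2 = 0 ∧ ψ v3 = 0 ∧ LinearIndependent k ![x0, v1, v2, v3] := by
  have hr : Module.finrank k (LinearMap.range ψ) ≤ 1 := by
    have := Submodule.finrank_le (LinearMap.range ψ)
    rwa [Module.finrank_self] at this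
  have hk : 4 ≤ Module.finrank k (LinearMap.ker ψ) := by
    have := ψ.finrank_range_add_finrank_ker
    rw [Module.finrank_fin_fun] at this
    omega
  have li' : LinearIndependent k ![(⟨x0, h0⟩ : LinearMap.ker ψ), ⟨v1, h1⟩] := by
    refine LinearIndependent.of_comp (LinearMap.ker ψ).subtype ?_
    have e : (LinearMap.ker ψ).subtype ∘ ![(⟨x0, h0⟩ : LinearMap.ker ψ), ⟨v1, h1⟩] =
        ![x0, v1] := by
      funext i
      fin_cases i <;> rfl
    rw [e]
    exact li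
  obtain ⟨w2, hw2⟩ := exists_linearIndependent_snoc_of_lt_finrank li' (by omega)
  obtain ⟨w3, hw3⟩ := exists_linearIndependent_snoc_of_lt_finrank hw2 (by omega)
  refine ⟨w2, w3, w2.2, w3.2, ?_⟩
  have h := hw3.map' (LinearMap.ker ψ).subtype (Submodule.ker_subtype _)
  have e : ![x0, v1, (w2 : Fin 5 → k), (w3 : Fin 5 → k)] = (LinearMap.ker ψ).subtype ∘
      Fin.snoc (α := fun _ => LinearMap.ker ψ) (Fin.snoc (α := fun _ => LinearMap.ker ψ)
        ![(⟨x0, h0⟩ : LinearMap.ker ψ), ⟨v1, h1⟩] w2) w3 := by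
    funext i
    fin_cases i <;> rfl
  rw [e]
  exact h

theorem mono (h2 : (2 : k) ≠ 0) (hT : SymT T) (x0 : Fin 5 → k) (hx : x0 ≠ 0)
    (hf : phi T x0 x0 x0 x0 = 0) (hS0 : ∃ v, phi T x0 x0 x0 v ≠ 0)
    (hq : ∀ v, phi T x0 x0 x0 v = 0 → phi T x0 x0 v v = 0)
    (hc : ∃ v, phi T x0 x0 x0 v = 0 ∧ phi T x0 v v v ≠ 0) : ContRat T := by
  obtain ⟨v1, hv1, hc1⟩ := hc
  have li0 : LinearIndependent k ![x0, v1] := by
    rw [LinearIndependent.pair_iff' hx]
    intro μ hμ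
    apply hc1
    rw [← hμ]
    simp only [phi_smul2, phi_smul3, phi_smul4, hf, mul_zero]
  obtain ⟨v2, v3, hv2, hv3, li⟩ := exists_fam
    { toFun := fun v => phi T x0 x0 x0 v
      map_add' := fun u w => phi_add4 T x0 x0 x0 u w
      map_smul' := fun c u => phi_smul4 T c x0 x0 x0 u } x0 v1 li0 hf hv1
  change phi T x0 x0 x0 v2 = 0 at hv2
  change phi T x0 x0 x0 v3 = 0 at hv3
  have hpol : ∀ u w, phi T x0 x0 x0 u = 0 → phi T x0 x0 x0 w = 0 → phi T x0 x0 u w = 0 := by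
    intro u w hu hw
    have h := hq (u + w) (by rw [phi_add4, hu, hw, add_zero])
    rw [phi_add3, phi_add4, phi_add4, hq u hu, hq w hw, phi_s34 hT x0 x0 w u] at h
    have h' : 2 * phi T x0 x0 u w = 0 := by linear_combination h
    exact (mul_eq_zero.1 h').resolve_left h2
  obtain ⟨a, ha⟩ := exists_dual _ li
  obtain ⟨t, ht⟩ : ∃ t, t = tt k := ⟨_, rfl⟩
  obtain ⟨s, hs⟩ : ∃ s, s = ss k := ⟨_, rfl⟩
  have h20 : (2 : KK k) ≠ 0 := by
    have h3 : algebraMap k (KK k) 2 ≠ 0 := (_root_.map_ne_zero _).2 h2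
    rwa [map_ofNat] at h3
  obtain ⟨v, hv⟩ : ∃ v : Fin 5 → KK k, v = mv v1 v2 v3 t s := ⟨_, rfl⟩
  obtain ⟨c, hcc⟩ : ∃ c, c = mc T x0 v1 v2 v3 t s := ⟨_, rfl⟩
  have hc0 : c ≠ 0 := by
    rw [hcc, ht, hs]
    exact mc_ne x0 v1 v2 v3 hc1
  have hcv : phi T (cst (KK k) x0) v v v = c := by
    rw [hcc, hv]
    rfl
  have hin : InW T (cst (KK k) x0) v := by
    refine ⟨?_, ?_, ?_⟩
    · rw [phi_cst, hf, map_zero]
    · rw [hv]
      unfold mv
      rw [phi_add4, phi_add4, phi_smul4, phi_smul4, phi_cst, phi_cst, phi_cst, hv1, hv2, hv3,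
        map_zero]
      ring
    · rw [hv]
      unfold mv
      simp only [phi_add3, phi_add4, phi_smul3, phi_smul4, phi_cst, hpol _ _ hv1 hv1,
        hpol _ _ hv1 hv2, hpol _ _ hv1 hv3, hpol _ _ hv2 hv1, hpol _ _ hv2 hv2, hpol _ _ hv2 hv3,
        hpol _ _ hv3 hv1, hpol _ _ hv3 hv2, hpol _ _ hv3 hv3, map_zero, mul_zero, add_zero]
  obtain ⟨y, hy⟩ : ∃ y, y = resid T (cst (KK k) x0) v := ⟨_, rfl⟩
  obtain ⟨D, hD⟩ : ∃ D, D = -(4 * c) := ⟨_, rfl⟩
  have hD0 : D ≠ 0 := by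
    have h4 : (4 : KK k) = 2 * 2 := by norm_num
    rw [hD, h4]
    exact neg_ne_zero.2 (mul_ne_zero (mul_ne_zero h20 h20) hc0)
  obtain ⟨cf, hcf⟩ : ∃ cf : Fin 4 → KK k, cf = ![phi T v v v v, D, D * t, D * s] := ⟨_, rfl⟩
  have hcomb : ∀ j, y j = ∑ q, cf q * algebraMap k (KK k) (![x0, v1, v2, v3] q j) := by
    intro j
    rw [hy, hcf, Fin.sum_univ_four]
    unfold resid
    rw [hcv, hv]
    simp only [mv, cst, Pi.sub_apply, Pi.smul_apply, Pi.add_apply, smul_eq_mul, Matrix.cons_val]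
    rw [hD]
    ring
  have hdual : ∀ p, ∑ j, algebraMap k (KK k) (a p j) * y j = cf p := by
    intro p
    rw [← ha cf p]
    exact Finset.sum_congr rfl fun j _ => by rw [hcomb j]
  have hd2 : ∑ j, algebraMap k (KK k) (a 1 j) * y j = D := by
    rw [hdual 1, hcf]
    rfl
  have hd3 : ∑ j, algebraMap k (KK k) (a 2 j) * y j = D * t := by
    rw [hdual 2, hcf]
    rfl
  have hd4 : ∑ j, algebraMap k (KK k) (a 3 j) * y j = D * s := by
    rw [hdual 3, hcf]
    rfl
  obtain ⟨i, hi⟩ : ∃ i, y i ≠ 0 := by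
    by_contra hno
    push Not at hno
    refine hD0 ?_
    rw [← hd2]
    exact Finset.sum_eq_zero fun j _ => by rw [hno j, mul_zero]
  refine ⟨y, ?_, i, hi, ?_⟩
  · rw [hy]
    exact phi_resid hT hin
  · refine gen_top _ ?_ ?_
    · have h3 := ratio_mem y i hi (a 3) (a 1)
      rw [hd4, hd2, mul_div_cancel_left₀ _ hD0, hs] at h3
      exact h3
    · have h3 := ratio_mem y i hi (a 2) (a 1)
      rw [hd3, hd2, mul_div_cancel_left₀ _ hD0, ht] at h3
      exact h3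

end Pool.Agent.Helper66.QL
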