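import Mathlib

/-!
# QL-16: a root of the Wronskian is a zero of `h`

PROOF. `π = X - C t0` divides `W` exactly `e` times, `1 ≤ e ≤ 4` (`rootMultiplicity`, `exists_eq_pow_rootMultiplicity_mul_and_not_dvd`, `natDegree W ≤ 4`): `W = π^e W1`, `W1(t0) ≠ 0`. `W' = π^(e-1) (e W1 + π W1')` and
`(e W1 + π W1')(t0) = e W1(t0) ≠ 0` because `e ∈ {1, 2, 3, 4}` is not zero in `k` (`2, 3 ≠ 0`). In `k[X][X]` (constants `C`): `C W ∣ h² C W'` gives, after cancelling `C π^(e-1)`, `C π ∣ h² C (e W1 + π W1')`. `C π` is prime in `k[X][X]`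
(`Polynomial.prime_C_iff`, `prime_X_sub_C`) and does not divide `C (e W1 + π W1')` (`Polynomial.C_dvd_iff_dvd_coeff`, evaluate at `t0`), so it divides `h`: `π ∣ h.coeff n` for all `n` (`C_dvd_iff_dvd_coeff`), i.e. `(h.coeff n).eval t0 = 0`
(`dvd_iff_isRoot`).
-/

set_option autoImplicit false

namespace Pool.Agent.Helper66.QL

open Polynomial

variable {k : Type*} [Field k]

theorem root_h (h2 : (2 : k) ≠ 0) (h3 : (3 : k) ≠ 0) (W : k[X]) (hW : W ≠ 0)
    (hd : W.natDegree ≤ 4) (t0 : k) (ht0 : W.eval t0 = 0) (h : k[X][X])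
    (hdiv : C W ∣ h ^ 2 * C (derivative W)) : ∀ n, (h.coeff n).eval t0 = 0 := by
  obtain ⟨W1, hW1, hnd⟩ := exists_eq_pow_rootMultiplicity_mul_and_not_dvd W hW t0
  have hroot : W.IsRoot t0 := ht0
  have hpos : 0 < W.rootMultiplicity t0 := (rootMultiplicity_pos hW).2 hroot
  obtain ⟨m, hm⟩ : ∃ m, W.rootMultiplicity t0 = m + 1 := ⟨W.rootMultiplicity t0 - 1, by omega⟩
  rw [hm] at hW1
  have hW10 : W1 ≠ 0 := by
    rintro rfl
    exact hnd (dvd_zero _)
  have hπ0 : (X - C t0 : k[X]) ≠ 0 := X_sub_C_ne_zero t0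
  have hm4 : m + 1 ≤ 4 := by
    have h1 : W.natDegree = (m + 1) + W1.natDegree := by
      conv_lhs => rw [hW1]
      rw [natDegree_mul (pow_ne_zero _ hπ0) hW10, natDegree_pow, natDegree_X_sub_C, mul_one]
    omega
  have hmk : ((m + 1 : ℕ) : k) ≠ 0 := by
    have h4 : (4 : k) ≠ 0 := by
      have : (4 : k) = 2 * 2 := by norm_num
      rw [this]
      exact mul_ne_zero h2 h2
    have hcases : m = 0 ∨ m = 1 ∨ m = 2 ∨ m = 3 := by omega
    rcases hcases with rfl | rfl | rfl | rfl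
    · simp
    · exact_mod_cast h2
    · exact_mod_cast h3
    · exact_mod_cast h4
  obtain ⟨V, hV⟩ : ∃ V : k[X], V = C ((m + 1 : ℕ) : k) * W1 + (X - C t0) * derivative W1 :=
    ⟨_, rfl⟩
  have hVe : V.eval t0 ≠ 0 := by
    rw [hV]
    simp only [eval_add, eval_mul, eval_C, eval_sub, eval_X, sub_self, zero_mul, add_zero]
    refine mul_ne_zero hmk fun h0 => hnd ?_
    exact dvd_iff_isRoot.2 h0
  have hdW : derivative W = (X - C t0) ^ m * V := by
    rw [hV, hW1, derivative_mul, derivative_pow, derivative_X_sub_C]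
    simp only [Nat.add_sub_cancel, mul_one]
    ring
  have hCm : (C ((X - C t0) ^ m) : k[X][X]) ≠ 0 := by
    rw [Ne, C_eq_zero]
    exact pow_ne_zero _ hπ0
  have h5 : C (X - C t0) * C W1 ∣ h ^ 2 * C V := by
    have h6 : C ((X - C t0) ^ m) * (C (X - C t0) * C W1) ∣ C ((X - C t0) ^ m) * (h ^ 2 * C V) := by
      have h7 : C ((X - C t0) ^ m) * (C (X - C t0) * C W1) = (C W : k[X][X]) := by
        rw [← C_mul, ← C_mul, hW1]
        congr 1
        ring
      have h8 : C ((X - C t0) ^ m) * (h ^ 2 * C V) = h ^ 2 * C (derivative W) := by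
        rw [hdW, C_mul]
        ring
      rw [h7, h8]
      exact hdiv
    exact (mul_dvd_mul_iff_left hCm).1 h6
  have h9 : (C (X - C t0) : k[X][X]) ∣ h ^ 2 * C V := (dvd_mul_right _ _).trans h5
  have hprime : Prime (C (X - C t0) : k[X][X]) := prime_C_iff.2 (prime_X_sub_C t0)
  have hh : (C (X - C t0) : k[X][X]) ∣ h := by
    rcases hprime.dvd_or_dvd h9 with h10 | h10
    · exact hprime.dvd_of_dvd_pow h10
    · exfalso
      have h11 := (C_dvd_iff_dvd_coeff _ _).1 h10 0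
      rw [coeff_C_zero] at h11
      exact hVe (dvd_iff_isRoot.1 h11)
  intro n
  exact dvd_iff_isRoot.1 ((C_dvd_iff_dvd_coeff _ _).1 hh n)

end Pool.Agent.Helper66.QL
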