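import Mathlib

/-!
# QL-15: the Wronskian of two binary cubic forms without common zero

Write `g1 i = G1.coeff i`, `g2 i = G2.coeff i`, `[i j] = g1 i * g2 j - g1 j * g2 i`. The coefficients of `W = G2 G1' - G1 G2'` are `[1 0]`, `2 [2 0]`, `3 [3 0] + [2 1]`, `2 [3 1]`, `[3 2]` in degrees `0, 1, 2, 3, 4`
(write `G1 = C g10 + C g11 X + C g12 X² + C g13 X³`, `Polynomial.as_sum_range'` or `ext` with `coeff` lemmas).

PROOF. (1) `W.natDegree ≤ 4` from this formula. (2) Suppose `W` is a constant (possibly `0`), i.e. `2 [2 0] = 0`, `3 [3 0] + [2 1] = 0`, `2 [3 1] = 0`, `[3 2] = 0`. The identity `[1 0] [3 2] - [2 0] [3 1] + [3 0] [2 1] = 0` (`ring`) gives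
`[3 0] [2 1] = 0`, so with `3 [3 0] = - [2 1]`: `[3 0] = [2 1] = 0`. If `[1 0] ≠ 0`: `g1 3 [1 0] = g1 1 [3 0] - g1 0 [3 1]`-type identities (`g1 3 * [1 0] = g1 1 * [3 0] - g1 0 * [3 1]`, same for `g2`; check the
signs, `linear_combination`) give `g1 3 = g2 3 = 0`, contradiction to `hinf`. If `[1 0] = 0` then all `[i j] = 0`, so `G1`, `G2` are proportional: `α G1 = β G2`, `(α, β) ≠ 0` (for instance `g2 3 * G1 = g1 3 * G2`, with
`(g1 3, g2 3) ≠ 0` by `hinf`). Say `g1 3 ≠ 0` (the other case is symmetric): `G1` has degree `3`, has a root `r` (`k` algebraically closed), and `g1 3 * G2 (r) = g2 3 * G1 (r) = 0`, so `r` is a common root, contradiction to `hroot`.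
(3) So `W` is not constant: `W ≠ 0`, and it has a root (`IsAlgClosed.exists_root`, degree `≠ 0`).
-/

set_option autoImplicit false

namespace Pool.Agent.Helper66.QL

open Polynomial

variable {k : Type*} [Field k] [IsAlgClosed k]

omit [IsAlgClosed k] in
private theorem cubic_eq (G : k[X]) (d : G.natDegree ≤ 3) :
    G = C (G.coeff 0) + C (G.coeff 1) * X + C (G.coeff 2) * X ^ 2 + C (G.coeff 3) * X ^ 3 := by
  have h := G.as_sum_range' 4 (by omega)
  conv_lhs => rw [h]
  simp only [Finset.sum_range_succ, Finset.sum_range_zero, ← C_mul_X_pow_eq_monomial, pow_zero,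
    mul_one, pow_one, zero_add]

omit [IsAlgClosed k] in
private theorem wr_eq (a0 a1 a2 a3 b0 b1 b2 b3 : k) (G1 G2 : k[X])
    (e1 : G1 = C a0 + C a1 * X + C a2 * X ^ 2 + C a3 * X ^ 3)
    (e2 : G2 = C b0 + C b1 * X + C b2 * X ^ 2 + C b3 * X ^ 3) :
    G2 * derivative G1 - G1 * derivative G2 =
      C (a1 * b0 - a0 * b1) + C (2 * (a2 * b0 - a0 * b2)) * X +
        C (3 * (a3 * b0 - a0 * b3) + (a2 * b1 - a1 * b2)) * X ^ 2 +
        C (2 * (a3 * b1 - a1 * b3)) * X ^ 3 + C (a3 * b2 - a2 * b3) * X ^ 4 := by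
  subst e1 e2
  simp only [derivative_add, derivative_mul, derivative_C, derivative_X, derivative_X_pow, map_sub,
    map_mul, map_add, zero_mul, zero_add, mul_one, Nat.cast_ofNat, C_ofNat]
  norm_num
  ring

omit [IsAlgClosed k] in
private theorem quartic_coeff (c0 c1 c2 c3 c4 : k) :
    (C c0 + C c1 * X + C c2 * X ^ 2 + C c3 * X ^ 3 + C c4 * X ^ 4).coeff 1 = c1 ∧
    (C c0 + C c1 * X + C c2 * X ^ 2 + C c3 * X ^ 3 + C c4 * X ^ 4).coeff 2 = c2 ∧
    (C c0 + C c1 * X + C c2 * X ^ 2 + C c3 * X ^ 3 + C c4 * X ^ 4).coeff 3 = c3 ∧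
    (C c0 + C c1 * X + C c2 * X ^ 2 + C c3 * X ^ 3 + C c4 * X ^ 4).coeff 4 = c4 := by
  refine ⟨?_, ?_, ?_, ?_⟩ <;>
    simp [coeff_X, coeff_C, coeff_X_pow, coeff_C_mul]

theorem wr_root (h2 : (2 : k) ≠ 0) (h3 : (3 : k) ≠ 0) (G1 G2 : k[X]) (d1 : G1.natDegree ≤ 3)
    (d2 : G2.natDegree ≤ 3) (hroot : ∀ t, ¬ (G1.eval t = 0 ∧ G2.eval t = 0))
    (hinf : ¬ (G1.coeff 3 = 0 ∧ G2.coeff 3 = 0)) :
    G2 * derivative G1 - G1 * derivative G2 ≠ 0 ∧
      (G2 * derivative G1 - G1 * derivative G2).natDegree ≤ 4 ∧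
      ∃ t, (G2 * derivative G1 - G1 * derivative G2).eval t = 0 := by
  have e1 := cubic_eq G1 d1
  have e2 := cubic_eq G2 d2
  set a0 := G1.coeff 0 with ha0
  set a1 := G1.coeff 1 with ha1
  set a2 := G1.coeff 2 with ha2
  set a3 := G1.coeff 3 with ha3
  set b0 := G2.coeff 0 with hb0
  set b1 := G2.coeff 1 with hb1
  set b2 := G2.coeff 2 with hb2
  set b3 := G2.coeff 3 with hb3
  have hW := wr_eq a0 a1 a2 a3 b0 b1 b2 b3 G1 G2 e1 e2
  obtain ⟨W, hWd⟩ : ∃ W, W = G2 * derivative G1 - G1 * derivative G2 := ⟨_, rfl⟩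
  rw [← hWd] at hW ⊢
  -- the key: `W` is not constant
  have key : ¬ (2 * (a2 * b0 - a0 * b2) = 0 ∧ 3 * (a3 * b0 - a0 * b3) + (a2 * b1 - a1 * b2) = 0 ∧
      2 * (a3 * b1 - a1 * b3) = 0 ∧ a3 * b2 - a2 * b3 = 0) := by
    rintro ⟨c1, c2, c3, c4⟩
    have c1' : a2 * b0 - a0 * b2 = 0 := (mul_eq_zero.1 c1).resolve_left h2
    have c3' : a3 * b1 - a1 * b3 = 0 := (mul_eq_zero.1 c3).resolve_left h2
    have p1 : (a3 * b0 - a0 * b3) * (a2 * b1 - a1 * b2) = 0 := by
      linear_combination (-(a1 * b0 - a0 * b1)) * c4 + (a3 * b1 - a1 * b3) * c1'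
    have c30 : a3 * b0 - a0 * b3 = 0 := by
      rcases mul_eq_zero.1 p1 with h | h
      · exact h
      · rw [h, add_zero] at c2
        exact (mul_eq_zero.1 c2).resolve_left h3
    have c21 : a2 * b1 - a1 * b2 = 0 := by
      rw [c30, mul_zero, zero_add] at c2
      exact c2
    by_cases h10 : a1 * b0 - a0 * b1 = 0
    · -- proportional
      have prop1 : C b3 * G1 = C a3 * G2 := by
        rw [e1, e2]
        have q0 : b3 * a0 = a3 * b0 := by linear_combination -c30
        have q1 : b3 * a1 = a3 * b1 := by linear_combination -c3'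
        have q2 : b3 * a2 = a3 * b2 := by linear_combination -c4
        have r0 := congrArg (C : k → k[X]) q0
        have r1 := congrArg (C : k → k[X]) q1
        have r2 := congrArg (C : k → k[X]) q2
        simp only [map_mul] at r0 r1 r2
        linear_combination r0 + r1 * X + r2 * X ^ 2
      by_cases h3a : a3 = 0
      · have h3b : b3 ≠ 0 := fun h => hinf ⟨h3a, h⟩
        have hdeg : G2.degree ≠ 0 := by
          intro h
          have hh := natDegree_eq_of_degree_eq_some h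
          have : G2.coeff 3 = 0 := coeff_eq_zero_of_natDegree_lt (by rw [hh]; norm_num)
          exact h3b this
        obtain ⟨r, hr⟩ := IsAlgClosed.exists_root G2 hdeg
        have hr' : G2.eval r = 0 := hr
        have hh := congrArg (eval r) prop1
        rw [eval_mul, eval_mul, eval_C, eval_C, hr', mul_zero] at hh
        exact hroot r ⟨(mul_eq_zero.1 hh).resolve_left h3b, hr'⟩
      · have hdeg : G1.degree ≠ 0 := by
          intro h
          have hh := natDegree_eq_of_degree_eq_some h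
          have : G1.coeff 3 = 0 := coeff_eq_zero_of_natDegree_lt (by rw [hh]; norm_num)
          exact h3a this
        obtain ⟨r, hr⟩ := IsAlgClosed.exists_root G1 hdeg
        have hr' : G1.eval r = 0 := hr
        have hh := congrArg (eval r) prop1
        rw [eval_mul, eval_mul, eval_C, eval_C, hr', mul_zero] at hh
        exact hroot r ⟨hr', (mul_eq_zero.1 hh.symm).resolve_left h3a⟩
    · apply hinf
      constructor
      · have : a3 * (a1 * b0 - a0 * b1) = 0 := by
          linear_combination a1 * c30 - a0 * c3'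
        exact (mul_eq_zero.1 this).resolve_right h10
      · have : b3 * (a1 * b0 - a0 * b1) = 0 := by
          linear_combination b1 * c30 - b0 * c3'
        exact (mul_eq_zero.1 this).resolve_right h10
  have hq := quartic_coeff (a1 * b0 - a0 * b1) (2 * (a2 * b0 - a0 * b2))
    (3 * (a3 * b0 - a0 * b3) + (a2 * b1 - a1 * b2)) (2 * (a3 * b1 - a1 * b3)) (a3 * b2 - a2 * b3)
  rw [← hW] at hq
  obtain ⟨hcoeff1, hcoeff2, hcoeff3, hcoeff4⟩ := hq
  have hnd : W.natDegree ≠ 0 := by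
    intro h
    apply key
    rw [← hcoeff1, ← hcoeff2, ← hcoeff3, ← hcoeff4]
    refine ⟨?_, ?_, ?_, ?_⟩ <;> exact coeff_eq_zero_of_natDegree_lt (by rw [h]; norm_num)
  refine ⟨?_, ?_, ?_⟩
  · rintro rfl
    exact hnd natDegree_zero
  · rw [hW]
    compute_degree
  · have hdeg : W.degree ≠ 0 := fun h => hnd (natDegree_eq_of_degree_eq_some h)
    obtain ⟨r, hr⟩ := IsAlgClosed.exists_root W hdeg
    exact ⟨r, hr⟩

end Pool.Agent.Helper66.QL
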