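import Pool.Agent.Helper66.QL.Two
import Pool.Agent.Helper66.QL.Wr

/-!
# QL-18: STEP 2, the hypotheses of `surf` and the Wronskian

PROOF of `wr_two`: `wr_root` for `G1 = Gp e1`, `G2 = Gp e2` (`natDegree_Gp`): if both vanish at `t` then `phi x0 x0 x0 v = 0` (`x0 = a + t b`) for the basis vectors `v = a, b` (`Line`; `l_eq` over `k` with `lam_a`, `lam_b`), `w` (`lw'`), `e1`, `e2`
(`eval_Gp`), so for all `v` (`ind` spans, `phi_add4`, `phi_smul4`), and `x0 ≠ 0` (`ind`), contradiction to `Smo`; if both coefficients at `3` vanish, the same with `x0 = b` (`coeff_Gp`: `lam 3`).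
PROOF of `gne2`: `3 g(u) = iota`-image or `jR`-image of `Wr ≠ 0`: `g(u) = g(toK (toR P)) + s g(cst w) = jR (algebraMap (g(P)))` (`gw'`, `phi_toK`, `gPP`), injectivity of `algebraMap k[X] (RatFunc k)` and of `jR`.
PROOF of `ind2`: let `α a + β b + γ P + δ w = 0` over `RatFunc k`, `P = G2 e1 - G1 e2`. `a, b, w, e1, e2` are linearly independent over `RatFunc k` (extension of fields: the determinant or `LinearIndependent` base change, or dual forms
over `k` as in `QT.exists_dual`), so `α = β = δ = 0`, `γ G2 = γ G1 = 0`, and `G1`, `G2` are not both `0` (`wr_two`), so `γ = 0`.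
PROOF of `lw2`: `lw'` for `xR`.
-/

set_option autoImplicit false

namespace Pool.Agent.Helper66.QL

open Pool.Agent.Helper72.QT Polynomial

variable {k : Type*} [Field k] [IsAlgClosed k] {T : Ten k 5}

omit [IsAlgClosed k] in
private theorem ts_span {a b w e1 e2 : Fin 5 → k} (h : LinearIndependent k ![a, b, w, e1, e2])
    (v : Fin 5 → k) : ∃ c : Fin 5 → k, v = c 0 • a + c 1 • b + c 2 • w + c 3 • e1 + c 4 • e2 := by
  have h1 : Submodule.span k (Set.range ![a, b, w, e1, e2]) = ⊤ :=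
    h.span_eq_top_of_card_eq_finrank (by rw [Fintype.card_fin, Module.finrank_fin_fun])
  have h2 : v ∈ Submodule.span k (Set.range ![a, b, w, e1, e2]) := by
    rw [h1]
    exact Submodule.mem_top
  rw [Submodule.mem_span_range_iff_exists_fun] at h2
  obtain ⟨c, hc⟩ := h2
  refine ⟨c, ?_⟩
  rw [← hc, Fin.sum_univ_five]
  rfl

omit [IsAlgClosed k] in
private theorem ts_kill (hS : Smo T) {a b w e1 e2 : Fin 5 → k}
    (h : LinearIndependent k ![a, b, w, e1, e2]) {x : Fin 5 → k} (hx : x ≠ 0)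
    (ha : phi T x x x a = 0) (hb : phi T x x x b = 0) (hw : phi T x x x w = 0)
    (h1 : phi T x x x e1 = 0) (h2 : phi T x x x e2 = 0) : False := by
  obtain ⟨v, hv⟩ := hS x hx
  obtain ⟨c, hc⟩ := ts_span h v
  apply hv
  rw [hc]
  simp only [phi_add4, phi_smul4, ha, hb, hw, h1, h2]
  ring

omit [IsAlgClosed k] in
private theorem ts_pair {a b w e1 e2 : Fin 5 → k} (h : LinearIndependent k ![a, b, w, e1, e2])
    (s t : k) (hst : s • a + t • b = 0) : s = 0 ∧ t = 0 := by
  rw [Fintype.linearIndependent_iff] at h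
  have h1 := h ![s, t, 0, 0, 0] (by
    rw [Fin.sum_univ_five]
    simpa using hst)
  exact ⟨h1 0, h1 1⟩

omit [IsAlgClosed k] in
private theorem ts_base {a b w e1 e2 : Fin 5 → k} (h : LinearIndependent k ![a, b, w, e1, e2]) :
    LinearIndependent (RatFunc k) ![cst (RatFunc k) a, cst (RatFunc k) b, cst (RatFunc k) w,
      cst (RatFunc k) e1, cst (RatFunc k) e2] := by
  set M : Matrix (Fin 5) (Fin 5) k := Matrix.of ![a, b, w, e1, e2] with hM
  have h1 : IsUnit M := by
    rw [← Matrix.linearIndependent_rows_iff_isUnit]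
    exact h
  have h2 : IsUnit ((algebraMap k (RatFunc k)).mapMatrix M) := h1.map _
  rw [← Matrix.linearIndependent_rows_iff_isUnit] at h2
  convert h2 using 1
  funext i j
  fin_cases i <;> rfl

theorem wr_two (h2 : (2 : k) ≠ 0) (h3 : (3 : k) ≠ 0) (hT : SymT T) (hS : Smo T)
    {a b w e1 e2 : Fin 5 → k} (hD : Two T a b w e1 e2) :
    Wr T a b e1 e2 ≠ 0 ∧ (Wr T a b e1 e2).natDegree ≤ 4 ∧ ∃ t, (Wr T a b e1 e2).eval t = 0 := by
  refine wr_root h2 h3 (Gp T a b e1) (Gp T a b e2) (natDegree_Gp hT a b e1) (natDegree_Gp hT a b e2)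
    ?_ ?_
  · rintro t ⟨g1, g2⟩
    rw [eval_Gp] at g1 g2
    have hx : a + t • b ≠ 0 := by
      intro h0
      have h1 := ts_pair hD.ind 1 t (by rw [one_smul]; exact h0)
      exact one_ne_zero h1.1
    have hla : ∀ u : Fin 5 → k, (∀ i, lam T a b i u = 0) →
        phi T (a + t • b) (a + t • b) (a + t • b) u = 0 := by
      intro u hu
      have e := l_eq (R := k) hT a b t u
      rw [hu, hu, hu, hu] at e
      refine Eq.trans ?_ (e.trans (by ring))
      rfl
    exact ts_kill hS hD.ind hx (hla a fun i => lam_a (R := k) hT hD.line i)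
      (hla b fun i => lam_b (R := k) hD.line i) (hla w hD.lw) g1 g2
  · rintro ⟨g1, g2⟩
    rw [coeff_Gp hT] at g1 g2
    have hx : b ≠ 0 := by
      intro h0
      have h1 := ts_pair hD.ind 0 1 (by rw [h0, smul_zero, zero_smul, add_zero])
      exact one_ne_zero h1.2
    exact ts_kill hS hD.ind hx (lam_a (R := k) hT hD.line 3) (lam_b (R := k) hD.line 3) (hD.lw 3)
      g1 g2

theorem gne2 (h2 : (2 : k) ≠ 0) (h3 : (3 : k) ≠ 0) (hT : SymT T) (hS : Smo T)
    {a b w e1 e2 : Fin 5 → k} (hD : Two T a b w e1 e2) :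
    phi T (xK a b) (xK a b) (cst (KK k) b)
      (uu (toR (PP T a b e1 e2)) (cst (RatFunc k) w)) ≠ 0 := by
  intro h0
  have hW := (wr_two h2 h3 hT hS hD).1
  apply hW
  have q1 : phi T (xK a b) (xK a b) (cst (KK k) b) (toK (cst (RatFunc k) w)) = 0 := by
    rw [toK_cst]
    exact gw' hT hD.lw (tt k)
  have q2 : phi T (xK a b) (xK a b) (cst (KK k) b) (toK (toR (PP T a b e1 e2))) =
      jR k (phi T (xR a b) (xR a b) (cst (RatFunc k) b) (toR (PP T a b e1 e2))) := by
    rw [← toK_pt, ← toK_cst, phi_toK]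
  have e : (fun i => algebraMap k[X] (RatFunc k) (pt a b X i)) = xR a b := by
    have h := pt_map (IsScalarTower.toAlgHom k k[X] (RatFunc k)) a b X
    have h2 : IsScalarTower.toAlgHom k k[X] (RatFunc k) X = RatFunc.X := RatFunc.algebraMap_X
    rw [h2] at h
    exact h
  have ec : (fun i => algebraMap k[X] (RatFunc k) (cst k[X] b i)) = cst (RatFunc k) b :=
    cst_map (IsScalarTower.toAlgHom k k[X] (RatFunc k)) b
  have q3 : phi T (xR a b) (xR a b) (cst (RatFunc k) b) (toR (PP T a b e1 e2)) =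
      algebraMap k[X] (RatFunc k) (phi T (pt a b X) (pt a b X) (cst k[X] b) (PP T a b e1 e2)) := by
    have h := phi_algebraMap T (R := k[X]) (S := RatFunc k) (pt a b X) (pt a b X) (cst k[X] b)
      (PP T a b e1 e2)
    rw [e, ec] at h
    exact h
  rw [uu, phi_add4, phi_smul4, q1, mul_zero, add_zero, q2, q3] at h0
  have h4 := (map_eq_zero_iff _ (jR k).injective).1 h0
  have h5 := (map_eq_zero_iff _ (RatFunc.algebraMap_injective k)).1 h4
  rw [← gPP hT, h5, mul_zero]

theorem ind2 (h2 : (2 : k) ≠ 0) (h3 : (3 : k) ≠ 0) (hT : SymT T) (hS : Smo T)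
    {a b w e1 e2 : Fin 5 → k} (hD : Two T a b w e1 e2) :
    LinearIndependent (RatFunc k) ![cst (RatFunc k) a, cst (RatFunc k) b,
      toR (PP T a b e1 e2), cst (RatFunc k) w] := by
  have hW := (wr_two h2 h3 hT hS hD).1
  have hI := ts_base hD.ind
  rw [Fintype.linearIndependent_iff] at hI ⊢
  intro c hc
  set G1 := algebraMap k[X] (RatFunc k) (Gp T a b e1) with hG1
  set G2 := algebraMap k[X] (RatFunc k) (Gp T a b e2) with hG2
  have hP : toR (PP T a b e1 e2) = G2 • cst (RatFunc k) e1 - G1 • cst (RatFunc k) e2 := by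
    funext i
    show algebraMap k[X] (RatFunc k) (PP T a b e1 e2 i) = _
    have ec : ∀ e : Fin 5 → k, algebraMap k[X] (RatFunc k) (cst k[X] e i) = cst (RatFunc k) e i :=
      fun e => congrFun (cst_map (IsScalarTower.toAlgHom k k[X] (RatFunc k)) e) i
    simp only [PP, Pi.sub_apply, Pi.smul_apply, smul_eq_mul, map_sub, map_mul, ec, hG1, hG2]
  rw [Fin.sum_univ_four] at hc
  have h5 := hI ![c 0, c 1, c 3, c 2 * G2, -(c 2 * G1)] (by
    rw [Fin.sum_univ_five]
    have hc' : c 0 • cst (RatFunc k) a + c 1 • cst (RatFunc k) b + c 2 • toR (PP T a b e1 e2) +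
        c 3 • cst (RatFunc k) w = 0 := hc
    rw [hP] at hc'
    show c 0 • cst (RatFunc k) a + c 1 • cst (RatFunc k) b + c 3 • cst (RatFunc k) w +
        (c 2 * G2) • cst (RatFunc k) e1 + (-(c 2 * G1)) • cst (RatFunc k) e2 = 0
    rw [← hc', smul_sub, smul_smul, smul_smul, neg_smul]
    abel)
  have h6 : c 2 * G2 = 0 := h5 3
  have h7 : c 2 * G1 = 0 := neg_eq_zero.1 (h5 4)
  have h8 : c 2 = 0 := by
    by_contra hne
    have g2 : Gp T a b e2 = 0 := (map_eq_zero_iff _ (RatFunc.algebraMap_injective k)).1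
      ((mul_eq_zero.1 h6).resolve_left hne)
    have g1 : Gp T a b e1 = 0 := (map_eq_zero_iff _ (RatFunc.algebraMap_injective k)).1
      ((mul_eq_zero.1 h7).resolve_left hne)
    apply hW
    rw [Wr, g1, g2]
    simp
  intro i
  fin_cases i
  · exact h5 0
  · exact h5 1
  · exact h8
  · exact h5 2

end Pool.Agent.Helper66.QL
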