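import Pool.Agent.Helper66.QL.OmRel
import Pool.Agent.Helper66.QL.TwoSurf
import Pool.Agent.Helper66.QL.RootH

/-!
# QL-19: STEP 2, the triple point

PROOF. `wr_two` gives a root `t0` of `Wr`, `om_rel` (first part) and `root_h` give: the three coefficients `h0, h1, h2'` of `h` (outer variable; `Polynomial.coeff` of `C h0 + X * C h1 + X^2 * C h2'` at `0, 1, 2`) vanish at `t0`. Let `x0 = a + t0 b`,
`p0 = G2(t0) e1 - G1(t0) e2` (the value of `PP` at `t0`; `phi_map` for `Polynomial.aeval t0`, `eval_Gp`): `phi x0 x0 p0 p0 = 0`, `phi x0 x0 p0 w = 0` (`2 ≠ 0`), `phi x0 x0 w w = 0`, `phi x0 x0 b p0 = 0` (`3 g(P)(t0) = Wr(t0) = 0`, `gPP`),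
`phi x0 x0 b w = 0` (`gw'`), `phi x0 x0 b b = 0` (`g_eq`, `lam_b`), `phi x0 x0 x0 v = 0` for `v = a, b, w, p0`. `p0 ≠ 0` modulo the others because `G1(t0), G2(t0)` are not both `0` (smoothness as in `wr_two`: the equation `Smo` at `x0`).
Let `v` with `phi x0 x0 x0 v = 0`, `v = v0 a + v1 b + v2 w + v3 e1 + v4 e2` (`ind` spans: `LinearIndependent` of `5` vectors in `k^5`, `basisOfLinearIndependentOfCardEqFinrank`). `phi x0 x0 x0 v = v3 G1(t0) + v4 G2(t0) = 0`
and `(G1(t0), G2(t0)) ≠ 0` give `(v3, v4) = μ (G2(t0), - G1(t0))`, so `v = v0 x0 + (v1 - v0 t0) b + v2 w + μ p0`, and `phi x0 x0 v v` is a combination of the values above: `0`.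
-/

set_option autoImplicit false

namespace Pool.Agent.Helper66.QL

open Pool.Agent.Helper72.QT Polynomial

variable {k : Type*} [Field k] [IsAlgClosed k] {T : Ten k 5}

omit [IsAlgClosed k] in
private lemma ev_phi (T : Ten k 5) (t : k) (x y z w : Fin 5 → k[X]) :
    (phi T x y z w).eval t = phi T (fun i => (x i).eval t) (fun i => (y i).eval t)
      (fun i => (z i).eval t) (fun i => (w i).eval t) := by
  have h := phi_map T (aeval t : k[X] →ₐ[k] k) x y z w
  simpa only [Polynomial.coe_aeval_eq_eval] using h.symm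

omit [IsAlgClosed k] in
private lemma ev_cst (t : k) (w : Fin 5 → k) : (fun i => (cst k[X] w i).eval t) = w := by
  funext i
  simp [cst]

omit [IsAlgClosed k] in
private lemma ev_pt (t : k) (a b : Fin 5 → k) : (fun i => (pt a b (X : k[X]) i).eval t) = a + t • b := by
  funext i
  show (cst k[X] a i + X * cst k[X] b i).eval t = a i + t * b i
  simp only [cst, eval_add, eval_mul, eval_X]
  show (C (a i)).eval t + t * (C (b i)).eval t = _
  rw [eval_C, eval_C]

omit [IsAlgClosed k] in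
private lemma ev_PP (T : Ten k 5) (t : k) (a b e1 e2 : Fin 5 → k) :
    (fun i => (PP T a b e1 e2 i).eval t) =
      (Gp T a b e2).eval t • e1 - (Gp T a b e1).eval t • e2 := by
  funext i
  simp [PP, cst]

omit [IsAlgClosed k] in
private lemma span5 {v0 v1 v2 v3 v4 : Fin 5 → k} (hi : LinearIndependent k ![v0, v1, v2, v3, v4])
    (v : Fin 5 → k) : ∃ c0 c1 c2 c3 c4 : k,
      v = c0 • v0 + c1 • v1 + c2 • v2 + c3 • v3 + c4 • v4 := by
  have hcard : Fintype.card (Fin 5) = Module.finrank k (Fin 5 → k) := by simp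
  let B := basisOfLinearIndependentOfCardEqFinrank hi hcard
  have hB : ⇑B = ![v0, v1, v2, v3, v4] := coe_basisOfLinearIndependentOfCardEqFinrank hi hcard
  have h := B.sum_repr v
  rw [Fin.sum_univ_five, hB] at h
  exact ⟨B.repr v 0, B.repr v 1, B.repr v 2, B.repr v 3, B.repr v 4, h.symm⟩

theorem triple (h2 : (2 : k) ≠ 0) (h3 : (3 : k) ≠ 0) (hT : SymT T) (hS : Smo T)
    {a b w e1 e2 : Fin 5 → k} (hD : Two T a b w e1 e2)
    (hOm : Om T (xK a b) (cst (KK k) b) (uu (toR (PP T a b e1 e2)) (cst (RatFunc k) w)) = 0) :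
    ∃ x0 : Fin 5 → k, x0 ≠ 0 ∧ phi T x0 x0 x0 x0 = 0 ∧
      ∀ v, phi T x0 x0 x0 v = 0 → phi T x0 x0 v v = 0 := by
  obtain ⟨hWne, hWd, t0, ht0⟩ := wr_two h2 h3 hT hS hD
  have hdiv := (om_rel h2 h3 hT hD hOm).1
  have hco := root_h h2 h3 (Wr T a b e1 e2) hWne hWd t0 ht0 _ hdiv
  have hc0 := hco 0
  have hc1 := hco 1
  have hc2 := hco 2
  set h0 := phi T (pt a b X) (pt a b X) (PP T a b e1 e2) (PP T a b e1 e2) with hh0
  set h1 := phi T (pt a b X) (pt a b X) (PP T a b e1 e2) (cst k[X] w) with hh1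
  set h2' := phi T (pt a b X) (pt a b X) (cst k[X] w) (cst k[X] w) with hh2
  have k0 : (C h0 + X * C (2 * h1) + X ^ 2 * C h2' : k[X][X]).coeff 0 = h0 := by
    simp
  have k1 : (C h0 + X * C (2 * h1) + X ^ 2 * C h2' : k[X][X]).coeff 1 = 2 * h1 := by
    rw [coeff_add, coeff_add, coeff_X_mul, coeff_X_pow_mul']
    simp [coeff_C]
  have k2 : (C h0 + X * C (2 * h1) + X ^ 2 * C h2' : k[X][X]).coeff 2 = h2' := by
    rw [coeff_add, coeff_add, coeff_X_mul, coeff_X_pow_mul']
    simp [coeff_C]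
  rw [k0] at hc0
  rw [k1, eval_mul] at hc1
  rw [k2] at hc2
  have hc1' : h1.eval t0 = 0 := by
    rcases mul_eq_zero.mp hc1 with h | h
    · exact absurd (by simpa using h) h2
    · exact h
  set x0 : Fin 5 → k := a + t0 • b with hx0
  set g1 : k := (Gp T a b e1).eval t0 with hg1
  set g2 : k := (Gp T a b e2).eval t0 with hg2
  set p0 : Fin 5 → k := g2 • e1 - g1 • e2 with hp0
  have A1 : phi T x0 x0 p0 p0 = 0 := by
    rw [hh0, ev_phi, ev_pt, ev_PP] at hc0
    exact hc0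
  have A2 : phi T x0 x0 p0 w = 0 := by
    rw [hh1, ev_phi, ev_pt, ev_PP, ev_cst] at hc1'
    exact hc1'
  have A3 : phi T x0 x0 w w = 0 := by
    rw [hh2, ev_phi, ev_pt, ev_cst] at hc2
    exact hc2
  have A4 : phi T x0 x0 b p0 = 0 := by
    have h := congrArg (fun q => eval t0 q) (gPP hT a b e1 e2)
    beta_reduce at h
    rw [ht0, eval_mul, ev_phi, ev_pt, ev_PP, ev_cst] at h
    rcases mul_eq_zero.mp h with h | h
    · exact absurd (by simpa using h) h3
    · exact h
  have ptk : pt a b t0 = x0 := by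
    rw [pt, cst_self, cst_self]
  have A5 : phi T x0 x0 b w = 0 := by
    have h := gw' (R := k) hT hD.lw t0
    rwa [ptk, cst_self, cst_self] at h
  have A6 : phi T x0 x0 b b = 0 := by
    have h := g_eq (R := k) hT a b t0 (cst k b)
    rw [lam_b hD.line, lam_b hD.line, lam_b hD.line, ptk, cst_self] at h
    rw [h]
    ring
  have B1 : phi T x0 x0 x0 b = 0 := by
    have h := l_eq (R := k) hT a b t0 (cst k b)
    rw [lam_b hD.line, lam_b hD.line, lam_b hD.line, lam_b hD.line, ptk, cst_self] at h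
    rw [h]
    ring
  have B0 : phi T x0 x0 x0 a = 0 := by
    have h := l_eq (R := k) hT a b t0 (cst k a)
    rw [lam_a hT hD.line, lam_a hT hD.line, lam_a hT hD.line, lam_a hT hD.line, ptk, cst_self] at h
    rw [h]
    ring
  have B2 : phi T x0 x0 x0 w = 0 := by
    have h := lw' (R := k) hT hD.lw t0
    rwa [ptk, cst_self] at h
  have B3 : phi T x0 x0 x0 e1 = g1 := (eval_Gp a b e1 t0).symm
  have B4 : phi T x0 x0 x0 e2 = g2 := (eval_Gp a b e2 t0).symm
  have Bx : phi T x0 x0 x0 x0 = 0 := by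
    have h : phi T x0 x0 x0 (a + t0 • b) = 0 := by
      rw [phi_add4, phi_smul4, B0, B1]
      ring
    exact h
  have Bp : phi T x0 x0 x0 p0 = 0 := by
    rw [hp0, phi_sub4, phi_smul4, phi_smul4, B3, B4]
    ring
  have hx0ne : x0 ≠ 0 := by
    intro h0
    have hli := Fintype.linearIndependent_iff.mp hD.ind ![1, t0, 0, 0, 0]
    have hs : ∑ i, (![1, t0, 0, 0, 0] : Fin 5 → k) i • (![a, b, w, e1, e2] : Fin 5 → Fin 5 → k) i = 0 := by
      rw [Fin.sum_univ_five]
      simpa using h0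
    have := hli hs 0
    simp at this
  have hgne : g1 ≠ 0 ∨ g2 ≠ 0 := by
    by_contra hcon
    push Not at hcon
    obtain ⟨v, hv⟩ := hS x0 hx0ne
    obtain ⟨c0, c1, c2, c3, c4, rfl⟩ := span5 hD.ind v
    apply hv
    rw [phi_add4, phi_add4, phi_add4, phi_add4, phi_smul4, phi_smul4, phi_smul4, phi_smul4,
      phi_smul4, B0, B1, B2, B3, B4, hcon.1, hcon.2]
    ring
  refine ⟨x0, hx0ne, Bx, fun v hv => ?_⟩
  obtain ⟨c0, c1, c2, c3, c4, rfl⟩ := span5 hD.ind v
  have hrel : c3 * g1 + c4 * g2 = 0 := by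
    rw [phi_add4, phi_add4, phi_add4, phi_add4, phi_smul4, phi_smul4, phi_smul4, phi_smul4,
      phi_smul4, B0, B1, B2, B3, B4] at hv
    linear_combination hv
  obtain ⟨mu, hm3, hm4⟩ : ∃ mu : k, c3 = mu * g2 ∧ c4 = -(mu * g1) := by
    rcases hgne with h | h
    · refine ⟨-c4 / g1, ?_, ?_⟩
      · field_simp
        linear_combination hrel
      · field_simp
    · refine ⟨c3 / g2, ?_, ?_⟩
      · field_simp
      · field_simp
        linear_combination hrel
  have hv' : c0 • a + c1 • b + c2 • w + c3 • e1 + c4 • e2 =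
      c0 • x0 + (c1 - c0 * t0) • b + c2 • w + mu • p0 := by
    rw [hm3, hm4, hx0, hp0]
    module
  rw [hv']
  have S1 : phi T x0 x0 b x0 = 0 := by rw [phi_s34 hT, B1]
  have S2 : phi T x0 x0 w x0 = 0 := by rw [phi_s34 hT, B2]
  have S3 : phi T x0 x0 p0 x0 = 0 := by rw [phi_s34 hT, Bp]
  have S4 : phi T x0 x0 w b = 0 := by rw [phi_s34 hT, A5]
  have S5 : phi T x0 x0 p0 b = 0 := by rw [phi_s34 hT, A4]
  have S6 : phi T x0 x0 w p0 = 0 := by rw [phi_s34 hT, A2]
  simp only [phi_add3, phi_add4, phi_smul3, phi_smul4, A1, A2, A3, A4, A5, A6, B1, B2, Bp, Bx, S1,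
    S2, S3, S4, S5, S6]
  ring

end Pool.Agent.Helper66.QL
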