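import Mathlib

/-!
# QL-23: the Wronskian for a line through the vertex of a cone

PROOF. `W = G2 (3 κ X²) - κ X³ G2'` has the coefficient `3 κ G2(0)` at `X²`; `X W'` has the coefficient `2 * 3 κ G2(0)` at `X²`. `κ'' X² (κ'' X² W' - 4 κ'' X W) = 0` gives `X W' = 4 W` (cancel `κ''² X³`),
so `6 κ G2(0) = 12 κ G2(0)`, `6 κ G2(0) = 0`: contradiction.
-/

set_option autoImplicit false

namespace Pool.Agent.Helper66.QL

open Polynomial

variable {k : Type*} [Field k]

theorem wr_cone (h2 : (2 : k) ≠ 0) (h3 : (3 : k) ≠ 0) (G2 : k[X]) (κ μ : k) (hκ : κ ≠ 0)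
    (hμ : μ ≠ 0) (hG : G2.eval 0 ≠ 0)
    (h : C μ * X ^ 2 * (C μ * X ^ 2 *
        derivative (G2 * derivative (C κ * X ^ 3) - (C κ * X ^ 3) * derivative G2) -
      4 * (C μ * X) * (G2 * derivative (C κ * X ^ 3) - (C κ * X ^ 3) * derivative G2)) = 0) :
    False := by
  set W : k[X] := G2 * derivative (C κ * X ^ 3) - (C κ * X ^ 3) * derivative G2 with hW
  have hX : (X : k[X]) ≠ 0 := X_ne_zero
  have hCμ : (C μ : k[X]) ≠ 0 := by
    simpa using hμ
  have h1 : (C μ * X ^ 2 * (C μ * X)) * (X * derivative W - 4 * W) = 0 := by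
    rw [← h]
    ring
  have h4 : X * derivative W - 4 * W = 0 := by
    rcases mul_eq_zero.1 h1 with h5 | h5
    · exact absurd h5 (mul_ne_zero (mul_ne_zero hCμ (pow_ne_zero 2 hX)) (mul_ne_zero hCμ hX))
    · exact h5
  have h5 : W.coeff 2 = 3 * κ * G2.eval 0 := by
    have e1 : W = C (3 * κ) * G2 * X ^ 2 - (C κ * derivative G2) * X ^ 3 := by
      rw [hW, derivative_C_mul_X_pow]
      simp only [C_mul]
      push_cast
      simp only [map_ofNat]
      ring
    rw [e1, coeff_sub, coeff_mul_X_pow', coeff_mul_X_pow']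
    simp [coeff_zero_eq_eval_zero]
  have h6 : (X * derivative W).coeff 2 = 2 * W.coeff 2 := by
    rw [show (2 : ℕ) = 1 + 1 from rfl, coeff_X_mul, coeff_derivative]
    push_cast
    ring
  have h7 : (4 * W).coeff 2 = 4 * W.coeff 2 := by
    have h40 : (4 : k[X]) = C 4 := (map_ofNat C 4).symm
    rw [h40, coeff_C_mul]
  have h8 : (X * derivative W - 4 * W).coeff 2 = 0 := by
    rw [h4, coeff_zero]
  rw [coeff_sub, h6, h7, h5] at h8
  have h9 : (2 : k) * (3 * κ * G2.eval 0) = 0 := by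
    linear_combination -h8
  rcases mul_eq_zero.1 h9 with h10 | h10
  · exact h2 h10
  · exact (mul_ne_zero (mul_ne_zero h3 hκ) hG) h10

end Pool.Agent.Helper66.QL
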