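import Pool.Agent.Helper66.QL.Surf
import Pool.Agent.Helper66.QL.Triple
import Pool.Agent.Helper66.QL.Mono
import Pool.Agent.Helper66.QL.ConeTwo
import Pool.Agent.Helper66.QL.WrCone

/-!
# QL: STEP 2, lines of the second type (assembly)
-/

set_option autoImplicit false

namespace Pool.Agent.Helper66.QL

open Pool.Agent.Helper72.QT Polynomial

variable {k : Type*} [Field k] [IsAlgClosed k] {T : Ten k 5}

omit [IsAlgClosed k] in
theorem ab_of_ind {a b w e1 e2 : Fin 5 → k} (h : LinearIndependent k ![a, b, w, e1, e2]) :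
    LinearIndependent k ![a, b] := by
  have h1 := h.comp (![0, 1] : Fin 2 → Fin 5) (by
    intro i j hij
    fin_cases i <;> fin_cases j <;> simp_all)
  have h2 : (![a, b, w, e1, e2] : Fin 5 → Fin 5 → k) ∘ ![0, 1] = ![a, b] := by
    funext i
    fin_cases i <;> rfl
  rwa [h2] at h1

/-- STEP 2 if `Om ≠ 0` -/
theorem two_surf (h2 : (2 : k) ≠ 0) (h3 : (3 : k) ≠ 0) (hT : SymT T) (hS : Smo T)
    {a b w e1 e2 : Fin 5 → k} (hD : Two T a b w e1 e2)
    (hOm : Om T (xK a b) (cst (KK k) b) (uu (toR (PP T a b e1 e2)) (cst (RatFunc k) w)) ≠ 0) :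
    ContRat T :=
  surf h2 h3 hT hS a b (ab_of_ind hD.ind) hD.line _ _ (ind2 h2 h3 hT hS hD) (lPR a b e1 e2)
    (lw' hT hD.lw _) (gne2 h2 h3 hT hS hD) hOm

/-- a cone section gives a rational surface -/
theorem cone_surf (h2 : (2 : k) ≠ 0) (h3 : (3 : k) ≠ 0) (hT : SymT T) (hS : Smo T)
    (x0 : Fin 5 → k) (hx : x0 ≠ 0) (hf : phi T x0 x0 x0 x0 = 0)
    (hc : ∀ v, phi T x0 x0 x0 v = 0 → phi T x0 v v v = 0) : ContRat T := by
  obtain ⟨p, w, p', lp, lw, lp', fp, pw, ww, pp⟩ := cone_pt h2 h3 hT hS x0 hx hf hc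
  obtain ⟨e, he⟩ := hS x0 hx
  obtain ⟨hD, hG1, hG2, hh, hA⟩ :=
    cone_two h2 h3 hT x0 hx hf hc p w p' e lp lw lp' fp pw ww pp he
  by_cases hOm : Om T (xK x0 p) (cst (KK k) p)
      (uu (toR (PP T x0 p p' e)) (cst (RatFunc k) w)) = 0
  · exfalso
    have h := (om_rel h2 h3 hT hD hOm).2
    rw [hh, hA, Wr, hG1] at h
    exact wr_cone h2 h3 (Gp T x0 p e) _ _ pp ww (by rw [hG2]; exact he) h
  · exact two_surf h2 h3 hT hS hD hOm

omit [IsAlgClosed k] in
/-- two more vectors to complete a basis -/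
theorem exists_two {a b w : Fin 5 → k} (hab : LinearIndependent k ![a, b])
    (hw : ∀ α β : k, w ≠ α • a + β • b) :
    ∃ e1 e2 : Fin 5 → k, LinearIndependent k ![a, b, w, e1, e2] := by
  have h3 : LinearIndependent k ![a, b, w] := by
    have h : LinearIndependent k (Fin.snoc ![a, b] w : Fin 3 → Fin 5 → k) := by
      rw [linearIndependent_finSnoc]
      refine ⟨hab, fun hmem => ?_⟩
      rw [Submodule.mem_span_range_iff_exists_fun] at hmem
      obtain ⟨c, hc⟩ := hmem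
      apply hw (c 0) (c 1)
      rw [← hc, Fin.sum_univ_two]
      rfl
    convert h using 1
    funext i
    fin_cases i <;> rfl
  obtain ⟨e1, h4⟩ := exists_linearIndependent_snoc_of_lt_finrank (R := k)
    (M := Fin 5 → k) h3 (by rw [Module.finrank_fin_fun]; norm_num)
  obtain ⟨e2, h5⟩ := exists_linearIndependent_snoc_of_lt_finrank (R := k)
    (M := Fin 5 → k) h4 (by rw [Module.finrank_fin_fun]; norm_num)
  have e : (![a, b, w, e1, e2] : Fin 5 → Fin 5 → k) =
      Fin.snoc (Fin.snoc ![a, b, w] e1 : Fin 4 → Fin 5 → k) e2 := by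
    funext i
    fin_cases i <;> rfl
  refine ⟨e1, e2, ?_⟩
  rw [e]
  exact h5

theorem step2 (h2 : (2 : k) ≠ 0) (h3 : (3 : k) ≠ 0) (hT : SymT T) (hS : Smo T) (a b w : Fin 5 → k)
    (hab : LinearIndependent k ![a, b]) (hL : Line T a b) (hw : ∀ i, lam T a b i w = 0)
    (hw' : ∀ α β : k, w ≠ α • a + β • b) : ContRat T := by
  obtain ⟨e1, e2, hind⟩ := exists_two hab hw'
  have hD : Two T a b w e1 e2 := ⟨hL, hw, hind⟩
  by_cases hOm : Om T (xK a b) (cst (KK k) b)
      (uu (toR (PP T a b e1 e2)) (cst (RatFunc k) w)) = 0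
  · obtain ⟨x0, hx, hf, hq⟩ := triple h2 h3 hT hS hD hOm
    by_cases hc : ∃ v, phi T x0 x0 x0 v = 0 ∧ phi T x0 v v v ≠ 0
    · exact mono h2 hT x0 hx hf (hS x0 hx) hq hc
    · push Not at hc
      exact cone_surf h2 h3 hT hS x0 hx hf hc
  · exact two_surf h2 h3 hT hS hD hOm

end Pool.Agent.Helper66.QL
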