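import Pool.Agent.Helper66.QL.Step3
import Pool.Agent.Helper66.QL.Step2
import Pool.Agent.Helper66.QL.LineEx

/-!
# QL: assembly, every smooth quartic threefold contains a rational surface
-/

set_option autoImplicit false

namespace Pool.Agent.Helper66.QL

open Pool.Agent.Helper72.QT

variable {k : Type*} [Field k] [IsAlgClosed k]

theorem rat5 {T : Ten k 5} (h2 : (2 : k) ≠ 0) (h3 : (3 : k) ≠ 0) (hT : SymT T) (hS : Smo T) :
    ContRat T := by
  obtain ⟨a, b, hab, hL⟩ := line_of h2 h3 hT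
  by_cases hr : ∀ w : Fin 5 → k, (∀ i, lam T a b i w = 0) → ∃ α β : k, w = α • a + β • b
  · exact step3 h2 h3 hT hS a b hab hL hr
  · push Not at hr
    obtain ⟨w, hw, hw'⟩ := hr
    exact step2 h2 h3 hT hS a b w hab hL hw hw'

/-- the theorem for tensors: all dimensions at least three -/
theorem rat_tensor {N : ℕ} {T : Ten k N} (h2 : (2 : k) ≠ 0) (h3 : (3 : k) ≠ 0) (hT : SymT T)
    (hS : Smo T) (hN : 5 ≤ N) : ContRat T := by
  by_cases h6 : 6 ≤ N
  · exact (main_tensor h2 hT hS hN).2 h6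
  · obtain rfl : N = 5 := by omega
    exact rat5 h2 h3 hT hS

end Pool.Agent.Helper66.QL
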