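import Mathlib

/-!
# QL-28: a basis of a plane which is integral and remains independent in the residue field

PROOF. `p i j = a i * b j - a j * b i`. Some `p i j ≠ 0` (`a, b` are linearly independent: `a ≠ 0`, `a i ≠ 0`, if all `p i j = 0` then `b = (b i / a i) • a`). Choose `(i, j)` with the valuation `O.valuation (p i j)` maximal among all pairs
(`Finset.exists_max_image` on `Fin 5 × Fin 5`); then `p i j ≠ 0` and `p l m / p i j ∈ O` for all `l, m` (`ValuationSubring.valuation_le_one_iff`, `map_div₀`). Let `a' = (b j / p i j) • a - (a j / p i j) • b`,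
`b' = -(b i / p i j) • a + (a i / p i j) • b`: `a' l = p l j / p i j`, `b' l = p i l / p i j`.
-/

set_option autoImplicit false

namespace Pool.Agent.Helper66.QL

theorem norm_basis {K : Type*} [Field K] (O : ValuationSubring K) (a b : Fin 5 → K)
    (hab : LinearIndependent K ![a, b]) :
    ∃ (i j : Fin 5) (a' b' : Fin 5 → K), (∀ l, a' l ∈ O) ∧ (∀ l, b' l ∈ O) ∧
      a' i = 1 ∧ a' j = 0 ∧ b' i = 0 ∧ b' j = 1 ∧
      ∃ α β γ δ : K, a' = α • a + β • b ∧ b' = γ • a + δ • b := by
  classical
  obtain ⟨⟨i, j⟩, -, hmax⟩ := Finset.exists_max_image (Finset.univ : Finset (Fin 5 × Fin 5))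
    (fun q => O.valuation (a q.1 * b q.2 - a q.2 * b q.1)) ⟨(0, 0), Finset.mem_univ _⟩
  have hne : a i * b j - a j * b i ≠ 0 := by
    intro h0
    have hall : ∀ l m, a l * b m - a m * b l = 0 := by
      intro l m
      have h := hmax (l, m) (Finset.mem_univ _)
      simp only [h0, map_zero] at h
      exact (map_eq_zero O.valuation).1 (le_antisymm h zero_le)
    rw [LinearIndependent.pair_iff] at hab
    have ha : a ≠ 0 := by
      intro ha
      have := hab 1 0 (by rw [ha]; simp)
      exact one_ne_zero this.1
    obtain ⟨r, hr⟩ := Function.ne_iff.1 ha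
    have h := hab (b r) (-(a r)) (by
      funext m
      simp only [Pi.add_apply, Pi.smul_apply, smul_eq_mul, Pi.zero_apply]
      have := hall r m
      linear_combination -this)
    exact hr (by simpa using h.2)
  have hO : ∀ l m, (a l * b m - a m * b l) / (a i * b j - a j * b i) ∈ O := by
    intro l m
    rw [← ValuationSubring.valuation_le_one_iff, map_div₀]
    have h := hmax (l, m) (Finset.mem_univ _)
    simp only at h
    exact div_le_one_of_le₀ h zero_le
  refine ⟨i, j, fun l => (a l * b j - a j * b l) / (a i * b j - a j * b i),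
    fun l => (a i * b l - a l * b i) / (a i * b j - a j * b i), fun l => hO l j,
    fun l => hO i l, div_self hne, ?_, ?_, div_self hne,
    b j / (a i * b j - a j * b i), -(a j) / (a i * b j - a j * b i),
    -(b i) / (a i * b j - a j * b i), a i / (a i * b j - a j * b i), ?_, ?_⟩
  · simp
  · simp
  · funext l
    simp only [Pi.add_apply, Pi.smul_apply, smul_eq_mul]
    ring
  · funext l
    simp only [Pi.add_apply, Pi.smul_apply, smul_eq_mul]
    ring

end Pool.Agent.Helper66.QL
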