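import Pool.Agent.Helper66.QL.Frame

/-!
# QL-13: STEP 3, the case `h(P) = 0`: a surface ruled by singular plane cubics

PROOF. Over `KK k`: `x = xK a b`, `p = toK P`, `v = s • cst b + p` (`s = ss k`). `InW T x v`: `l(v) = 0`, `q(v) = s² q(b) + 2 s g(p) + h(p) = 0` (`l_eq`, `g_eq`, `lam_b`, `phi_toK`, `toK_pt`, `toK_cst`; `q(b) = phi x x b b = 0` is `g_eq` at `b`).
`c = phi x v v v = s³ phi(xbbb) + 3 s² phi(xbbp) + 3 s phi(xbpp) + phi(xppp) = jR c0 + s jR c1 + s² jR 3` (`phi x b b p = jR 1`, `phi x b b b = 0`), so `c ≠ 0` by `s_poly` (`3 ≠ 0`). `y = resid T x v = f x - 4 c v` with `f = phi v v v v`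
(`phi_resid`). Take a `Frm` (`exists_frm`), `Z_j = dot (z j)`. Since `m(P) = 1 ≠ 0`, `P` is not in the span of `a, b` (`m_eq`, `lam_a`, `lam_b`), so `Z_j P ≠ 0` for some `j` (`decR`); `Z_j y = -4 c jR (Z_j P) ≠ 0`; some `y i ≠ 0`; let
`E = adjoin k (range (y_j / y_i))`.
`t ∈ E`: `lam_i(y) = -4 c jR (L_i)`, `L_i = lam_i(P)` (`lam_add`, `lam_smul`, `lam_a`, `lam_b`, `lam_toK`). Not both `L_2, L_3` are `0` (`m_eq`: `L_2 + t L_3 = 1`). From `g(P) = 0`, `l(P) = 0`: `L_1 = - 2 t L_2 - t² L_3`,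
`L_0 = 3 t² L_2 + 2 t³ L_3`, so `L_2² - L_1 L_3 = (L_2 + t L_3)² = 1` and `L_0 L_3 - L_1 L_2 = 2 t (L_2 + t L_3)² = 2 t`. With `r_i = lam_i(y) / Z_j(y) = jR (L_i / Z_j P) ∈ E` (`lam_eq_dot`, `ratio_mem`):
`r_0 r_3 - r_1 r_2 = 2 t (r_2² - r_1 r_3)`, `r_2² - r_1 r_3 = jR (1 / (Z_j P)²) ≠ 0`, so `t ∈ E` (`2 ≠ 0`).
`s ∈ E`: `dot za y = f - 4 c jR (dot za P)`, `dot zb y = f t - 4 c (s + jR (dot zb P))`, so `(dot zb y - t dot za y) / Z_j y = (s + jR (dot zb P) - t jR (dot za P)) / jR (Z_j P)`; `E` contains `jR (RatFunc k)` because `t ∈ E`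
(as in the proof of `QT.gen_top`). `gen_top`; `⟨y, _, i, _, _⟩`.
-/

set_option autoImplicit false

namespace Pool.Agent.Helper66.QL

open Pool.Agent.Helper72.QT

variable {k : Type*} [Field k] {T : Ten k 5}

private theorem nodal_jR_mem (L : IntermediateField k (KK k)) (ht : tt k ∈ L) (a : RatFunc k) :
    jR k a ∈ L := by
  have h1 : ∀ p : Polynomial k, jR k (algebraMap (Polynomial k) (RatFunc k) p) ∈ L := by
    intro p
    induction p using Polynomial.induction_on' with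
    | add p q hp hq =>
      rw [map_add, map_add]
      exact add_mem hp hq
    | monomial n a =>
      rw [← Polynomial.C_mul_X_pow_eq_monomial, map_mul, map_mul, map_pow, map_pow]
      refine mul_mem ?_ (pow_mem ?_ n)
      · have e1 : jR k (algebraMap (Polynomial k) (RatFunc k) (Polynomial.C a)) =
            algebraMap k (KK k) a := by
          have e2 : algebraMap (Polynomial k) (RatFunc k) (Polynomial.C a) =
              algebraMap k (RatFunc k) a := rfl
          rw [e2]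
          exact (jR k).commutes a
        rw [e1]
        exact L.algebraMap_mem a
      · rw [RatFunc.algebraMap_X, jR_X]
        exact ht
  rw [← RatFunc.num_div_denom a, map_div₀]
  exact div_mem (h1 _) (h1 _)

private theorem nodal_dot_mem (y : Fin 5 → KK k) (i : Fin 5) (hi : y i ≠ 0) (d e : Fin 5 → k) :
    dot d y / dot e y ∈ IntermediateField.adjoin k (Set.range fun j => y j / y i) :=
  ratio_mem y i hi d e

theorem nodal (h2 : (2 : k) ≠ 0) (h3 : (3 : k) ≠ 0) (hT : SymT T) (a b : Fin 5 → k)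
    (hab : LinearIndependent k ![a, b]) (hL : Line T a b) (P : Fin 5 → RatFunc k)
    (lP : phi T (xR a b) (xR a b) (xR a b) P = 0)
    (gP : phi T (xR a b) (xR a b) (cst (RatFunc k) b) P = 0)
    (mP : phi T (xR a b) (cst (RatFunc k) b) (cst (RatFunc k) b) P = 1)
    (hP : phi T (xR a b) (xR a b) P P = 0) : ContRat T := by
  have hjinj : Function.Injective (jR k) := (jR k).injective
  have h3R : (3 : RatFunc k) ≠ 0 := by
    have h := (map_ne_zero_iff _ (algebraMap k (RatFunc k)).injective).mpr h3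
    rwa [map_ofNat] at h
  have h2K : (2 : KK k) ≠ 0 := by
    have h := (map_ne_zero_iff _ (algebraMap k (KK k)).injective).mpr h2
    rwa [map_ofNat] at h
  obtain ⟨s, hs⟩ : ∃ s : KK k, s = ss k := ⟨_, rfl⟩
  obtain ⟨t, ht⟩ : ∃ t : KK k, t = tt k := ⟨_, rfl⟩
  obtain ⟨A, hA⟩ : ∃ A : Fin 5 → KK k, A = cst (KK k) a := ⟨_, rfl⟩
  obtain ⟨B, hB⟩ : ∃ B : Fin 5 → KK k, B = cst (KK k) b := ⟨_, rfl⟩
  obtain ⟨p, hp⟩ : ∃ p : Fin 5 → KK k, p = toK P := ⟨_, rfl⟩
  obtain ⟨x, hx⟩ : ∃ x : Fin 5 → KK k, x = xK a b := ⟨_, rfl⟩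
  have hxAB : x = A + t • B := by
    rw [hx, hA, hB, ht]
    rfl
  have hlA : ∀ i, lam T a b i A = 0 := fun i => by
    rw [hA]
    exact lam_a hT hL i
  have hlB : ∀ i, lam T a b i B = 0 := fun i => by
    rw [hB]
    exact lam_b hL i
  have hlx : ∀ i, lam T a b i x = 0 := fun i => by
    rw [hxAB, lam_add, lam_smul, hlA, hlB]
    ring
  have hxR : toK (xR a b) = x := by
    rw [toK_pt, hx]
  have hBR : toK (cst (RatFunc k) b) = B := by
    rw [toK_cst, hB]
  -- values of the forms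
  have hl : ∀ u : Fin 5 → KK k, phi T x x x u =
      lam T a b 0 u + 3 * t * lam T a b 1 u + 3 * t ^ 2 * lam T a b 2 u + t ^ 3 * lam T a b 3 u := by
    intro u
    rw [hx, ht]
    exact l_eq hT a b (tt k) u
  have hg : ∀ u : Fin 5 → KK k, phi T x x B u =
      lam T a b 1 u + 2 * t * lam T a b 2 u + t ^ 2 * lam T a b 3 u := by
    intro u
    rw [hx, ht, hB]
    exact g_eq hT a b (tt k) u
  have hm : ∀ u : Fin 5 → KK k, phi T x B B u = lam T a b 2 u + t * lam T a b 3 u := by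
    intro u
    rw [hx, ht, hB]
    exact m_eq a b (tt k) u
  have hxx : phi T x x x x = 0 := by
    rw [hl, hlx, hlx, hlx, hlx]
    ring
  have hxB : phi T x x x B = 0 := by
    rw [hl, hlB, hlB, hlB, hlB]
    ring
  have hBB : phi T x x B B = 0 := by
    rw [hg, hlB, hlB, hlB]
    ring
  have hBBB : phi T x B B B = 0 := by
    rw [hm, hlB, hlB]
    ring
  have hxp : phi T x x x p = 0 := by
    rw [← hxR, hp, phi_toK, lP, map_zero]
  have hgp : phi T x x B p = 0 := by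
    rw [← hxR, ← hBR, hp, phi_toK, gP, map_zero]
  have hgp' : phi T x x p B = 0 := by
    rw [phi_s34 hT, hgp]
  have hmp : phi T x B B p = 1 := by
    rw [← hxR, ← hBR, hp, phi_toK, mP, map_one]
  have hpp : phi T x x p p = 0 := by
    rw [← hxR, hp, phi_toK, hP, map_zero]
  obtain ⟨v, hv⟩ : ∃ v : Fin 5 → KK k, v = s • B + p := ⟨_, rfl⟩
  have hW : InW T x v := by
    refine ⟨hxx, ?_, ?_⟩
    · rw [hv, phi_add4, phi_smul4, hxB, hxp]
      ring
    · rw [hv]
      simp only [phi_add3, phi_add4, phi_smul3, phi_smul4, hBB, hgp, hgp', hpp]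
      ring
  obtain ⟨c, hc⟩ : ∃ c : KK k, c = phi T x v v v := ⟨_, rfl⟩
  have hc0 : c ≠ 0 := by
    intro h0
    have e1 : phi T x B p B = phi T x B B p := phi_s34 hT _ _ _ _
    have e2 : phi T x p B B = phi T x B B p := by rw [phi_s23 hT, e1]
    have e3 : phi T x p B p = phi T x B p p := phi_s23 hT _ _ _ _
    have e4 : phi T x p p B = phi T x B p p := by rw [phi_s34 hT, e3]
    have e5 : phi T x B p p = jR k (phi T (xR a b) (cst (RatFunc k) b) P P) := by
      rw [← hxR, ← hBR, hp, phi_toK]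
    have e6 : phi T x p p p = jR k (phi T (xR a b) P P P) := by
      rw [← hxR, hp, phi_toK]
    have e7 : c = jR k (phi T (xR a b) P P P) +
        jR k (3 * phi T (xR a b) (cst (RatFunc k) b) P P) * s + jR k 3 * s ^ 2 := by
      rw [hc, hv]
      simp only [phi_add2, phi_add3, phi_add4, phi_smul2, phi_smul3, phi_smul4, e1, e2, e3, e4,
        hBBB, hmp, e5, e6, map_mul, map_ofNat]
      ring
    have e8 := s_poly (k := k) 3 (fun i => (![phi T (xR a b) P P P,
      3 * phi T (xR a b) (cst (RatFunc k) b) P P, 3] : Fin 3 → RatFunc k) (Fin.ofNat 3 i)) (by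
        rw [Finset.sum_range_succ, Finset.sum_range_succ, Finset.sum_range_succ,
          Finset.sum_range_zero, ← hs, zero_add, pow_zero, mul_one, pow_one]
        rw [h0] at e7
        exact e7.symm)
    exact h3R (e8 2 (by norm_num))
  obtain ⟨f, hf⟩ : ∃ f : KK k, f = phi T v v v v := ⟨_, rfl⟩
  obtain ⟨y, hy⟩ : ∃ y : Fin 5 → KK k, y = resid T x v := ⟨_, rfl⟩
  have hy0 : phi T y y y y = 0 := by
    rw [hy]
    exact phi_resid hT hW
  have hyv : y = f • x + (-(4 * c)) • v := by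
    rw [hy, resid, ← hf, ← hc, neg_smul, sub_eq_add_neg]
  obtain ⟨za, zb, z, ff, hF⟩ := exists_frm a b hab
  -- the linear forms at `P`
  have hmR := m_eq (T := T) a b (RatFunc.X : RatFunc k) P
  have hgR := g_eq hT a b (RatFunc.X : RatFunc k) P
  have hlR := l_eq hT a b (RatFunc.X : RatFunc k) P
  have hj : ∃ j, dot (z j) P ≠ 0 := by
    by_contra hcon
    push Not at hcon
    have h1 := hF.decR P
    rw [Finset.sum_eq_zero (fun j _ => by rw [hcon j, zero_smul]), add_zero] at h1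
    have h4 : ∀ i, lam T a b i P = 0 := by
      intro i
      rw [h1, lam_add, lam_smul, lam_smul, lam_a hT hL, lam_b hL]
      ring
    have h5 : (1 : RatFunc k) = 0 := by
      rw [← mP]
      refine hmR.trans ?_
      rw [h4, h4]
      ring
    exact one_ne_zero h5
  obtain ⟨j, hj⟩ := hj
  obtain ⟨ζ, hζ⟩ : ∃ ζ : KK k, ζ = jR k (dot (z j) P) := ⟨_, rfl⟩
  have hζ0 : ζ ≠ 0 := by
    rw [hζ]
    exact (map_ne_zero_iff _ hjinj).mpr hj
  have hdA : ∀ d : Fin 5 → k, dot d A = algebraMap k (KK k) (dot d a) := fun d => by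
    rw [hA]
    exact dot_cst d a
  have hdB : ∀ d : Fin 5 → k, dot d B = algebraMap k (KK k) (dot d b) := fun d => by
    rw [hB]
    exact dot_cst d b
  have hdp : ∀ d : Fin 5 → k, dot d p = jR k (dot d P) := fun d => by
    rw [hp]
    exact dot_toK d P
  have hdy : ∀ d : Fin 5 → k, dot d y = f * (algebraMap k (KK k) (dot d a) +
      t * algebraMap k (KK k) (dot d b)) - 4 * c * (s * algebraMap k (KK k) (dot d b) +
        jR k (dot d P)) := by
    intro d
    rw [hyv, dot_add, dot_smul, dot_smul, hv, hxAB, dot_add, dot_add, dot_smul, dot_smul, hdA, hdB,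
      hdp]
    ring
  have hZy : dot (z j) y = -(4 * c) * ζ := by
    rw [hdy, hF.fa, hF.fb, map_zero, hζ]
    ring
  have h4c : -(4 * c) ≠ 0 := by
    have e4 : (4 : KK k) = 2 * 2 := by norm_num
    rw [e4]
    exact neg_ne_zero.mpr (mul_ne_zero (mul_ne_zero h2K h2K) hc0)
  have hZy0 : dot (z j) y ≠ 0 := by
    rw [hZy]
    exact mul_ne_zero h4c hζ0
  have hyi : ∃ i, y i ≠ 0 := by
    by_contra hcon
    push Not at hcon
    apply hZy0
    unfold dot
    exact Finset.sum_eq_zero (fun j _ => by rw [hcon j, mul_zero])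
  obtain ⟨i, hi⟩ := hyi
  refine ⟨y, hy0, i, hi, ?_⟩
  obtain ⟨E, hE⟩ : ∃ E : IntermediateField k (KK k),
      E = IntermediateField.adjoin k (Set.range fun j => y j / y i) := ⟨_, rfl⟩
  rw [← hE]
  have hdE : ∀ d e : Fin 5 → k, dot d y / dot e y ∈ E := fun d e => by
    rw [hE]
    exact nodal_dot_mem y i hi d e
  have hlam : ∀ n : Fin 4, jR k (lam T a b n P) / ζ ∈ E := by
    intro n
    have h1 : lam T a b n y = -(4 * c) * jR k (lam T a b n P) := by
      rw [hyv, lam_add, lam_smul, lam_smul, hlx, hv, lam_add, lam_smul, hlB, hp, lam_toK]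
      ring
    have h5 := hdE (fun j => lam T a b n (Pi.single j (1 : k))) (z j)
    rw [← lam_eq_dot, h1, hZy, mul_div_mul_left _ _ h4c] at h5
    exact h5
  obtain ⟨L0, hL0⟩ : ∃ L : KK k, L = jR k (lam T a b 0 P) := ⟨_, rfl⟩
  obtain ⟨L1, hL1⟩ : ∃ L : KK k, L = jR k (lam T a b 1 P) := ⟨_, rfl⟩
  obtain ⟨L2, hL2⟩ : ∃ L : KK k, L = jR k (lam T a b 2 P) := ⟨_, rfl⟩
  obtain ⟨L3, hL3⟩ : ∃ L : KK k, L = jR k (lam T a b 3 P) := ⟨_, rfl⟩
  have q0 := hlam 0
  have q1 := hlam 1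
  have q2 := hlam 2
  have q3 := hlam 3
  rw [← hL0] at q0
  rw [← hL1] at q1
  rw [← hL2] at q2
  rw [← hL3] at q3
  have hlK : L0 + 3 * t * L1 + 3 * t ^ 2 * L2 + t ^ 3 * L3 = 0 := by
    have h1 := hl p
    rw [hxp, hp, lam_toK, lam_toK, lam_toK, lam_toK, ← hL0, ← hL1, ← hL2, ← hL3] at h1
    exact h1.symm
  have hgK : L1 + 2 * t * L2 + t ^ 2 * L3 = 0 := by
    have h1 := hg p
    rw [hgp, hp, lam_toK, lam_toK, lam_toK, ← hL1, ← hL2, ← hL3] at h1
    exact h1.symm
  have hmK : L2 + t * L3 = 1 := by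
    have h1 := hm p
    rw [hmp, hp, lam_toK, lam_toK, ← hL2, ← hL3] at h1
    exact h1.symm
  have e1 : L1 = -(2 * t * L2) - t ^ 2 * L3 := by linear_combination hgK
  have e0 : L0 = 3 * t ^ 2 * L2 + 2 * t ^ 3 * L3 := by linear_combination hlK - 3 * t * hgK
  have f1 : L2 ^ 2 - L1 * L3 = 1 := by
    have h5 : (L2 + t * L3) ^ 2 = 1 := by rw [hmK, one_pow]
    rw [e1]
    linear_combination h5
  have f2 : L0 * L3 - L1 * L2 = 2 * t := by
    have h5 : (L2 + t * L3) ^ 2 = 1 := by rw [hmK, one_pow]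
    rw [e1, e0]
    linear_combination 2 * t * h5
  have h2E : (2 : KK k) ∈ E := by
    have := E.algebraMap_mem (2 : k)
    rwa [map_ofNat] at this
  have htE : t ∈ E := by
    have g1 : (L2 / ζ) ^ 2 - L1 / ζ * (L3 / ζ) ∈ E :=
      E.sub_mem (pow_mem q2 2) (E.mul_mem q1 q3)
    have g2 : L0 / ζ * (L3 / ζ) - L1 / ζ * (L2 / ζ) ∈ E :=
      E.sub_mem (E.mul_mem q0 q3) (E.mul_mem q1 q2)
    have g3 : (L2 / ζ) ^ 2 - L1 / ζ * (L3 / ζ) = 1 / ζ ^ 2 := by
      rw [← f1]
      field_simp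
    have g4 : L0 / ζ * (L3 / ζ) - L1 / ζ * (L2 / ζ) = 2 * t / ζ ^ 2 := by
      rw [← f2]
      field_simp
    rw [g3] at g1
    rw [g4] at g2
    have g5 := E.div_mem (E.div_mem g2 g1) h2E
    have g6 : 2 * t / ζ ^ 2 / (1 / ζ ^ 2) / 2 = t := by
      field_simp
    rwa [g6] at g5
  have hjE : ∀ w : RatFunc k, jR k w ∈ E := by
    intro w
    apply nodal_jR_mem
    rw [← ht]
    exact htE
  have hsE : s ∈ E := by
    have g1 := E.sub_mem (hdE zb (z j)) (E.mul_mem htE (hdE za (z j)))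
    have g2 : dot zb y / dot (z j) y - t * (dot za y / dot (z j) y) =
        (s + jR k (dot zb P) - t * jR k (dot za P)) / ζ := by
      have g3 : dot zb y - t * dot za y =
          -(4 * c) * (s + jR k (dot zb P) - t * jR k (dot za P)) := by
        rw [hdy, hdy, hF.aa, hF.ab, hF.ba, hF.bb, map_zero, map_one]
        ring
      rw [← mul_div_assoc, ← sub_div, g3, hZy, mul_div_mul_left _ _ h4c]
    rw [g2] at g1
    have hζE : ζ ∈ E := by
      rw [hζ]
      exact hjE _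
    have g4 := E.mul_mem g1 hζE
    rw [div_mul_cancel₀ _ hζ0] at g4
    have g5 := E.add_mem (E.sub_mem g4 (hjE (dot zb P))) (E.mul_mem htE (hjE (dot za P)))
    have g6 : s + jR k (dot zb P) - t * jR k (dot za P) - jR k (dot zb P) +
        t * jR k (dot za P) = s := by ring
    rwa [g6] at g5
  rw [hs] at hsE
  rw [ht] at htE
  exact gen_top E hsE htE

end Pool.Agent.Helper66.QL
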