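import Pool.Agent.Helper66.QL.Defs

/-!
# QL-12: STEP 3, `Om(P + s Q) ≠ 0` if `h(P) ≠ 0`

PROOF. `g(u) = jR (g P) + s jR (g Q) = s ≠ 0` (`uu`, `phi_add4`, `phi_smul4`, `phi_toK`, `toK_pt`, `toK_cst`; `ss k = RatFunc.X ≠ 0`). For `Om`: expand `Om T (toK xR) (toK b) (toK P + s • toK Q)` with `phi_add3`, `phi_add4`, `phi_smul3`, ..., `phi_toK`: it is
`∑_{i<6} jR (c i) s^i` with explicit `c i : RatFunc k` and `c 0 = 3 h(P)² m(P) - 6 h(P) g(P) A + 4 g(P)² B = 3 h(P)²`. If it were `0`, `s_poly` would give `c 0 = 0`, but `3 ≠ 0` and `h(P) ≠ 0`.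
Alternative: work with the vector `U = C ∘ P + X • C ∘ Q` over `(RatFunc k)[X]` and evaluate at `0` (`phi_map` for `Polynomial.aeval 0`), the map `(RatFunc k)[X] → KK k` is injective.
-/

set_option autoImplicit false

namespace Pool.Agent.Helper66.QL

open Pool.Agent.Helper72.QT

variable {k : Type*} [Field k] {T : Ten k 5}

private theorem gen3 (c0 c1 c2 c3 c4 c5 : RatFunc k)
    (h : jR k c0 + jR k c1 * ss k + jR k c2 * ss k ^ 2 + jR k c3 * ss k ^ 3 + jR k c4 * ss k ^ 4 +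
      jR k c5 * ss k ^ 5 = 0) : c0 = 0 := by
  have h1 := s_poly 6 (fun i => match i with
    | 0 => c0
    | 1 => c1
    | 2 => c2
    | 3 => c3
    | 4 => c4
    | _ => c5) (by
      simp only [Finset.sum_range_succ, Finset.sum_range_zero]
      linear_combination h) 0 (by norm_num)
  exact h1

theorem gne3 (a b : Fin 5 → k) (P Q : Fin 5 → RatFunc k)
    (gP : phi T (xR a b) (xR a b) (cst (RatFunc k) b) P = 0)
    (gQ : phi T (xR a b) (xR a b) (cst (RatFunc k) b) Q = 1) :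
    phi T (xK a b) (xK a b) (cst (KK k) b) (uu P Q) ≠ 0 := by
  rw [uu, phi_add4, phi_smul4, ← toK_pt, ← toK_cst, phi_toK, phi_toK, gP, gQ, map_zero, map_one,
    zero_add, mul_one]
  exact RatFunc.X_ne_zero

theorem omne3 (h3 : (3 : k) ≠ 0) (hT : SymT T) (a b : Fin 5 → k) (P Q : Fin 5 → RatFunc k)
    (gP : phi T (xR a b) (xR a b) (cst (RatFunc k) b) P = 0)
    (mP : phi T (xR a b) (cst (RatFunc k) b) (cst (RatFunc k) b) P = 1)
    (hP : phi T (xR a b) (xR a b) P P ≠ 0) :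
    Om T (xK a b) (cst (KK k) b) (uu P Q) ≠ 0 := by
  intro h0
  rw [← toK_pt, ← toK_cst] at h0
  simp only [Om, uu, phi_add2, phi_add3, phi_add4, phi_smul2, phi_smul3, phi_smul4, phi_toK, gP,
    mP, map_zero, map_one] at h0
  set x := xR a b with hx
  set d := cst (RatFunc k) b with hd
  set p0 := phi T x x P P
  set p1 := phi T x x P Q
  set p1' := phi T x x Q P
  set p2 := phi T x x Q Q
  set m1 := phi T x d d Q
  set g1 := phi T x x d Q
  set a0 := phi T x d P P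
  set a1 := phi T x d P Q
  set a1' := phi T x d Q P
  set a2 := phi T x d Q Q
  set b0 := phi T x P P P
  set b1 := phi T x P P Q
  set b1' := phi T x P Q P
  set b1'' := phi T x Q P P
  set b2 := phi T x P Q Q
  set b2' := phi T x Q P Q
  set b2'' := phi T x Q Q P
  set b3 := phi T x Q Q Q
  have h1 := gen3 (3 * p0 ^ 2)
    (3 * (2 * p0 * (p1 + p1') + p0 ^ 2 * m1) - 6 * (p0 * g1 * a0))
    (3 * (((p1 + p1') ^ 2 + 2 * p0 * p2) + 2 * p0 * (p1 + p1') * m1) -
      6 * (p0 * g1 * (a1 + a1') + (p1 + p1') * g1 * a0) + 4 * g1 ^ 2 * b0)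
    (3 * (2 * (p1 + p1') * p2 + ((p1 + p1') ^ 2 + 2 * p0 * p2) * m1) -
      6 * (p0 * g1 * a2 + (p1 + p1') * g1 * (a1 + a1') + p2 * g1 * a0) +
      4 * g1 ^ 2 * (b1 + b1' + b1''))
    (3 * (p2 ^ 2 + 2 * (p1 + p1') * p2 * m1) -
      6 * ((p1 + p1') * g1 * a2 + p2 * g1 * (a1 + a1')) + 4 * g1 ^ 2 * (b2 + b2' + b2''))
    (3 * p2 ^ 2 * m1 - 6 * p2 * g1 * a2 + 4 * g1 ^ 2 * b3) (by
      simp only [map_add, map_sub, map_mul, map_pow, map_ofNat]
      linear_combination h0)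
  have h2 : (3 : RatFunc k) ≠ 0 := by
    have h4 : algebraMap k (RatFunc k) 3 ≠ 0 := by
      rw [Ne, map_eq_zero]
      exact h3
    rwa [map_ofNat] at h4
  exact mul_ne_zero h2 (pow_ne_zero 2 hP) h1

end Pool.Agent.Helper66.QL
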