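import Pool.Agent.Helper66.QL.Two

/-!
# QL-17: STEP 2, the relations which follow from `Om(P + s w) = 0`

Put `A = k[X][X]` (inner variable `t`, outer variable `s`), `xA = pt a b (C X) : Fin 5 → A`, `U = (fun i => C (P i)) + X • cst A w`, `P = PP T a b e1 e2`. `iota` maps `xA` to `xK a b` (`pt_map`, `iota_CX`), `cst A b` to `cst (KK k) b`, `U` to
`uu (toR P) (cst (RatFunc k) w)` (`iota_C`, `iota_X`, `toK_eq`). So `iota (Om T xA (cst A b) U) = Om T (xK a b) (cst (KK k) b) (uu ..) = 0` (`phi_map` for each `phi` in `Om`) and `Om T xA (cst A b) U = 0` (`iota_injective`).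
Values (`C` is a `k`-algebra map `k[X] → A`: `phi_map`/`phi_algebraMap`; `gw'`, `mw'`): `g(U) = C (g(P))`, `3 g(U) = C Wr` (`gPP`), `6 m(U) = C Wr'` (`mPP`), `h(U) = C h0 + X C h1 + X² C h2` as in the statement (`phi_s34`),
`A(U) = phi x b U U = C A0 + X C A1 + X² C A2` with `A2 = phi x b w w`, `B(U) = phi x U U U` = a polynomial of degree at most `3` in the outer variable.
`0 = 18 Om = 9 h² C Wr' - 36 h A C Wr + 8 B (C Wr)²`.
(1) so `C Wr ∣ 9 h² C Wr'`, and `9` is a unit (`3 ≠ 0`).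
(2) the coefficient of `X^4` (outer variable): `9 h2² Wr' - 36 h2 A2 Wr = 0`, divide by `9`.
-/

set_option autoImplicit false

namespace Pool.Agent.Helper66.QL

open Pool.Agent.Helper72.QT Polynomial

variable {k : Type*} [Field k] {T : Ten k 5}

private lemma omr_C (x y z w : Fin 5 → k[X]) :
    phi T (fun i => (C (x i) : k[X][X])) (fun i => C (y i)) (fun i => C (z i))
      (fun i => C (w i)) = C (phi T x y z w) :=
  phi_map T (CAlgHom : k[X] →ₐ[k] k[X][X]) x y z w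

private lemma omr_cst (b : Fin 5 → k) :
    (fun i => (C (cst k[X] b i) : k[X][X])) = cst (k[X][X]) b :=
  cst_map (CAlgHom : k[X] →ₐ[k] k[X][X]) b

private lemma omr_pt (a b : Fin 5 → k) :
    (fun i => (C (pt a b (X : k[X]) i) : k[X][X])) = pt a b (C X : k[X][X]) :=
  pt_map (CAlgHom : k[X] →ₐ[k] k[X][X]) a b X

private lemma omr_om {R S : Type*} [CommRing R] [Algebra k R] [CommRing S] [Algebra k S]
    (g : R →ₐ[k] S) (x b u : Fin 5 → R) :
    Om T (fun i => g (x i)) (fun i => g (b i)) (fun i => g (u i)) = g (Om T x b u) := by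
  simp only [Om, phi_map, map_add, map_sub, map_mul, map_pow, map_ofNat]

private lemma omr_zero (a b w : Fin 5 → k) (P : Fin 5 → k[X])
    (hOm : Om T (xK a b) (cst (KK k) b) (uu (toR P) (cst (RatFunc k) w)) = 0) :
    Om T (pt a b (C X : k[X][X])) (cst (k[X][X]) b)
      ((fun i => C (P i)) + (X : k[X][X]) • cst (k[X][X]) w) = 0 := by
  apply iota_injective
  rw [map_zero, ← omr_om, pt_map, cst_map, iota_CX]
  have e : (fun i => iota k (((fun i => C (P i)) + (X : k[X][X]) • cst (k[X][X]) w) i)) =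
      uu (toR P) (cst (RatFunc k) w) := by
    rw [uu, toK_cst, toK_eq]
    funext i
    simp only [Pi.add_apply, Pi.smul_apply, smul_eq_mul, map_add, map_mul, iota_C, iota_X]
    congr 2
    exact congrFun (cst_map (iota k) w) i
  rw [e]
  exact hOm

private lemma omr_key (h3 : (3 : k) ≠ 0) (a0 a1 a2 c0 c1 c2 d0 d1 d2 d3 g m W W' : k[X])
    (hg : 3 * g = W) (hm : 6 * m = W')
    (h : 3 * (C a0 + X * C (2 * a1) + X ^ 2 * C a2) ^ 2 * C m -
      6 * (C a0 + X * C (2 * a1) + X ^ 2 * C a2) * C g * (C c0 + X * C (2 * c1) + X ^ 2 * C c2) +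
      4 * C g ^ 2 * (C d0 + X * C d1 + X ^ 2 * C d2 + X ^ 3 * C d3) = 0) :
    C W ∣ (C a0 + X * C (2 * a1) + X ^ 2 * C a2) ^ 2 * C W' ∧
      a2 * (a2 * W' - 4 * c2 * W) = 0 := by
  have n2 : (C (2 : k[X]) : k[X][X]) = 2 := map_ofNat C 2
  have n3 : (C (3 : k[X]) : k[X][X]) = 3 := map_ofNat C 3
  have n4 : (C (4 : k[X]) : k[X][X]) = 4 := map_ofNat C 4
  have n6 : (C (6 : k[X]) : k[X][X]) = 6 := map_ofNat C 6
  have n8 : (C (8 : k[X]) : k[X][X]) = 8 := map_ofNat C 8
  have n9 : (C (9 : k[X]) : k[X][X]) = 9 := map_ofNat C 9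
  have n18 : (C (18 : k[X]) : k[X][X]) = 18 := map_ofNat C 18
  have n36 : (C (36 : k[X]) : k[X][X]) = 36 := map_ofNat C 36
  have h9 : (9 : k) ≠ 0 := by
    have e : (9 : k) = 3 * 3 := by norm_num
    rw [e]
    exact mul_ne_zero h3 h3
  have hu : (C (C (9 : k)⁻¹) : k[X][X]) * 9 = 1 := by
    have e : (9 : k[X][X]) = C (C (9 : k)) := by
      rw [map_ofNat C 9]
      exact n9.symm
    rw [e, ← C_mul, ← C_mul, inv_mul_cancel₀ h9, C_1, C_1]
  have hg' : (C W : k[X][X]) = 3 * C g := by rw [← hg, C_mul, n3]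
  have hm' : (C W' : k[X][X]) = 6 * C m := by rw [← hm, C_mul, n6]
  have key : 9 * (C a0 + X * C (2 * a1) + X ^ 2 * C a2) ^ 2 * C W' -
      36 * (C a0 + X * C (2 * a1) + X ^ 2 * C a2) * C W * (C c0 + X * C (2 * c1) + X ^ 2 * C c2) +
      8 * C W ^ 2 * (C d0 + X * C d1 + X ^ 2 * C d2 + X ^ 3 * C d3) = 0 := by
    rw [hg', hm']
    linear_combination 18 * h
  constructor
  · refine ⟨C (C (9 : k)⁻¹) * (36 * (C a0 + X * C (2 * a1) + X ^ 2 * C a2) *
      (C c0 + X * C (2 * c1) + X ^ 2 * C c2) -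
        8 * C W * (C d0 + X * C d1 + X ^ 2 * C d2 + X ^ 3 * C d3)), ?_⟩
    linear_combination (-((C a0 + X * C (2 * a1) + X ^ 2 * C a2) ^ 2 * C W')) * hu +
      C (C (9 : k)⁻¹) * key
  · have h1 : C (9 * a2 ^ 2 * W' - 36 * a2 * c2 * W) * X ^ 4 +
        C (36 * a1 * a2 * W' - 72 * (a1 * c2 + a2 * c1) * W + 8 * d3 * W ^ 2) * X ^ 3 +
        C (9 * (4 * a1 ^ 2 + 2 * a0 * a2) * W' - 36 * (a0 * c2 + 4 * a1 * c1 + a2 * c0) * W +
          8 * d2 * W ^ 2) * X ^ 2 +
        C (36 * a0 * a1 * W' - 72 * (a0 * c1 + a1 * c0) * W + 8 * d1 * W ^ 2) * X +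
        C (9 * a0 ^ 2 * W' - 36 * a0 * c0 * W + 8 * d0 * W ^ 2) = 0 := by
      rw [← key]
      simp only [C_mul, C_add, C_sub, C_pow, map_ofNat]
      ring
    have h2 := congrArg (fun p => coeff p 4) h1
    simp only [coeff_add, coeff_C_mul, coeff_X_pow, coeff_X, coeff_C, coeff_zero] at h2
    norm_num at h2
    have h4 : (9 : k[X]) * (a2 * (a2 * W' - 4 * c2 * W)) = 0 := by
      linear_combination h2
    have h5 : (9 : k[X]) ≠ 0 := by
      rw [← map_ofNat C 9]
      exact C_ne_zero.2 h9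
    exact (mul_eq_zero.1 h4).resolve_left h5

theorem om_rel (h2 : (2 : k) ≠ 0) (h3 : (3 : k) ≠ 0) (hT : SymT T) {a b w e1 e2 : Fin 5 → k}
    (hD : Two T a b w e1 e2)
    (hOm : Om T (xK a b) (cst (KK k) b) (uu (toR (PP T a b e1 e2)) (cst (RatFunc k) w)) = 0) :
    C (Wr T a b e1 e2) ∣
      (C (phi T (pt a b X) (pt a b X) (PP T a b e1 e2) (PP T a b e1 e2)) +
        X * C (2 * phi T (pt a b X) (pt a b X) (PP T a b e1 e2) (cst k[X] w)) +
        X ^ 2 * C (phi T (pt a b X) (pt a b X) (cst k[X] w) (cst k[X] w))) ^ 2 *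
        C (derivative (Wr T a b e1 e2)) ∧
    phi T (pt a b X) (pt a b X) (cst k[X] w) (cst k[X] w) *
      (phi T (pt a b X) (pt a b X) (cst k[X] w) (cst k[X] w) * derivative (Wr T a b e1 e2) -
        4 * phi T (pt a b X) (cst k[X] b) (cst k[X] w) (cst k[X] w) * Wr T a b e1 e2) = 0 := by
  have h0 := omr_zero a b w (PP T a b e1 e2) hOm
  have hg := gPP (T := T) hT a b e1 e2
  have hm := mPP (T := T) hT a b e1 e2
  have hgw := gw' (R := k[X]) hT hD.lw (X : k[X])
  have hmw := mw' (R := k[X]) hD.lw (X : k[X])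
  rw [← omr_pt, ← omr_cst, ← omr_cst w] at h0
  generalize PP T a b e1 e2 = P at *
  generalize Wr T a b e1 e2 = W at *
  generalize pt a b (X : k[X]) = x at *
  generalize cst k[X] b = b' at *
  generalize cst k[X] w = w' at *
  have s1 : phi T x x w' P = phi T x x P w' := phi_s34 hT _ _ _ _
  have s2 : phi T x b' w' P = phi T x b' P w' := phi_s34 hT _ _ _ _
  simp only [Om, phi_add2, phi_add3, phi_add4, phi_smul2, phi_smul3, phi_smul4, omr_C, hgw, hmw,
    s1, s2] at h0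
  rw [C_0] at h0
  refine omr_key h3 _ (phi T x x P w') _ (phi T x b' P P) (phi T x b' P w') _ (phi T x P P P)
    (phi T x w' P P + phi T x P w' P + phi T x P P w')
    (phi T x w' w' P + phi T x w' P w' + phi T x P w' w') (phi T x w' w' w') _ _ _ _ hg hm ?_
  simp only [C_mul, C_add, map_ofNat]
  linear_combination h0

end Pool.Agent.Helper66.QL
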