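import Pool.Agent.Helper66.QL.Defs

/-!
# QL-03: a rational surface from an isomorphism of the field of ratios

PROOF. `E = adjoin k (range (y_j / y_i))`. Put `y' j = e ⟨y j / y i, _⟩ ∈ KK k`. The vector `j ↦ y j / y i` over `E` is a zero of the quartic (`phi_smul1 .. phi_smul4` with the factor `(y i)⁻¹` in `KK k`, then `phi_map` for
`E.val` and injectivity), so `phi T y' y' y' y' = 0` by `phi_map` for `e`. `y' i = e 1 = 1 ≠ 0`, `y' j / y' i = y' j`. The ratios generate: `adjoin k (range y')` is the image of
`adjoin k (range fun j => (⟨y j / y i, _⟩ : E)) = ⊤` (`IntermediateField.adjoin_map`; for the equality `⊤` in `E` map with `E.val`, or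
`IntermediateField.adjoin_self_top`-type lemmas, or: every element of `E` is in the adjoin by `IntermediateField.adjoin_induction`).
-/

set_option autoImplicit false

namespace Pool.Agent.Helper66.QL

open Pool.Agent.Helper72.QT

variable {k : Type*} [Field k] {N : ℕ}

theorem rat_of_equiv (T : Ten k N) (y : Fin N → KK k) (hy : phi T y y y y = 0) (i : Fin N)
    (hi : y i ≠ 0)
    (e : IntermediateField.adjoin k (Set.range fun j => y j / y i) ≃ₐ[k] KK k) : ContRat T := by
  have hmem : ∀ j, y j / y i ∈ IntermediateField.adjoin k (Set.range fun j => y j / y i) := fun j =>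
    IntermediateField.subset_adjoin k _ ⟨j, rfl⟩
  have hz : phi T (fun j => (⟨y j / y i, hmem j⟩ :
      IntermediateField.adjoin k (Set.range fun j => y j / y i)))
      (fun j => ⟨y j / y i, hmem j⟩) (fun j => ⟨y j / y i, hmem j⟩)
      (fun j => ⟨y j / y i, hmem j⟩) = 0 := by
    apply (IntermediateField.adjoin k (Set.range fun j => y j / y i)).val.injective
    show (IntermediateField.adjoin k (Set.range fun j => y j / y i)).val _ =
      (IntermediateField.adjoin k (Set.range fun j => y j / y i)).val 0
    rw [← phi_map, map_zero]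
    have h1 : (fun j => (IntermediateField.adjoin k (Set.range fun j => y j / y i)).val
        (⟨y j / y i, hmem j⟩ : IntermediateField.adjoin k (Set.range fun j => y j / y i))) =
        (y i)⁻¹ • y := by
      funext j
      show y j / y i = (y i)⁻¹ * y j
      rw [div_eq_inv_mul]
    rw [h1, phi_smul1, phi_smul2, phi_smul3, phi_smul4, hy]
    simp
  have h1 : e ⟨y i / y i, hmem i⟩ = 1 := by
    rw [← map_one e]
    congr 1
    exact Subtype.ext (div_self hi)
  refine ⟨fun j => e ⟨y j / y i, hmem j⟩, ?_, i, ?_, ?_⟩
  · have h2 := phi_map T (e : IntermediateField.adjoin k (Set.range fun j => y j / y i) →ₐ[k] KK k)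
      (fun j => ⟨y j / y i, hmem j⟩) (fun j => ⟨y j / y i, hmem j⟩)
      (fun j => ⟨y j / y i, hmem j⟩) (fun j => ⟨y j / y i, hmem j⟩)
    rw [hz, map_zero] at h2
    exact h2
  · show e ⟨y i / y i, hmem i⟩ ≠ 0
    rw [h1]
    exact one_ne_zero
  · rw [eq_top_iff]
    intro x _
    have key : ∀ a : KK k, ∀ ha : a ∈ IntermediateField.adjoin k (Set.range fun j => y j / y i),
        e ⟨a, ha⟩ ∈ IntermediateField.adjoin k
          (Set.range fun j => e ⟨y j / y i, hmem j⟩ / e ⟨y i / y i, hmem i⟩) := by
      intro a ha
      induction ha using IntermediateField.adjoin_induction with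
      | mem b hb =>
        obtain ⟨j, rfl⟩ := hb
        refine IntermediateField.subset_adjoin k _ ⟨j, ?_⟩
        show e ⟨y j / y i, hmem j⟩ / e ⟨y i / y i, hmem i⟩ = _
        rw [h1, div_one]
      | algebraMap r =>
        have h3 : e (algebraMap k _ r) = algebraMap k (KK k) r := e.commutes r
        have h4 := IntermediateField.algebraMap_mem (IntermediateField.adjoin k
          (Set.range fun j => e ⟨y j / y i, hmem j⟩ / e ⟨y i / y i, hmem i⟩)) r
        rw [← h3] at h4
        exact h4
      | add a b ha hb iha ihb =>
        have h3 := add_mem iha ihb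
        rw [← map_add] at h3
        exact h3
      | inv a ha iha =>
        have h3 := inv_mem iha
        rw [← map_inv₀] at h3
        exact h3
      | mul a b ha hb iha ihb =>
        have h3 := mul_mem iha ihb
        rw [← map_mul] at h3
        exact h3
    have h5 := key (e.symm x : KK k) (e.symm x).2
    have h6 : e ⟨(e.symm x : KK k), (e.symm x).2⟩ = x := e.apply_symm_apply x
    rw [h6] at h5
    exact h5

end Pool.Agent.Helper66.QL
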