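import Pool.Agent.Helper72.QT.RatUni

/-!
# QL-02: two elements over which `k(t)(s)` is algebraic generate a purely transcendental field

`KK k = k(t)(s)`, `QT/RatUni.lean` contains `indep_ss_tt`, `adjoin_ss_tt`, `exists_equiv` and (as private theorems, copy what you need) `basis_ss_tt`.

PROOF. `![X1, X2]` is algebraically independent over `k`: `exists_isTranscendenceBasis_subset` applied to the set `{X1, X2}` (as in the proof of `uni_of_rat` in `QT/RatUni.lean`) gives a
transcendence basis contained in `{X1, X2}`, of cardinality `2` by comparison with `![tt k, ss k]`, so it is `{X1, X2}` with `X1 ≠ X2`. Then `AlgebraicIndependent.aevalEquivField`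
(as in `exists_equiv`) gives `adjoin k {X1, X2} ≃ FractionRing (MvPolynomial (Fin 2) k) ≃ KK k`.
-/

set_option autoImplicit false

namespace Pool.Agent.Helper66.QL

open Pool.Agent.Helper72.QT

variable {k : Type*} [Field k]

private theorem alg_of_adjoin {s : Set (KK k)} (h : IntermediateField.adjoin k s = ⊤) :
    Algebra.IsAlgebraic (Algebra.adjoin k s) (KK k) := by
  rw [← IntermediateField.isAlgebraic_adjoin_iff_top]
  refine ⟨fun x => ?_⟩
  have hx : x ∈ IntermediateField.adjoin k s := by
    rw [h]
    exact IntermediateField.mem_top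
  exact isAlgebraic_algebraMap (⟨x, hx⟩ : IntermediateField.adjoin k s)

private theorem basis_ss_tt : IsTranscendenceBasis k ![tt k, ss k] := by
  have := alg_of_adjoin (k := k) adjoin_ss_tt
  exact (indep_ss_tt (k := k)).isTranscendenceBasis_iff_isAlgebraic.2 this

theorem equiv_of_alg (X1 X2 : KK k)
    (h : ∀ z : KK k, IsAlgebraic (IntermediateField.adjoin k {X1, X2}) z) :
    Nonempty (IntermediateField.adjoin k {X1, X2} ≃ₐ[k] KK k) := by
  have halg : Algebra.IsAlgebraic (Algebra.adjoin k ({X1, X2} : Set (KK k))) (KK k) := by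
    rw [← IntermediateField.isAlgebraic_adjoin_iff_top]
    exact ⟨h⟩
  obtain ⟨t, hts, ht⟩ := exists_isTranscendenceBasis_subset (R := k) ({X1, X2} : Set (KK k))
  have hcard := IsTranscendenceBasis.lift_cardinalMk_eq (basis_ss_tt (k := k)) ht
  have hc2 : Cardinal.mk t = 2 := by
    have h1 : Cardinal.lift.{_, 0} (Cardinal.mk (Fin 2)) = 2 := by simp
    rw [h1] at hcard
    have h2 : Cardinal.lift.{0} (Cardinal.mk t) = 2 := hcard.symm
    simpa using h2
  have ht2 : Nat.card t = 2 := by
    rw [Nat.card, hc2]
    simp
  have hfin : Finite t := Nat.finite_of_card_ne_zero (by rw [ht2]; norm_num)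
  have hle : ({X1, X2} : Set (KK k)).ncard ≤ 2 := by
    have h1 := Set.ncard_insert_le X1 ({X2} : Set (KK k))
    rw [Set.ncard_singleton] at h1
    exact h1
  have hteq : t = ({X1, X2} : Set (KK k)) := by
    refine Set.eq_of_subset_of_ncard_le hts ?_ (Set.toFinite _)
    have h1 : t.ncard = 2 := ht2
    rw [h1]
    exact hle
  let e : Fin 2 ≃ t := (Finite.equivFinOfCardEq ht2).symm
  have h1 := ht.1.comp e e.injective
  have hr : Set.range (((↑) : t → KK k) ∘ e) = ({X1, X2} : Set (KK k)) := by
    rw [Set.range_comp, e.surjective.range_eq, Set.image_univ, Subtype.range_coe, hteq]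
  obtain ⟨e2⟩ := exists_equiv (k := k)
  exact ⟨((IntermediateField.equivOfEq (congrArg (IntermediateField.adjoin k) hr.symm)).trans
    h1.aevalEquivField.symm).trans e2.symm⟩

end Pool.Agent.Helper66.QL
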