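import Pool.Agent.Helper66.QL.Field3
import Pool.Agent.Helper66.QL.TrDeg
import Pool.Agent.Helper66.QL.RatOf

/-!
# QL-08: STEP S, field-theoretic part

PROOF. `E = adjoin k (range (y_j / y_i))`, `L = adjoin k {r1, r2} ≤ E` (`h1`, `h2`). The polynomial `p = C c0 + C c1 X + C c2 X² + C c3 X³` over `L` (`c n ∈ L`) is not `0`, of degree at most `3` and `p(t) = 0`. By `eq_or_eq`
(`htop` for `M ≥ L`) `E = L` or `E = ⊤`. If `E = ⊤`: `⟨y, hy, i, hi, _⟩`. If `E = L`: every element of `KK k` is algebraic over `L`: `t` is algebraic over `L`, the intermediate field of `KK k / L` generated by `t` is algebraic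
(`IntermediateField.isAlgebraic_adjoin_simple`, `isAlgebraic_adjoin`) and it is `⊤` (restrict scalars to `k`, use `htop`); so `equiv_of_alg` gives `L ≃ₐ[k] KK k`, transport along
`E = L` (`IntermediateField.equivOfEq`) and `rat_of_equiv`.
-/

set_option autoImplicit false

namespace Pool.Agent.Helper66.QL

open Pool.Agent.Helper72.QT

variable {k : Type*} [Field k] {N : ℕ} {T : Ten k N}

private theorem alg_of_cubic {K : Type*} [Field K] [Algebra k K] (L : IntermediateField k K)
    (t : K) (p : Polynomial L) (hp : p ≠ 0) (ht : Polynomial.aeval t p = 0)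
    (htop : ∀ M : IntermediateField k K, L ≤ M → t ∈ M → M = ⊤) (z : K) : IsAlgebraic L z := by
  have hint : IsIntegral L t := isAlgebraic_iff_isIntegral.1 ⟨p, hp, ht⟩
  have halg : Algebra.IsAlgebraic L (IntermediateField.adjoin L ({t} : Set K)) :=
    IntermediateField.isAlgebraic_adjoin_simple hint
  have h1 : (IntermediateField.adjoin L {t}).restrictScalars k = ⊤ := by
    apply htop
    · intro x hx
      exact (IntermediateField.adjoin L {t}).algebraMap_mem (⟨x, hx⟩ : L)
    · exact IntermediateField.mem_adjoin_simple_self L t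
  have hz : z ∈ IntermediateField.adjoin L ({t} : Set K) := by
    have hx : z ∈ (IntermediateField.adjoin L {t}).restrictScalars k := by
      rw [h1]
      trivial
    exact hx
  have h2 := halg.isAlgebraic (⟨z, hz⟩ : IntermediateField.adjoin L ({t} : Set K))
  exact isAlgebraic_algebraMap_iff (algebraMap (IntermediateField.adjoin L ({t} : Set K)) K).injective |>.2 h2

theorem rat_of_cubic (y : Fin N → KK k) (hy : phi T y y y y = 0) (i : Fin N) (hi : y i ≠ 0)
    (r1 r2 : KK k)
    (h1 : r1 ∈ IntermediateField.adjoin k (Set.range fun j => y j / y i))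
    (h2 : r2 ∈ IntermediateField.adjoin k (Set.range fun j => y j / y i))
    (c : Fin 4 → KK k) (hc : ∀ n, c n ∈ IntermediateField.adjoin k {r1, r2})
    (hne : ∃ n, c n ≠ 0)
    (ht : c 0 + c 1 * tt k + c 2 * tt k ^ 2 + c 3 * tt k ^ 3 = 0)
    (htop : ∀ M : IntermediateField k (KK k), r1 ∈ M → r2 ∈ M → tt k ∈ M → M = ⊤) :
    ContRat T := by
  obtain ⟨E, hE⟩ : ∃ E, E = IntermediateField.adjoin k (Set.range fun j => y j / y i) := ⟨_, rfl⟩
  obtain ⟨L, hL⟩ : ∃ L, L = IntermediateField.adjoin k ({r1, r2} : Set (KK k)) := ⟨_, rfl⟩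
  have hr1 : r1 ∈ L := by
    rw [hL]
    exact IntermediateField.subset_adjoin k _ (Set.mem_insert _ _)
  have hr2 : r2 ∈ L := by
    rw [hL]
    exact IntermediateField.subset_adjoin k _ (Set.mem_insert_of_mem _ rfl)
  have hLE : L ≤ E := by
    rw [hL, IntermediateField.adjoin_le_iff, hE]
    rintro x (rfl | rfl)
    · exact h1
    · exact h2
  have hcL : ∀ n, c n ∈ L := by
    intro n
    rw [hL]
    exact hc n
  obtain ⟨p, hpdef⟩ : ∃ p : Polynomial L, p = Polynomial.C ⟨c 0, hcL 0⟩ +
      Polynomial.C ⟨c 1, hcL 1⟩ * Polynomial.X + Polynomial.C ⟨c 2, hcL 2⟩ * Polynomial.X ^ 2 +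
      Polynomial.C ⟨c 3, hcL 3⟩ * Polynomial.X ^ 3 := ⟨_, rfl⟩
  have hcoeff : ∀ n : Fin 4, p.coeff n = ⟨c n, hcL n⟩ := by
    intro n
    rw [hpdef]
    fin_cases n <;>
      simp [Polynomial.coeff_X, Polynomial.coeff_C, Polynomial.coeff_X_pow,
        Polynomial.coeff_C_mul]
  have hp : p ≠ 0 := by
    intro h0
    obtain ⟨n, hn⟩ := hne
    apply hn
    have h3 := hcoeff n
    rw [h0, Polynomial.coeff_zero] at h3
    exact (congrArg Subtype.val h3).symm
  have hd : p.natDegree ≤ 3 := by
    rw [hpdef]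
    compute_degree
  have haeval : Polynomial.aeval (tt k) p = 0 := by
    rw [hpdef]
    simp only [map_add, map_mul, map_pow, Polynomial.aeval_X, Polynomial.aeval_C]
    exact ht
  have htop' : ∀ M : IntermediateField k (KK k), L ≤ M → tt k ∈ M → M = ⊤ :=
    fun M hM hM' => htop M (hM hr1) (hM hr2) hM'
  rcases eq_or_eq L E hLE (tt k) p hp hd haeval htop' with h | h
  · have halg : ∀ z : KK k, IsAlgebraic (IntermediateField.adjoin k ({r1, r2} : Set (KK k))) z := by
      intro z
      subst hL
      exact alg_of_cubic _ (tt k) p hp haeval htop' z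
    obtain ⟨e⟩ := equiv_of_alg r1 r2 halg
    have hEL : IntermediateField.adjoin k (Set.range fun j => y j / y i) =
        IntermediateField.adjoin k ({r1, r2} : Set (KK k)) := by
      rw [← hE, ← hL, h]
    exact rat_of_equiv T y hy i hi ((IntermediateField.equivOfEq hEL).trans e)
  · exact ⟨y, hy, i, hi, by rw [← hE, h]⟩

end Pool.Agent.Helper66.QL
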