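import Mathlib

/-!
# QL-27: a valuation ring of `k((T))` which contains `k` but not `T`

PROOF. Let `A ⊆ K` be the subring generated by `k` and `T⁻¹` (`Algebra.adjoin k {T⁻¹}`). `T ∉ A`: otherwise `T = ∑_{i ≤ n} c_i T^{-i}` with `c_i ∈ k` (`Algebra.adjoin_singleton_eq_range_aeval`), so `T^(n+1) = ∑ c_i T^(n-i)` in
`PowerSeries k` (injectivity of `algebraMap`), compare the coefficients of index `n + 1`. So `T⁻¹` is not a unit of `A`, it lies in a maximal ideal `P` of `A` (`exists_le_maximal`). `LocalSubring.ofPrime A P` is a local subring of `K`;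
`LocalSubring.exists_le_valuationSubring` (see `Mathlib/RingTheory/Valuation/LocalSubring.lean`) gives a valuation subring `O` which dominates it; `T⁻¹` is in the maximal ideal of the local subring, hence not a unit in `O`
(domination = local homomorphism), so `T ∉ O`.
-/

set_option autoImplicit false

namespace Pool.Agent.Helper66.QL

private lemma ql27_not_mem (k : Type*) [Field k] :
    algebraMap (PowerSeries k) (FractionRing (PowerSeries k)) PowerSeries.X ∉
      Algebra.adjoin k {(algebraMap (PowerSeries k) (FractionRing (PowerSeries k)) PowerSeries.X)⁻¹} := by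
  intro hmem
  rw [Algebra.adjoin_singleton_eq_range_aeval] at hmem
  obtain ⟨p, hp⟩ := hmem
  set T : FractionRing (PowerSeries k) :=
    algebraMap (PowerSeries k) (FractionRing (PowerSeries k)) PowerSeries.X with hT
  have hinj : Function.Injective (algebraMap (PowerSeries k) (FractionRing (PowerSeries k))) :=
    IsFractionRing.injective _ _
  have hT0 : T ≠ 0 := by
    rw [hT, Ne, map_eq_zero_iff _ hinj]
    exact PowerSeries.X_ne_zero
  have h1 : Polynomial.aeval T⁻¹ p * T ^ p.natDegree = T ^ (p.natDegree + 1) := by
    have : Polynomial.aeval T⁻¹ p = T := hp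
    rw [this, pow_succ]
    ring
  rw [Polynomial.aeval_eq_sum_range, Finset.sum_mul] at h1
  have h2 : algebraMap (PowerSeries k) (FractionRing (PowerSeries k))
      (∑ i ∈ Finset.range (p.natDegree + 1),
        PowerSeries.C (p.coeff i) * PowerSeries.X ^ (p.natDegree - i))
      = algebraMap (PowerSeries k) (FractionRing (PowerSeries k))
        (PowerSeries.X ^ (p.natDegree + 1)) := by
    rw [map_sum, map_pow, ← hT, ← h1]
    refine Finset.sum_congr rfl fun i hi => ?_
    have hi' : i ≤ p.natDegree := Nat.lt_succ_iff.1 (Finset.mem_range.1 hi)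
    rw [map_mul, map_pow, ← hT, Algebra.smul_def]
    have h3 : algebraMap k (FractionRing (PowerSeries k)) (p.coeff i)
        = algebraMap (PowerSeries k) (FractionRing (PowerSeries k)) (PowerSeries.C (p.coeff i)) := by
      rw [IsScalarTower.algebraMap_apply k (PowerSeries k) (FractionRing (PowerSeries k))]
      rfl
    rw [h3, mul_assoc]
    congr 1
    rw [inv_pow]
    have h4 : T ^ p.natDegree = T ^ i * T ^ (p.natDegree - i) := by
      rw [← pow_add]
      congr 1
      omega
    rw [h4]
    field_simp
  have h5 := congrArg (PowerSeries.coeff (p.natDegree + 1)) (hinj h2)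
  rw [PowerSeries.coeff_X_pow, if_pos rfl, map_sum] at h5
  rw [Finset.sum_eq_zero] at h5
  · exact zero_ne_one h5
  · intro i _
    rw [PowerSeries.coeff_C_mul, PowerSeries.coeff_X_pow, if_neg (by omega), mul_zero]

theorem exists_val (k : Type*) [Field k] :
    ∃ O : ValuationSubring (FractionRing (PowerSeries k)),
      (∀ c : k, algebraMap k (FractionRing (PowerSeries k)) c ∈ O) ∧
      algebraMap (PowerSeries k) (FractionRing (PowerSeries k)) PowerSeries.X ∉ O := by
  have hnot := ql27_not_mem k
  set T : FractionRing (PowerSeries k) :=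
    algebraMap (PowerSeries k) (FractionRing (PowerSeries k)) PowerSeries.X with hT
  have hinj : Function.Injective (algebraMap (PowerSeries k) (FractionRing (PowerSeries k))) :=
    IsFractionRing.injective _ _
  have hT0 : T ≠ 0 := by
    rw [hT, Ne, map_eq_zero_iff _ hinj]
    exact PowerSeries.X_ne_zero
  let A : Subring (FractionRing (PowerSeries k)) := (Algebra.adjoin k {T⁻¹}).toSubring
  have hmemA : T⁻¹ ∈ A := Algebra.subset_adjoin (Set.mem_singleton _)
  let u : A := ⟨T⁻¹, hmemA⟩
  have hI : Ideal.span {u} ≠ ⊤ := by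
    intro h
    rw [Ideal.span_singleton_eq_top] at h
    obtain ⟨v, hv⟩ := h.exists_right_inv
    apply hnot
    have h1 : T⁻¹ * (v : FractionRing (PowerSeries k)) = 1 := congrArg Subtype.val hv
    have h2 : (v : FractionRing (PowerSeries k)) = T := by
      field_simp at h1
      exact h1
    have h3 : (v : FractionRing (PowerSeries k)) ∈ A := v.2
    rw [h2] at h3
    exact h3
  obtain ⟨V, hAV, hV⟩ := Ideal.image_subset_nonunits_valuationSubring (Ideal.span {u}) hI
  refine ⟨V, fun c => hAV ((Algebra.adjoin k {T⁻¹}).algebraMap_mem c), ?_⟩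
  have h1 : T⁻¹ ∈ V.nonunits := hV ⟨u, Ideal.subset_span rfl, rfl⟩
  exact (V.inv_mem_nonunits_iff.mp h1).resolve_left hT0

end Pool.Agent.Helper66.QL
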