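import Pool.Agent.Helper66.QL.FixLine
import Pool.Agent.Helper66.QL.HomLine
import Pool.Agent.Helper66.QL.Val
import Pool.Agent.Helper66.QL.Minor

/-!
# QL-29: a line over the residue field

PROOF. `K = FractionRing (PowerSeries k)`, `T` the image of `PowerSeries.X`, `ι = algebraMap (PowerSeries k) K`. `fix_line` gives `a, b`; `a_K = ι ∘ a`, `b_K = ι ∘ b` are linearly independent (coordinates `0, 1`) and for
`G = map (algebraMap k K) (F1 k) + C T * map (algebraMap k K) F` (homogeneous of degree 4: `F1` is; `IsHomogeneous.map`, `IsHomogeneous.add`, `isHomogeneous_C_mul..`) the polynomial `aeval (C (a_K l) + X C (b_K l)) G ∈ K[X]` is `0` (apply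
`Polynomial.map ι` to `fix_line`). `hom_line`: `G(s a_K + t b_K) = 0` for all `s, t ∈ K` (`K` is infinite: it contains the infinite field `k`). `exists_val`: `O`; `norm_basis`: `i, j, a', b'`; `s a' + t b'` is again of the form `s'' a_K + t'' b_K`, so
`G(s a' + t b') = 0` for `s, t ∈ k`. Multiply by `T⁻¹`: `T⁻¹ F1(s a' + t b') + F(s a' + t b') = 0`, with `T⁻¹ ∈ O`, a non-unit of `O` (`T ∉ O`), and all arguments in `O`. Let `κ = IsLocalRing.ResidueField O`, an algebra over `k` via
`k → O → κ` (a ring homomorphism `k →+* O` from the first property of `exists_val`; take `κ` with this algebra structure as the witness). Apply the residue map `O → κ`: `0 + F(s ā + t b̄) = 0`.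

(The field `κ` lives in the universe of `k`.)
-/

set_option autoImplicit false

namespace Pool.Agent.Helper66.QL

open Polynomial

universe u

private theorem ResLine_map {k : Type u} [Field k] (F : MvPolynomial (Fin 5) k)
    (f : Fin 5 → (PowerSeries k)[X]) :
    Polynomial.map (algebraMap (PowerSeries k) (FractionRing (PowerSeries k)))
        (MvPolynomial.aeval f F) =
      MvPolynomial.aeval
        (fun l => Polynomial.map (algebraMap (PowerSeries k) (FractionRing (PowerSeries k))) (f l))
        (MvPolynomial.map (algebraMap k (FractionRing (PowerSeries k))) F) := by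
  induction F using MvPolynomial.induction_on with
  | C c =>
    rw [MvPolynomial.map_C, MvPolynomial.aeval_C, MvPolynomial.aeval_C,
      Polynomial.algebraMap_apply, Polynomial.algebraMap_apply, Polynomial.map_C,
      Algebra.algebraMap_self, RingHom.id_apply,
      ← IsScalarTower.algebraMap_apply k (PowerSeries k) (FractionRing (PowerSeries k))]
  | add p q hp hq => simp only [map_add, Polynomial.map_add, hp, hq]
  | mul_X p i hp => simp only [map_mul, Polynomial.map_mul, hp, MvPolynomial.map_X,
      MvPolynomial.aeval_X]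

private theorem ResLine_F1 (k : Type u) [Field k] : (F1 k).IsHomogeneous 4 := by
  have hX : ∀ i : Fin 5, (MvPolynomial.X i : MvPolynomial (Fin 5) k).IsHomogeneous 1 :=
    fun i => MvPolynomial.isHomogeneous_X k i
  have h1 : (MvPolynomial.X 2 * MvPolynomial.X 0 ^ 3 : MvPolynomial (Fin 5) k).IsHomogeneous 4 :=
    (hX 2).mul ((hX 0).pow 3)
  have h2 : (MvPolynomial.X 3 * MvPolynomial.X 1 ^ 3 : MvPolynomial (Fin 5) k).IsHomogeneous 4 :=
    (hX 3).mul ((hX 1).pow 3)
  have h3 : (MvPolynomial.X 4 * MvPolynomial.X 0 ^ 2 * MvPolynomial.X 1 :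
      MvPolynomial (Fin 5) k).IsHomogeneous 4 :=
    ((hX 4).mul ((hX 0).pow 2)).mul (hX 1)
  exact (h1.add h2).add h3

private theorem ResLine_eval {k : Type u} [Field k] {K : Type u} [Field K] [Algebra k K]
    (O : ValuationSubring K) (φ : k →+* O) (hφ : ∀ c, (φ c : K) = algebraMap k K c)
    (F : MvPolynomial (Fin 5) k) (V : Fin 5 → O) :
    ((MvPolynomial.eval₂ φ V F : O) : K) =
      MvPolynomial.eval (fun l => (V l : K)) (MvPolynomial.map (algebraMap k K) F) := by
  induction F using MvPolynomial.induction_on with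
  | C c => rw [MvPolynomial.eval₂_C, MvPolynomial.map_C, MvPolynomial.eval_C, hφ]
  | add p q hp hq =>
    rw [MvPolynomial.eval₂_add, map_add, map_add, ← hp, ← hq]
    rfl
  | mul_X p i hp =>
    rw [MvPolynomial.eval₂_mul, MvPolynomial.eval₂_X, map_mul, map_mul, ← hp,
      MvPolynomial.map_X, MvPolynomial.eval_X]
    rfl

theorem res_line {k : Type u} [Field k] [Infinite k] (F : MvPolynomial (Fin 5) k)
    (hF : F.IsHomogeneous 4) :
    ∃ (κ : Type u) (_ : Field κ) (_ : Algebra k κ) (i j : Fin 5) (a b : Fin 5 → κ),
      a i = 1 ∧ a j = 0 ∧ b i = 0 ∧ b j = 1 ∧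
      ∀ s t : k, MvPolynomial.aeval (fun l => algebraMap k κ s * a l + algebraMap k κ t * b l) F =
        0 := by
  classical
  let K := FractionRing (PowerSeries k)
  let ι : PowerSeries k →+* K := algebraMap (PowerSeries k) K
  let T : K := ι PowerSeries.X
  obtain ⟨a, b, ha0, ha1, hb0, hb1, hab⟩ := fix_line F hF
  let aK : Fin 5 → K := fun l => ι (a l)
  let bK : Fin 5 → K := fun l => ι (b l)
  let G : MvPolynomial (Fin 5) K := MvPolynomial.map (algebraMap k K) (F1 k) +
    MvPolynomial.C T * MvPolynomial.map (algebraMap k K) F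
  have hG : G.IsHomogeneous 4 :=
    ((ResLine_F1 k).map _).add ((hF.map _).C_mul T)
  have hfm : (fun l => Polynomial.map ι (C (a l) + X * C (b l) : (PowerSeries k)[X])) =
      fun l => (C (aK l) + X * C (bK l) : K[X]) := by
    funext l
    simp only [Polynomial.map_add, Polynomial.map_mul, Polynomial.map_C, Polynomial.map_X, aK, bK]
  have hG0 : MvPolynomial.aeval (fun l => (C (aK l) + X * C (bK l) : K[X])) G = 0 := by
    have h := congrArg (Polynomial.map ι) hab
    rw [Polynomial.map_add, Polynomial.map_mul, Polynomial.map_zero, Polynomial.map_C,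
      ResLine_map, ResLine_map, hfm] at h
    rw [← h]
    simp only [G, map_add, map_mul, MvPolynomial.aeval_C, Polynomial.algebraMap_apply,
      Algebra.algebraMap_self, RingHom.id_apply]
    rfl
  have : Infinite K := Infinite.of_injective (algebraMap k K) (algebraMap k K).injective
  have hline := hom_line G hG aK bK hG0
  have hlin : LinearIndependent K ![aK, bK] := by
    rw [LinearIndependent.pair_iff]
    intro s t hst
    have h0 := congrFun hst 0
    have h1 := congrFun hst 1
    simp only [Pi.add_apply, Pi.smul_apply, smul_eq_mul, Pi.zero_apply, aK, bK, ha0, hb0, ha1,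
      hb1, map_one, map_zero, mul_one, mul_zero, add_zero, zero_add] at h0 h1
    exact ⟨h0, h1⟩
  obtain ⟨O, hkO, hTO⟩ := exists_val k
  obtain ⟨i, j, a', b', ha', hb', hai, haj, hbi, hbj, α, β, γ, δ, hα, hγ⟩ :=
    norm_basis O aK bK hlin
  have hline' : ∀ s t : K, MvPolynomial.eval (s • a' + t • b') G = 0 := by
    intro s t
    have : s • a' + t • b' = (s * α + t * γ) • aK + (s * β + t * δ) • bK := by
      rw [hα, hγ]
      simp only [smul_add, add_smul, smul_smul]
      abel
    rw [this]
    exact hline _ _
  let φ : k →+* O := RingHom.codRestrict (algebraMap k K) O hkO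
  have hφ : ∀ c, (φ c : K) = algebraMap k K c := fun c => rfl
  let A : Fin 5 → O := fun l => ⟨a' l, ha' l⟩
  let B : Fin 5 → O := fun l => ⟨b' l, hb' l⟩
  have hTi : T⁻¹ ∈ O := (O.mem_or_inv_mem T).resolve_left hTO
  let τ : O := ⟨T⁻¹, hTi⟩
  have hT0 : T ≠ 0 := by
    intro h
    exact hTO (by
      have : T ∈ O := by rw [h]; exact O.zero_mem
      exact this)
  have hτ : ¬ IsUnit τ := by
    intro h
    obtain ⟨v, hv⟩ := h.exists_right_inv
    have h1 : T⁻¹ * (v : K) = 1 := congrArg Subtype.val hv
    have h2 : (v : K) = T := by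
      have h3 := congrArg (fun y => T * y) h1
      simp only [← mul_assoc, mul_inv_cancel₀ hT0, one_mul, mul_one] at h3
      exact h3
    apply hTO
    have h4 : T ∈ O := by
      rw [← h2]
      exact v.2
    exact h4
  have hrel : ∀ s t : k,
      MvPolynomial.eval₂ φ (fun l => φ s * A l + φ t * B l) F =
        -(τ * MvPolynomial.eval₂ φ (fun l => φ s * A l + φ t * B l) (F1 k)) := by
    intro s t
    apply Subtype.ext
    have e1 := ResLine_eval O φ hφ F (fun l => φ s * A l + φ t * B l)
    have e2 := ResLine_eval O φ hφ (F1 k) (fun l => φ s * A l + φ t * B l)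
    have e3 : (fun l => ((φ s * A l + φ t * B l : O) : K)) =
        algebraMap k K s • a' + algebraMap k K t • b' := by
      funext l
      rfl
    rw [e3] at e1 e2
    have e4 := hline' (algebraMap k K s) (algebraMap k K t)
    simp only [G, map_add, map_mul, MvPolynomial.eval_C] at e4
    rw [← e1, ← e2] at e4
    show ((MvPolynomial.eval₂ φ (fun l => φ s * A l + φ t * B l) F : O) : K) =
      -(T⁻¹ * ((MvPolynomial.eval₂ φ (fun l => φ s * A l + φ t * B l) (F1 k) : O) : K))
    generalize ((MvPolynomial.eval₂ φ (fun l => φ s * A l + φ t * B l) F : O) : K) = x at e4 ⊢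
    generalize ((MvPolynomial.eval₂ φ (fun l => φ s * A l + φ t * B l) (F1 k) : O) : K) = y
      at e4 ⊢
    have e5 : T * x = -y := by linear_combination e4
    have e6 : x = T⁻¹ * (T * x) := by rw [← mul_assoc, inv_mul_cancel₀ hT0, one_mul]
    rw [e6, e5]
    ring
  let κ := IsLocalRing.ResidueField O
  let ψ : k →+* κ := (IsLocalRing.residue O).comp φ
  let : Algebra k κ := ψ.toAlgebra
  refine ⟨κ, inferInstance, ψ.toAlgebra, i, j, fun l => IsLocalRing.residue O (A l),
    fun l => IsLocalRing.residue O (B l), ?_, ?_, ?_, ?_, ?_⟩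
  · have : A i = 1 := Subtype.ext hai
    simp only [this, map_one]
  · have : A j = 0 := Subtype.ext haj
    simp only [this, map_zero]
  · have : B i = 0 := Subtype.ext hbi
    simp only [this, map_zero]
  · have : B j = 1 := Subtype.ext hbj
    simp only [this, map_one]
  · intro s t
    have h1 : MvPolynomial.aeval (fun l => algebraMap k κ s * IsLocalRing.residue O (A l) +
        algebraMap k κ t * IsLocalRing.residue O (B l)) F =
        IsLocalRing.residue O (MvPolynomial.eval₂ φ (fun l => φ s * A l + φ t * B l) F) := by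
      rw [MvPolynomial.hom_eval₂, MvPolynomial.aeval_def]
      rfl
    have h2 : IsLocalRing.residue O τ = 0 := by
      rw [IsLocalRing.residue_eq_zero_iff]
      exact (IsLocalRing.mem_maximalIdeal τ).2 hτ
    show MvPolynomial.aeval (fun l => algebraMap k κ s * IsLocalRing.residue O (A l) +
        algebraMap k κ t * IsLocalRing.residue O (B l)) F = 0
    rw [h1, hrel, map_neg, map_mul, h2, zero_mul, neg_zero]

end Pool.Agent.Helper66.QL
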