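import Pool.Agent.Helper66.QL.Ker3

/-!
# QL-11: STEP 3, the vectors `P`, `Q`

PROOF of `solve3`. The linear map `Λ : (RatFunc k)^5 → (RatFunc k)^3`, `w ↦ (l w, g w, m w)` (linear: `phi_add4`, `phi_smul4`) has its kernel inside the span of two vectors by `ker3`, so its kernel has dimension at most `2` and its range dimension
at least `3` (`LinearMap.finrank_range_add_finrank_ker`), so it is surjective.
PROOF of `indep4`. Let `α a + β b + γ P + δ Q = 0`. Apply `g` and `m`: these vanish on `a, b` (`g_eq`, `m_eq`, `lam_a`, `lam_b`), so `δ = 0`, `γ = 0`; then `α a + β b = 0` gives `α = β = 0`: `a, b` are linearly independent over `k`,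
so over `RatFunc k` (apply `dot za`, `dot zb` of `exists_frm`).
-/

set_option autoImplicit false

namespace Pool.Agent.Helper66.QL

open Pool.Agent.Helper72.QT

variable {k : Type*} [Field k] {T : Ten k 5}

private theorem solve3_kernel_bound (a b : Fin 5 → k)
    (L : (Fin 5 → RatFunc k) →ₗ[RatFunc k] (Fin 3 → RatFunc k))
    (h : ∀ w, L w = 0 → ∃ α β : RatFunc k, w = α • cst (RatFunc k) a + β • cst (RatFunc k) b) :
    Function.Surjective L := by
  classical
  rw [← LinearMap.range_eq_top]
  apply Submodule.eq_top_of_finrank_eq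
  have h1 := LinearMap.finrank_range_add_finrank_ker L
  have h2 : Module.finrank (RatFunc k) (LinearMap.ker L) ≤ 2 := by
    have hle : LinearMap.ker L ≤ Submodule.span (RatFunc k)
        (({cst (RatFunc k) a, cst (RatFunc k) b} : Finset (Fin 5 → RatFunc k)) :
          Set (Fin 5 → RatFunc k)) := by
      intro w hw
      obtain ⟨α, β, e⟩ := h w (LinearMap.mem_ker.1 hw)
      rw [e]
      refine Submodule.add_mem _ (Submodule.smul_mem _ _ (Submodule.subset_span ?_))
        (Submodule.smul_mem _ _ (Submodule.subset_span ?_))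
      · simp
      · simp
    exact (Submodule.finrank_mono hle).trans
      ((finrank_span_finset_le_card _).trans Finset.card_le_two)
  have h3 : Module.finrank (RatFunc k) (Fin 5 → RatFunc k) = 5 := by simp
  have h4 : Module.finrank (RatFunc k) (Fin 3 → RatFunc k) = 3 := by simp
  have h5 : Module.finrank (RatFunc k) (LinearMap.range L) ≤ 3 := by
    exact (Submodule.finrank_le (LinearMap.range L)).trans (le_of_eq h4)
  omega

theorem solve3 (hT : SymT T) (a b : Fin 5 → k) (hab : LinearIndependent k ![a, b])
    (hL : Line T a b)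
    (hr : ∀ w : Fin 5 → k, (∀ i, lam T a b i w = 0) → ∃ α β : k, w = α • a + β • b)
    (c : Fin 3 → RatFunc k) : ∃ P : Fin 5 → RatFunc k,
      phi T (xR a b) (xR a b) (xR a b) P = c 0 ∧
      phi T (xR a b) (xR a b) (cst (RatFunc k) b) P = c 1 ∧
      phi T (xR a b) (cst (RatFunc k) b) (cst (RatFunc k) b) P = c 2 := by
  let L : (Fin 5 → RatFunc k) →ₗ[RatFunc k] (Fin 3 → RatFunc k) :=
    { toFun := fun w => ![phi T (xR a b) (xR a b) (xR a b) w,
        phi T (xR a b) (xR a b) (cst (RatFunc k) b) w,
        phi T (xR a b) (cst (RatFunc k) b) (cst (RatFunc k) b) w]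
      map_add' := by
        intro x y
        funext i
        fin_cases i <;> exact phi_add4 T _ _ _ _ _
      map_smul' := by
        intro r x
        funext i
        fin_cases i <;> exact phi_smul4 T _ _ _ _ _ }
  have hs : Function.Surjective L := by
    apply solve3_kernel_bound a b L
    intro w hw
    have e : ∀ i, L w i = 0 := fun i => by rw [hw]; rfl
    exact ker3 hT a b hab hL hr w (e 0) (e 1) (e 2)
  obtain ⟨P, hP⟩ := hs c
  have e : ∀ i, L P i = c i := fun i => by rw [hP]
  exact ⟨P, e 0, e 1, e 2⟩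

theorem indep4 (hT : SymT T) (a b : Fin 5 → k) (hab : LinearIndependent k ![a, b])
    (hL : Line T a b) (P Q : Fin 5 → RatFunc k)
    (gP : phi T (xR a b) (xR a b) (cst (RatFunc k) b) P = 0)
    (mP : phi T (xR a b) (cst (RatFunc k) b) (cst (RatFunc k) b) P = 1)
    (gQ : phi T (xR a b) (xR a b) (cst (RatFunc k) b) Q = 1)
    (mQ : phi T (xR a b) (cst (RatFunc k) b) (cst (RatFunc k) b) Q = 0) :
    LinearIndependent (RatFunc k) ![cst (RatFunc k) a, cst (RatFunc k) b, P, Q] := by
  rw [Fintype.linearIndependent_iff]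
  intro g hg
  have hsum : g 0 • cst (RatFunc k) a + g 1 • cst (RatFunc k) b + g 2 • P + g 3 • Q = 0 := by
    rw [← hg, Fin.sum_univ_four]
    rfl
  have ga : phi T (xR a b) (xR a b) (cst (RatFunc k) b) (cst (RatFunc k) a) = 0 := by
    rw [g_eq hT, lam_a hT hL, lam_a hT hL, lam_a hT hL]
    ring
  have gb : phi T (xR a b) (xR a b) (cst (RatFunc k) b) (cst (RatFunc k) b) = 0 := by
    rw [g_eq hT, lam_b hL, lam_b hL, lam_b hL]
    ring
  have ma : phi T (xR a b) (cst (RatFunc k) b) (cst (RatFunc k) b) (cst (RatFunc k) a) = 0 := by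
    rw [m_eq, lam_a hT hL, lam_a hT hL]
    ring
  have mb : phi T (xR a b) (cst (RatFunc k) b) (cst (RatFunc k) b) (cst (RatFunc k) b) = 0 := by
    rw [m_eq, lam_b hL, lam_b hL]
    ring
  have h3 : g 3 = 0 := by
    have := congrArg (fun w => phi T (xR a b) (xR a b) (cst (RatFunc k) b) w) hsum
    simp only [phi_add4, phi_smul4, ga, gb, gP, gQ, phi_zero4] at this
    simpa using this
  have h2 : g 2 = 0 := by
    have := congrArg (fun w => phi T (xR a b) (cst (RatFunc k) b) (cst (RatFunc k) b) w) hsum
    simp only [phi_add4, phi_smul4, ma, mb, mP, mQ, phi_zero4] at this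
    simpa using this
  rw [h2, h3, zero_smul, zero_smul, add_zero, add_zero] at hsum
  obtain ⟨za, zb, z, f, hF⟩ := exists_frm a b hab
  have h0 : g 0 = 0 := by
    have := congrArg (fun w => dot za w) hsum
    simp only [dot_add, dot_smul, dot_cst, hF.aa, hF.ab, map_one, map_zero] at this
    have hz : dot za (0 : Fin 5 → RatFunc k) = 0 := by simp [dot]
    rw [hz] at this
    simpa using this
  have h1 : g 1 = 0 := by
    have := congrArg (fun w => dot zb w) hsum
    simp only [dot_add, dot_smul, dot_cst, hF.ba, hF.bb, map_one, map_zero] at this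
    have hz : dot zb (0 : Fin 5 → RatFunc k) = 0 := by simp [dot]
    rw [hz] at this
    simpa using this
  intro i
  fin_cases i
  · exact h0
  · exact h1
  · exact h2
  · exact h3

end Pool.Agent.Helper66.QL
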