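import Pool.Agent.Helper66.QL.Surf
import Pool.Agent.Helper66.QL.Solve3
import Pool.Agent.Helper66.QL.OmNe3
import Pool.Agent.Helper66.QL.Nodal

/-!
# QL: STEP 3, lines of the first type (assembly)
-/

set_option autoImplicit false

namespace Pool.Agent.Helper66.QL

open Pool.Agent.Helper72.QT

variable {k : Type*} [Field k] [IsAlgClosed k] {T : Ten k 5}

theorem step3 (h2 : (2 : k) ≠ 0) (h3 : (3 : k) ≠ 0) (hT : SymT T) (hS : Smo T) (a b : Fin 5 → k)
    (hab : LinearIndependent k ![a, b]) (hL : Line T a b)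
    (hr : ∀ w : Fin 5 → k, (∀ i, lam T a b i w = 0) → ∃ α β : k, w = α • a + β • b) :
    ContRat T := by
  obtain ⟨P, lP, gP, mP⟩ := solve3 hT a b hab hL hr ![0, 0, 1]
  obtain ⟨Q, lQ, gQ, mQ⟩ := solve3 hT a b hab hL hr ![0, 1, 0]
  by_cases hP : phi T (xR a b) (xR a b) P P = 0
  · exact nodal h2 h3 hT a b hab hL P lP gP mP hP
  · exact surf h2 h3 hT hS a b hab hL P Q (indep4 hT a b hab hL P Q gP mP gQ mQ) lP lQ
      (gne3 a b P Q gP gQ) (omne3 h3 hT a b P Q gP mP hP)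

end Pool.Agent.Helper66.QL
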