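import Pool.Agent.Helper66.QL.Defs

/-!
# QL-07: the vector `u = P + s Q` is not in the span of `a, b`

PROOF. Suppose `toK P + s toK Q = α a + β b` over `KK k`. `a, b, P, Q` are linearly independent over `RatFunc k`, so there is a linear form `φ` on `(RatFunc k)^5`, `φ w = ∑ j, c j * w j`, with `φ a = φ b = 0`, `φ P = 1`, `φ Q = 0`
(`LinearIndependent` vectors have dual forms: `LinearMap.exists_leftInverse_of_injective` or `exists_dual`-type argument as in `QT/Ratio.lean`; all over the field `RatFunc k`). Apply `∑ j, jR (c j) * _` to both sides: the right side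
gives `0`, the left side `jR (φ P) + s jR (φ Q) = 1`. Contradiction.
-/

set_option autoImplicit false

namespace Pool.Agent.Helper66.QL

open Pool.Agent.Helper72.QT

variable {k : Type*} [Field k]

theorem uu_ne (a b : Fin 5 → k) (P Q : Fin 5 → RatFunc k)
    (hind : LinearIndependent (RatFunc k) ![cst (RatFunc k) a, cst (RatFunc k) b, P, Q])
    (α β : KK k) : uu P Q ≠ α • cst (KK k) a + β • cst (KK k) b := by
  classical
  intro h
  set u : Fin 4 → Fin 5 → RatFunc k := ![cst (RatFunc k) a, cst (RatFunc k) b, P, Q] with hu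
  have hinj : LinearMap.ker (Fintype.linearCombination (RatFunc k) u) = ⊥ :=
    LinearMap.ker_eq_bot.2 (linearIndependent_iff_injective_fintypeLinearCombination.1 hind)
  obtain ⟨g, hg⟩ := LinearMap.exists_leftInverse_of_injective _ hinj
  have hgu : ∀ q : Fin 4, g (u q) 2 = if q = 2 then 1 else 0 := by
    intro q
    have e2 := LinearMap.congr_fun hg (Pi.single q 1)
    rw [LinearMap.comp_apply, LinearMap.id_apply, Fintype.linearCombination_apply_single,
      one_smul] at e2
    rw [e2, Pi.single_apply]
    exact if_congr eq_comm rfl rfl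
  set c : Fin 5 → RatFunc k := fun j => g (Pi.single j 1) 2 with hc
  have hsum : ∀ w : Fin 5 → RatFunc k, ∑ j, c j * w j = g w 2 := by
    intro w
    have e3 : w = ∑ j, w j • (Pi.single j (1 : RatFunc k) : Fin 5 → RatFunc k) := by
      funext i
      rw [Finset.sum_apply]
      simp [Pi.single_apply]
    conv_rhs => rw [e3]
    rw [map_sum, Finset.sum_apply]
    refine Finset.sum_congr rfl fun j _ => ?_
    rw [map_smul, Pi.smul_apply, smul_eq_mul, mul_comm]
  have hK : ∀ w : Fin 5 → RatFunc k, ∑ j, jR k (c j) * toK w j = jR k (g w 2) := by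
    intro w
    rw [← hsum w, map_sum]
    refine Finset.sum_congr rfl fun j _ => ?_
    rw [map_mul, toK_eq]
  have ha : g (cst (RatFunc k) a) 2 = 0 := by
    have := hgu 0
    simpa [hu] using this
  have hb : g (cst (RatFunc k) b) 2 = 0 := by
    have := hgu 1
    simpa [hu] using this
  have hP : g P 2 = 1 := by
    have := hgu 2
    simpa [hu] using this
  have hQ : g Q 2 = 0 := by
    have := hgu 3
    simpa [hu] using this
  have h1 : ∑ j, jR k (c j) * uu P Q j = 1 := by
    have : ∀ j, jR k (c j) * uu P Q j = jR k (c j) * toK P j + ss k * (jR k (c j) * toK Q j) := by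
      intro j
      simp only [uu, Pi.add_apply, Pi.smul_apply, smul_eq_mul]
      ring
    rw [Finset.sum_congr rfl fun j _ => this j, Finset.sum_add_distrib, ← Finset.mul_sum, hK, hK,
      hP, hQ, map_one, map_zero, mul_zero, add_zero]
  have h2 : ∑ j, jR k (c j) * uu P Q j = 0 := by
    rw [h]
    have : ∀ j, jR k (c j) * (α • cst (KK k) a + β • cst (KK k) b) j =
        α * (jR k (c j) * toK (cst (RatFunc k) a) j) +
          β * (jR k (c j) * toK (cst (RatFunc k) b) j) := by
      intro j
      rw [toK_cst, toK_cst]
      simp only [Pi.add_apply, Pi.smul_apply, smul_eq_mul]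
      ring
    rw [Finset.sum_congr rfl fun j _ => this j, Finset.sum_add_distrib, ← Finset.mul_sum,
      ← Finset.mul_sum, hK, hK, ha, hb, map_zero, mul_zero, mul_zero, add_zero]
  rw [h1] at h2
  exact one_ne_zero h2

end Pool.Agent.Helper66.QL
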