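import Pool.Agent.Helper66.QL.RatCubic
import Pool.Agent.Helper66.QL.LamNe
import Pool.Agent.Helper66.QL.Gens
import Pool.Agent.Helper66.QL.UNe

/-!
# QL-09: STEP S, the rational surface

PROOF. `u = uu P Q`, `v = vv T a b P Q`, `x = xK a b`, `g = phi x x b u`, `c = phi x v v v = -(2 g Om) ≠ 0` (`c_eq`; `phi x b b b = 0` from `m_eq`, `lam_b`), `y = resid T x v`, `phi T y y y y = 0` (`inW_vv`, `phi_resid`).
`exists_frm_ne` with `uu_ne`: `Frm`, `Z_j = dot (z j)`, `Z_0 u ≠ 0`. `Z_j x = 0`, `Z_j (cst b) = 0` (`dot_cst`, `dot_add`, `dot_smul`), so `Z_j v = - 2 g Z_j u`, `Z_j y = 8 c g Z_j u` (unfold `stereo`, `resid`; `2 ≠ 0`), so `Z_0 y ≠ 0` and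
some `y i ≠ 0`. `r_j = Z_j u / Z_0 u = Z_j y / Z_0 y` is in `E = adjoin k (range (y_j / y_i))` (`ratio_mem`, `dot` unfolds to its sums). Apply `rat_of_cubic` with `r1, r2` and
`c n = C(3,n) * lam_n(u) / Z_0 u = C(3,n) * (lam_n(f 0) + r1 lam_n(f 1) + r2 lam_n(f 2))` (`Frm.decR` for `u`, `lam_add`, `lam_smul`, `lam_a`, `lam_b`, `lam_cst`); `hne` from `lam_ne`, `3 ≠ 0`;
`ht` from `l(u) = 0` (`l_eq`; `l(P) = l(Q) = 0` with `phi_toK`, `toK_pt`); `htop` from `gens` (`r_0 = 1`).
-/

set_option autoImplicit false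

namespace Pool.Agent.Helper66.QL

open Pool.Agent.Helper72.QT

variable {k : Type*} [Field k] [IsAlgClosed k] {T : Ten k 5}

theorem surf (h2 : (2 : k) ≠ 0) (h3 : (3 : k) ≠ 0) (hT : SymT T) (hS : Smo T) (a b : Fin 5 → k)
    (hab : LinearIndependent k ![a, b]) (hL : Line T a b) (P Q : Fin 5 → RatFunc k)
    (hind : LinearIndependent (RatFunc k) ![cst (RatFunc k) a, cst (RatFunc k) b, P, Q])
    (hP : phi T (xR a b) (xR a b) (xR a b) P = 0) (hQ : phi T (xR a b) (xR a b) (xR a b) Q = 0)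
    (hg : phi T (xK a b) (xK a b) (cst (KK k) b) (uu P Q) ≠ 0)
    (hOm : Om T (xK a b) (cst (KK k) b) (uu P Q) ≠ 0) : ContRat T := by
  have h2K : (2 : KK k) ≠ 0 := by
    intro h
    apply h2
    apply (algebraMap k (KK k)).injective
    rw [map_ofNat, map_zero]
    exact h
  have h3K : (3 : KK k) ≠ 0 := by
    intro h
    apply h3
    apply (algebraMap k (KK k)).injective
    rw [map_ofNat, map_zero]
    exact h
  have h8K : (8 : KK k) ≠ 0 := by
    have e : (8 : KK k) = 2 ^ 3 := by norm_num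
    rw [e]
    exact pow_ne_zero 3 h2K
  have hb3 : phi T (xK a b) (cst (KK k) b) (cst (KK k) b) (cst (KK k) b) = 0 := by
    rw [m_eq, lam_b hL, lam_b hL]
    ring
  have hc0 := c_eq hT (xK a b) (cst (KK k) b) (uu P Q) hb3
  have hW := inW_vv hT hL hP hQ
  obtain ⟨za, zb, z, f, hF, h0⟩ := exists_frm_ne a b hab (uu P Q) (uu_ne a b P Q hind)
  set u : Fin 5 → KK k := uu P Q with hu
  set x : Fin 5 → KK k := xK a b with hx
  set g : KK k := phi T x x (cst (KK k) b) u with hgdef
  set v : Fin 5 → KK k := vv T a b P Q with hv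
  have hv' : v = stereo T x (cst (KK k) b) u := rfl
  rw [← hv'] at hc0
  set c : KK k := phi T x v v v with hcdef
  have hc : c ≠ 0 := by
    rw [hc0]
    exact neg_ne_zero.2 (mul_ne_zero (mul_ne_zero h2K hg) hOm)
  set y : Fin 5 → KK k := resid T x v with hy
  have hyy : phi T y y y y = 0 := phi_resid hT hW
  -- coordinates
  have hZx : ∀ j, dot (z j) x = 0 := by
    intro j
    show dot (z j) (cst (KK k) a + tt k • cst (KK k) b) = 0
    rw [dot_add, dot_smul, dot_cst, dot_cst, hF.fa, hF.fb, map_zero, mul_zero, add_zero]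
  have hZb : ∀ j, dot (z j) (cst (KK k) b) = 0 := by
    intro j
    rw [dot_cst, hF.fb, map_zero]
  have dot_neg' : ∀ (d : Fin 5 → k) (w : Fin 5 → KK k), dot d (-w) = -dot d w := by
    intro d w
    have := dot_smul d (-1 : KK k) w
    rw [neg_one_smul] at this
    rw [this]
    ring
  have hZv : ∀ j, dot (z j) v = -(2 * g) * dot (z j) u := by
    intro j
    rw [hv', stereo, sub_eq_add_neg, dot_add, dot_neg', dot_smul, dot_smul, hZb]
    ring
  have hZy : ∀ j, dot (z j) y = (8 * c * g) * dot (z j) u := by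
    intro j
    rw [hy, resid, sub_eq_add_neg, dot_add, dot_neg', dot_smul, dot_smul, hZx, hZv]
    ring
  have h8 : (8 * c * g) ≠ 0 := mul_ne_zero (mul_ne_zero h8K hc) hg
  have hZy0 : dot (z 0) y ≠ 0 := by
    rw [hZy]
    exact mul_ne_zero h8 h0
  obtain ⟨i, hi⟩ : ∃ i, y i ≠ 0 := by
    by_contra hcon
    push Not at hcon
    apply hZy0
    simp only [dot]
    refine Finset.sum_eq_zero fun j _ => ?_
    rw [hcon j, mul_zero]
  have hr : ∀ j, dot (z j) u / dot (z 0) u = dot (z j) y / dot (z 0) y := by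
    intro j
    rw [hZy, hZy, mul_div_mul_left _ _ h8]
  have hrmem : ∀ j, dot (z j) u / dot (z 0) u ∈
      IntermediateField.adjoin k (Set.range fun l => y l / y i) := by
    intro j
    rw [hr]
    exact ratio_mem y i hi (z j) (z 0)
  -- the cubic equation
  have hlam : ∀ n : Fin 4, lam T a b n u / dot (z 0) u =
      algebraMap k (KK k) (lam T a b n (f 0)) +
        dot (z 1) u / dot (z 0) u * algebraMap k (KK k) (lam T a b n (f 1)) +
        dot (z 2) u / dot (z 0) u * algebraMap k (KK k) (lam T a b n (f 2)) := by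
    intro n
    have e1 : lam T a b n u = dot (z 0) u * algebraMap k (KK k) (lam T a b n (f 0)) +
        dot (z 1) u * algebraMap k (KK k) (lam T a b n (f 1)) +
        dot (z 2) u * algebraMap k (KK k) (lam T a b n (f 2)) := by
      conv_lhs => rw [hF.decR u]
      rw [Fin.sum_univ_three, lam_add, lam_add, lam_add, lam_add, lam_smul, lam_smul, lam_smul,
        lam_smul, lam_smul, lam_a hT hL, lam_b hL, lam_cst, lam_cst, lam_cst]
      ring
    rw [e1]
    field_simp
  have hlu : phi T x x x u = 0 := by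
    have cast : ∀ P : Fin 5 → RatFunc k, phi T x x x (toK P) =
        jR k (phi T (xR a b) (xR a b) (xR a b) P) := by
      intro P
      rw [hx, ← toK_pt, phi_toK]
    rw [hu, uu, phi_add4, phi_smul4, cast, cast, hP, hQ, map_zero]
    ring
  obtain ⟨n0, hn0⟩ := lam_ne hT hS a b hab hL P Q hind
  have hbin : ∀ n : Fin 4, (![1, 3, 3, 1] : Fin 4 → KK k) n ≠ 0 := by
    intro n
    fin_cases n
    · exact one_ne_zero
    · exact h3K
    · exact h3K
    · exact one_ne_zero
  have hbin' : ∀ (M : IntermediateField k (KK k)) (n : Fin 4),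
      (![1, 3, 3, 1] : Fin 4 → KK k) n ∈ M := by
    intro M n
    fin_cases n
    · exact one_mem M
    · exact ofNat_mem M 3
    · exact ofNat_mem M 3
    · exact one_mem M
  refine rat_of_cubic y hyy i hi (dot (z 1) u / dot (z 0) u) (dot (z 2) u / dot (z 0) u)
    (hrmem 1) (hrmem 2)
    (fun n => (![1, 3, 3, 1] : Fin 4 → KK k) n * (lam T a b n u / dot (z 0) u)) ?_ ?_ ?_ ?_
  · intro n
    refine mul_mem (hbin' _ n) ?_
    rw [hlam]
    refine add_mem (add_mem ?_ (mul_mem ?_ ?_)) (mul_mem ?_ ?_)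
    · exact IntermediateField.algebraMap_mem _ _
    · exact IntermediateField.subset_adjoin _ _ (by simp)
    · exact IntermediateField.algebraMap_mem _ _
    · exact IntermediateField.subset_adjoin _ _ (by simp)
    · exact IntermediateField.algebraMap_mem _ _
  · exact ⟨n0, mul_ne_zero (hbin n0) (div_ne_zero hn0 h0)⟩
  · have e := l_eq hT a b (tt k) u
    have e' : phi T x x x u = phi T (pt a b (tt k)) (pt a b (tt k)) (pt a b (tt k)) u := rfl
    rw [← e', hlu] at e
    show 1 * (lam T a b 0 u / dot (z 0) u) + 3 * (lam T a b 1 u / dot (z 0) u) * tt k +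
      3 * (lam T a b 2 u / dot (z 0) u) * tt k ^ 2 +
      1 * (lam T a b 3 u / dot (z 0) u) * tt k ^ 3 = 0
    have e2 : 1 * (lam T a b 0 u / dot (z 0) u) + 3 * (lam T a b 1 u / dot (z 0) u) * tt k +
      3 * (lam T a b 2 u / dot (z 0) u) * tt k ^ 2 +
      1 * (lam T a b 3 u / dot (z 0) u) * tt k ^ 3 =
      (lam T a b 0 u + 3 * tt k * lam T a b 1 u + 3 * tt k ^ 2 * lam T a b 2 u +
        tt k ^ 3 * lam T a b 3 u) / dot (z 0) u := by
      ring
    rw [e2, ← e, zero_div]
  · intro M hM1 hM2 hMt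
    refine gens hF P Q hind h0 M hMt ?_
    intro j
    fin_cases j
    · show dot (z 0) u / dot (z 0) u ∈ M
      rw [div_self h0]
      exact one_mem M
    · exact hM1
    · exact hM2

end Pool.Agent.Helper66.QL
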